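import Pool.Agent.H6.AE.Gam
import Pool.Agent.H12.DM.Bs

/-!
# Sgm: the truncated singular series and the singular series

`Sy y s` is the mean of `∏_{h ∈ s} Mm y (t - h)` over a period; `sW x s = Sy (yy x) s` (by definition).

* `Sy_eq`: as `sW_eq` (`Pool/Agent/H12/DM/Bs.lean`, replace `yy x` by `y`): `Sy y s = ∏_{p ≤ y} loc s p`.
* `loc_le_m`: for `1 ≤ |s| ≤ k` and `p` prime: `loc s p ≤ 1 + 2^k/p` (`nuH s p ≥ 1`, so `loc s p ≤ (1-u)^{-(|s|-1)}`, `u = 1/p`, and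
  `BLKm_real'`), and `loc s p ≤ 1` if `nuH s p = |s|` (`loc_le_one`); `nuH s p ≠ |s|` iff `p` divides a difference (`Bs_nu`). Hence
  for every finite set `S` of primes `> y`: `∏_{p ∈ S} loc s p ≤ ∏_{q ∈ s.offDiag} gfm k y (q.1 - q.2) =: G_y` (each `p ∈ S` with
  `loc s p > 1` divides a difference `q.1 - q.2 ≠ 0`; all factors `1 + 2^k/p ≥ 1`).
  So `Sy y' s ≤ G_1` (`y = 1`: all primes are `> 1`) and `sing s ≤ G_1` (`sing_le_prod`).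
* `Sgm_point`: let `1 ≤ |s| ≤ k`, `1 ≤ y ≤ y'`. Then `|Sy y' s - sing s| ≤ 4 (k+1)^2 G_1 (1/y + G_y - 1)`:
  if `y' ≥ 2k + 1`: `SNG_gen` gives `(1 - k^2/y') Sy y' s ≤ sing s` and `sing_le_prod` (with the primes `≤ y'` and the prime divisors `> y'` of the
  differences) gives `sing s ≤ Sy y' s * G_{y'}`, `G_{y'} ≤ G_y`; if `y' ≤ 2k`: `|Sy y' s - sing s| ≤ G_1 ≤ 2k G_1/y' ≤ 2k G_1/y` (both numbers
  are in `[0, G_1]`; note `y ≤ y' ≤ 2k`, so `1 ≤ 2k/y`). (Compare `Bs_cmp`.)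
* `Sgm`: `G_1 (G_y - 1) ≤ (t G_1^2 + (G_y - 1)^2/t)/2`, `t = 1/√y`, `(G_y - 1)^2 ≤ G_y^2 - 1`, and `G_1/y ≤ G_1^2/√y`; sum over `D` with `Gam0_sum` (`r = 2`, `y = 1`) and
  `Gam0` (`r = 2`), `m = k + 1`, `j = k`: `≤ C' (1/√y + t + 1/(t y)) H^k`.
-/

set_option autoImplicit false

namespace Pool.Agent.H6.AE

open Finset Pool.Agent.H17 Pool.Agent.H6.MF Pool.Agent.H6.MB Pool.Agent.H12.DM

/-- the part of the singular series belonging to the primes `≤ y` -/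
noncomputable def Sy (y : ℕ) (s : Finset ℤ) : ℝ := avgP (WW y) (fun t => ∏ h ∈ s, Mm y (t - h))

theorem sW_eq_Sy (x : ℝ) (s : Finset ℤ) : sW x s = Sy (yy x) s := rfl

theorem Sy_eq (y : ℕ) (s : Finset ℤ) : Sy y s = ∏ p ∈ PP y, loc s p := by
  unfold Sy
  have h1 : (fun m : ℤ => ∏ h ∈ s, Mm y (m - h)) = fun m : ℤ => ∏ p ∈ PP y,
      (fun (p : ℕ) (n : ℤ) => ∏ h ∈ s, (if (p : ℤ) ∣ n - h then 0 else (1 - 1 / (p : ℝ))⁻¹)) p m := by
    funext m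
    rw [Finset.prod_congr rfl (fun h _ => Bs_Mm y (m - h)), Finset.prod_comm]
  rw [h1]
  unfold WW
  rw [BLK_avg_prod (PP y) (fun p hp => (mem_PP.mp hp).2)]
  · apply Finset.prod_congr rfl
    intro p hp
    exact Bs_avg (mem_PP.mp hp).2 s
  · intro p _ n k
    apply Finset.prod_congr rfl
    intro h _
    have h2 : (p : ℤ) ∣ n + k * p - h ↔ (p : ℤ) ∣ n - h := by
      have h3 : n + k * (p : ℤ) - h = (n - h) + k * p := by ring
      rw [h3]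
      exact (Int.dvd_add_left (dvd_mul_left _ _))
    simp only [h2]

theorem Sy_nonneg (y : ℕ) (s : Finset ℤ) : 0 ≤ Sy y s := by
  rw [Sy_eq]
  exact Finset.prod_nonneg fun p hp => loc_nonneg s (mem_PP.mp hp).2

theorem Sgm_real (k : ℕ) {u : ℝ} (hu0 : 0 ≤ u) (hu : u ≤ 1 / 2) :
    1 ≤ (1 - u) ^ k * (1 + (2 ^ (k + 1) - 2) * u) := by
  induction k with
  | zero => norm_num
  | succ k ih =>
    have h1 : (1 - u) ^ (k + 1) * (1 + (2 ^ (k + 1 + 1) - 2) * u) =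
        (1 - u) ^ k * (1 + (2 ^ (k + 1) - 2) * u) + (1 - u) ^ k * ((2 ^ (k + 1) - 1) * (u * (1 - 2 * u))) := by
      rw [pow_succ, pow_succ (2 : ℝ) (k + 1)]
      ring
    have h2 : (1 : ℝ) ≤ 2 ^ (k + 1) := one_le_pow₀ (by norm_num)
    have h3 : 0 ≤ (1 - u) ^ k * ((2 ^ (k + 1) - 1) * (u * (1 - 2 * u))) :=
      mul_nonneg (pow_nonneg (by linarith) k) (mul_nonneg (by linarith) (mul_nonneg hu0 (by linarith)))
    rw [h1]
    linarith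

theorem Sgm_real' {k m : ℕ} (hk : 1 ≤ k) (hkm : k ≤ m) {u : ℝ} (hu0 : 0 ≤ u) (hu : u ≤ 1 / 2) :
    1 ≤ (1 - u) ^ (k - 1) * (1 + 2 ^ m * u) := by
  refine (Sgm_real (k - 1) hu0 hu).trans ?_
  refine mul_le_mul_of_nonneg_left ?_ (pow_nonneg (by linarith) _)
  have h1 : (2 : ℝ) ^ (k - 1 + 1) ≤ 2 ^ m := pow_le_pow_right₀ (by norm_num) (by omega)
  have h2 : ((2 : ℝ) ^ (k - 1 + 1) - 2) * u ≤ 2 ^ m * u := mul_le_mul_of_nonneg_right (by linarith) hu0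
  linarith

/-- the local factor of the bounds -/
noncomputable def Se (k p : ℕ) (δ : ℤ) : ℝ := if (p : ℤ) ∣ δ then 1 + 2 ^ k / (p : ℝ) else 1

theorem Se_one (k p : ℕ) (δ : ℤ) : 1 ≤ Se k p δ := by
  unfold Se
  split_ifs
  · have : (0 : ℝ) ≤ 2 ^ k / p := by positivity
    linarith
  · exact le_rfl

theorem Sgm_loc {k : ℕ} {s : Finset ℤ} (h1 : 1 ≤ s.card) (hk : s.card ≤ k) {p : ℕ} (hp : p.Prime) :
    loc s p ≤ 1 + 2 ^ k / (p : ℝ) := by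
  have hnu : 1 ≤ nuH s p := by
    unfold nuH
    rw [Nat.one_le_iff_ne_zero, Finset.card_ne_zero]
    exact (Finset.card_pos.1 h1).image _
  have hp2 : (2 : ℝ) ≤ p := by exact_mod_cast hp.two_le
  have hp0 : (0 : ℝ) < p := by linarith
  obtain ⟨u, hu⟩ : ∃ u : ℝ, u = 1 / (p : ℝ) := ⟨_, rfl⟩
  have hu0 : 0 < u := by rw [hu]; positivity
  have hu1 : u ≤ 1 / 2 := by
    rw [hu]
    exact one_div_le_one_div_of_le (by norm_num) hp2
  have h14 : (2 : ℝ) ^ k / p = 2 ^ k * u := by rw [hu]; ring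
  have hnum : 1 - (nuH s p : ℝ) / p ≤ 1 - u := by
    have h1 : (1 : ℝ) ≤ nuH s p := by exact_mod_cast hnu
    have h2 : (1 : ℝ) / p ≤ (nuH s p : ℝ) / p := div_le_div_of_nonneg_right h1 hp0.le
    rw [← hu] at h2
    linarith
  unfold loc
  rw [h14, ← hu]
  have ht : 0 < 1 - u := by linarith
  rw [div_le_iff₀ (pow_pos ht _)]
  refine hnum.trans ?_
  have h3 := Sgm_real' h1 hk hu0.le hu1
  calc 1 - u ≤ (1 - u) * ((1 - u) ^ (s.card - 1) * (1 + 2 ^ k * u)) := le_mul_of_one_le_right ht.le h3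
    _ = (1 + 2 ^ k * u) * (1 - u) ^ (s.card - 1 + 1) := by rw [pow_succ]; ring
    _ = (1 + 2 ^ k * u) * (1 - u) ^ s.card := by rw [Nat.sub_add_cancel h1]

theorem Sgm_loc2 {k : ℕ} {s : Finset ℤ} (h1 : 1 ≤ s.card) (hk : s.card ≤ k) {p : ℕ} (hp : p.Prime) :
    loc s p ≤ ∏ q ∈ s.offDiag, Se k p (q.1 - q.2) := by
  by_cases h : nuH s p = s.card
  · exact (loc_le_one hp h).trans (Finset.one_le_prod fun q _ => Se_one k p _)
  · obtain ⟨a, ha, b, hb, hab, hd⟩ := Bs_nu h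
    have hmem : (a, b) ∈ s.offDiag := Finset.mem_offDiag.2 ⟨ha, hb, hab⟩
    have h0 : Se k p (a - b) = 1 + 2 ^ k / (p : ℝ) := by
      unfold Se
      rw [if_pos hd]
    rw [← Finset.mul_prod_erase s.offDiag (fun q : ℤ × ℤ => Se k p (q.1 - q.2)) hmem]
    show loc s p ≤ Se k p (a - b) * ∏ q ∈ s.offDiag.erase (a, b), Se k p (q.1 - q.2)
    rw [h0]
    refine (Sgm_loc h1 hk hp).trans ?_
    exact le_mul_of_one_le_right (by positivity) (Finset.one_le_prod fun q _ => Se_one k p _)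

theorem Sgm_prod_gfm (k y : ℕ) {δ : ℤ} (hδ : δ ≠ 0) (S : Finset ℕ)
    (hS : ∀ p ∈ S, p.Prime ∧ y < p) : ∏ p ∈ S, Se k p δ ≤ gfm k y δ := by
  have h1 : ∏ p ∈ S, Se k p δ = ∏ p ∈ S.filter (fun p : ℕ => (p : ℤ) ∣ δ), (1 + 2 ^ k / (p : ℝ)) := by
    rw [Finset.prod_filter]
    rfl
  rw [h1]
  unfold gfm gfB
  have hsub : S.filter (fun p : ℕ => (p : ℤ) ∣ δ) ⊆ δ.natAbs.primeFactors.filter (fun p => y < p) := by
    intro p hp
    rw [Finset.mem_filter] at hp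
    rw [Finset.mem_filter, Nat.mem_primeFactors]
    obtain ⟨h2, h3⟩ := hS p hp.1
    exact ⟨⟨h2, Int.natCast_dvd.1 hp.2, Int.natAbs_ne_zero.2 hδ⟩, h3⟩
  rw [← Finset.prod_sdiff hsub]
  refine le_mul_of_one_le_left (Finset.prod_nonneg fun p _ => by positivity) ?_
  refine Finset.one_le_prod fun p _ => ?_
  have : (0 : ℝ) ≤ 2 ^ k / p := by positivity
  linarith

theorem loc_prod_le {k y : ℕ} {s : Finset ℤ} (h1 : 1 ≤ s.card) (hk : s.card ≤ k) (S : Finset ℕ)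
    (hS : ∀ p ∈ S, p.Prime ∧ y < p) :
    ∏ p ∈ S, loc s p ≤ ∏ q ∈ s.offDiag, gfm k y (q.1 - q.2) := by
  refine (Finset.prod_le_prod (fun p hp => loc_nonneg _ (hS p hp).1)
    (fun p hp => Sgm_loc2 h1 hk (hS p hp).1)).trans ?_
  rw [Finset.prod_comm]
  refine Finset.prod_le_prod (fun q _ => Finset.prod_nonneg fun p _ => zero_le_one.trans (Se_one k p _))
    (fun q hq => ?_)
  exact Sgm_prod_gfm k y (sub_ne_zero.2 (Finset.mem_offDiag.1 hq).2.2) S hS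

theorem Sy_le {k : ℕ} (y : ℕ) {s : Finset ℤ} (h1 : 1 ≤ s.card) (hk : s.card ≤ k) :
    Sy y s ≤ ∏ q ∈ s.offDiag, gfm k 1 (q.1 - q.2) := by
  rw [Sy_eq]
  exact loc_prod_le h1 hk (PP y) (fun p hp => ⟨(mem_PP.mp hp).2, (mem_PP.mp hp).2.one_lt⟩)

/-- the primes dividing a difference -/
def Sgm_D (s : Finset ℤ) : Finset ℕ := s.offDiag.biUnion (fun q => (q.1 - q.2).natAbs.primeFactors)

theorem Sgm_D_prime {s : Finset ℤ} {p : ℕ} (hp : p ∈ Sgm_D s) : p.Prime := by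
  unfold Sgm_D at hp
  rw [Finset.mem_biUnion] at hp
  obtain ⟨q, _, hq⟩ := hp
  exact Nat.prime_of_mem_primeFactors hq

theorem Sgm_D_mem {s : Finset ℤ} {p : ℕ} (hp : p.Prime) (h : nuH s p ≠ s.card) : p ∈ Sgm_D s := by
  obtain ⟨a, ha, b, hb, hab, hd⟩ := Bs_nu h
  unfold Sgm_D
  rw [Finset.mem_biUnion]
  refine ⟨(a, b), Finset.mem_offDiag.2 ⟨ha, hb, hab⟩, ?_⟩
  rw [Nat.mem_primeFactors]
  exact ⟨hp, Int.natCast_dvd.1 hd, Int.natAbs_ne_zero.2 (sub_ne_zero.2 hab)⟩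

theorem sing_le_G {k : ℕ} {s : Finset ℤ} (h1 : 1 ≤ s.card) (hk : s.card ≤ k) :
    sing s ≤ ∏ q ∈ s.offDiag, gfm k 1 (q.1 - q.2) := by
  refine (sing_le_prod s (Sgm_D s) (fun p hp => Sgm_D_prime hp) (fun p hp hn => Sgm_D_mem hp hn)).trans ?_
  exact loc_prod_le h1 hk (Sgm_D s) (fun p hp => ⟨Sgm_D_prime hp, (Sgm_D_prime hp).one_lt⟩)

theorem one_le_Gprod (k y : ℕ) (s : Finset ℤ) : 1 ≤ ∏ q ∈ s.offDiag, gfm k y (q.1 - q.2) :=
  Finset.one_le_prod fun q _ => one_le_gfm k y _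

theorem Sgm_point {k y y' : ℕ} (hy : 1 ≤ y) (hyy : y ≤ y') {s : Finset ℤ} (h1 : 1 ≤ s.card) (hk : s.card ≤ k) :
    |Sy y' s - sing s| ≤ 4 * ((k : ℝ) + 1) ^ 2 * (∏ q ∈ s.offDiag, gfm k 1 (q.1 - q.2)) *
      (1 / (y : ℝ) + (∏ q ∈ s.offDiag, gfm k y (q.1 - q.2) - 1)) := by
  obtain ⟨G1, hG1⟩ : ∃ G : ℝ, G = ∏ q ∈ s.offDiag, gfm k 1 (q.1 - q.2) := ⟨_, rfl⟩
  obtain ⟨Gy, hGy⟩ : ∃ G : ℝ, G = ∏ q ∈ s.offDiag, gfm k y (q.1 - q.2) := ⟨_, rfl⟩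
  have hG1' : 1 ≤ G1 := hG1 ▸ one_le_Gprod k 1 s
  have hGy' : 1 ≤ Gy := hGy ▸ one_le_Gprod k y s
  have hS0 := Sy_nonneg y' s
  have hS1 : Sy y' s ≤ G1 := hG1 ▸ Sy_le y' h1 hk
  have hs0 := sing_nonneg s
  have hs1 : sing s ≤ G1 := hG1 ▸ sing_le_G h1 hk
  rw [← hG1, ← hGy]
  have hyR : (1 : ℝ) ≤ y := by exact_mod_cast hy
  have hyyR : (y : ℝ) ≤ y' := by exact_mod_cast hyy
  have hy0 : (0 : ℝ) < y := by linarith
  have hy'0 : (0 : ℝ) < y' := by linarith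
  have hk0 : (0 : ℝ) ≤ k := Nat.cast_nonneg k
  have hkR : (s.card : ℝ) ≤ k := by exact_mod_cast hk
  have hc0 : (0 : ℝ) ≤ s.card := Nat.cast_nonneg _
  have hK1 : (1 : ℝ) ≤ 4 * ((k : ℝ) + 1) ^ 2 := by nlinarith
  have hKk : (k : ℝ) ^ 2 ≤ 4 * ((k : ℝ) + 1) ^ 2 := by nlinarith
  have hK2 : 2 * (k : ℝ) ≤ 4 * ((k : ℝ) + 1) ^ 2 := by nlinarith
  have hK0 : (0 : ℝ) ≤ 4 * ((k : ℝ) + 1) ^ 2 := by linarith
  have hG10 : (0 : ℝ) ≤ G1 := by linarith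
  have hA0 : 0 ≤ 4 * ((k : ℝ) + 1) ^ 2 * G1 * (1 / (y : ℝ)) := by positivity
  have hB0 : 0 ≤ 4 * ((k : ℝ) + 1) ^ 2 * G1 * (Gy - 1) := mul_nonneg (by positivity) (by linarith)
  rw [mul_add]
  rcases le_or_gt y' (2 * k) with hc | hc
  · have h2 : |Sy y' s - sing s| ≤ G1 := by
      rw [abs_le]
      constructor <;> linarith
    have hc' : (y' : ℝ) ≤ 2 * k := by exact_mod_cast hc
    have h3 : 1 ≤ 4 * ((k : ℝ) + 1) ^ 2 * (1 / (y : ℝ)) := by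
      rw [mul_one_div, le_div_iff₀ hy0]
      linarith
    have h4 : G1 ≤ 4 * ((k : ℝ) + 1) ^ 2 * G1 * (1 / (y : ℝ)) := by
      calc G1 = G1 * 1 := (mul_one _).symm
        _ ≤ G1 * (4 * ((k : ℝ) + 1) ^ 2 * (1 / (y : ℝ))) := mul_le_mul_of_nonneg_left h3 hG10
        _ = _ := by ring
    linarith
  · have hlow := SNG_gen s y' (by omega) (by omega) (PP y')
      (fun p hp => (mem_PP.mp hp).2) (fun p hp hle => mem_PP.mpr ⟨hle, hp⟩)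
    rw [← Sy_eq] at hlow
    have hup := sing_le_prod s (PP y' ∪ (Sgm_D s).filter (fun p => y' < p)) (fun p hp => by
        rw [Finset.mem_union, Finset.mem_filter] at hp
        rcases hp with hp | hp
        · exact (mem_PP.mp hp).2
        · exact Sgm_D_prime hp.1) (fun p hp hn => by
        rw [Finset.mem_union, Finset.mem_filter]
        by_cases hle : p ≤ y'
        · exact Or.inl (mem_PP.mpr ⟨hle, hp⟩)
        · exact Or.inr ⟨Sgm_D_mem hp hn, by omega⟩)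
    rw [Finset.prod_union (by
      rw [Finset.disjoint_left]
      intro p hp hp'
      have h5 := (mem_PP.mp hp).1
      rw [Finset.mem_filter] at hp'
      omega), ← Sy_eq] at hup
    have hD : ∏ p ∈ (Sgm_D s).filter (fun p => y' < p), loc s p ≤ Gy := by
      rw [hGy]
      refine loc_prod_le h1 hk _ (fun p hp => ?_)
      rw [Finset.mem_filter] at hp
      exact ⟨Sgm_D_prime hp.1, by omega⟩
    have hup2 : sing s ≤ Sy y' s * Gy := hup.trans (mul_le_mul_of_nonneg_left hD hS0)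
    rw [abs_le]
    constructor
    · have h5 : Sy y' s * (Gy - 1) ≤ G1 * (Gy - 1) := mul_le_mul_of_nonneg_right hS1 (by linarith)
      have h6 : G1 * (Gy - 1) ≤ 4 * ((k : ℝ) + 1) ^ 2 * G1 * (Gy - 1) := by
        refine mul_le_mul_of_nonneg_right ?_ (by linarith)
        exact le_mul_of_one_le_left hG10 hK1
      nlinarith
    · have h7 : (s.card : ℝ) ^ 2 / (y' : ℝ) ≤ 4 * ((k : ℝ) + 1) ^ 2 * (1 / (y : ℝ)) := by
        rw [mul_one_div]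
        have h8 : (s.card : ℝ) ^ 2 ≤ (k : ℝ) ^ 2 := pow_le_pow_left₀ hc0 hkR 2
        calc (s.card : ℝ) ^ 2 / (y' : ℝ) ≤ (4 * ((k : ℝ) + 1) ^ 2) / (y' : ℝ) :=
              div_le_div_of_nonneg_right (h8.trans hKk) hy'0.le
          _ ≤ _ := div_le_div_of_nonneg_left hK0 hy0 hyyR
      have h9 : Sy y' s * ((s.card : ℝ) ^ 2 / (y' : ℝ)) ≤ G1 * (4 * ((k : ℝ) + 1) ^ 2 * (1 / (y : ℝ))) :=
        mul_le_mul hS1 h7 (by positivity) hG10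
      have h10 : G1 * (4 * ((k : ℝ) + 1) ^ 2 * (1 / (y : ℝ))) = 4 * ((k : ℝ) + 1) ^ 2 * G1 * (1 / (y : ℝ)) := by
        ring
      nlinarith

/-- arithmetic of one term -/
theorem Sgm_arith {y : ℝ} (hy : 1 ≤ y) {G1 Gy : ℝ} (h1 : 1 ≤ G1) (h2 : 1 ≤ Gy) :
    G1 * (1 / y + (Gy - 1)) ≤ 2 / Real.sqrt y * G1 ^ 2 + Real.sqrt y * (Gy ^ 2 - 1) := by
  obtain ⟨r, hr⟩ : ∃ r : ℝ, r = Real.sqrt y := ⟨_, rfl⟩
  have hr1 : 1 ≤ r := by
    rw [hr]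
    exact Real.one_le_sqrt.2 hy
  have hrr : r * r = y := by
    rw [hr]
    exact Real.mul_self_sqrt (by linarith)
  rw [← hr]
  have hr0 : 0 < r := by linarith
  obtain ⟨t, ht⟩ : ∃ t : ℝ, t = 1 / r := ⟨_, rfl⟩
  have ht0 : 0 < t := by rw [ht]; positivity
  have htr : t * r = 1 := by rw [ht]; field_simp
  have ht1 : t ≤ 1 := by
    rw [ht, div_le_one hr0]
    exact hr1
  have hy1 : 1 / y = t * t := by
    rw [ht, ← hrr]
    field_simp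
  have h2t : 2 / r = 2 * t := by rw [ht]; ring
  rw [hy1, h2t]
  have hG : G1 ≤ G1 ^ 2 := by nlinarith
  have h3 : G1 * (t * t) ≤ t * G1 ^ 2 := by
    have h4 : G1 * (t * t) ≤ G1 ^ 2 * t := mul_le_mul hG (by nlinarith) (by positivity) (by positivity)
    linarith
  have h5 : G1 * (Gy - 1) ≤ t * G1 ^ 2 + r * (Gy ^ 2 - 1) := by
    have h6 : 0 ≤ t * (G1 - r * (Gy - 1)) ^ 2 := by positivity
    have h7 : t * (G1 - r * (Gy - 1)) ^ 2 = t * G1 ^ 2 - 2 * ((t * r) * (G1 * (Gy - 1))) +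
        (t * r) * (r * (Gy - 1) ^ 2) := by ring
    rw [h7, htr, one_mul, one_mul] at h6
    have h8 : r * (Gy - 1) ^ 2 ≤ r * (Gy ^ 2 - 1) := by
      refine mul_le_mul_of_nonneg_left ?_ hr0.le
      nlinarith
    have h9 : 0 ≤ G1 * (Gy - 1) := mul_nonneg (by linarith) (by linarith)
    linarith
  calc G1 * (t * t + (Gy - 1)) = G1 * (t * t) + G1 * (Gy - 1) := by ring
    _ ≤ t * G1 ^ 2 + (t * G1 ^ 2 + r * (Gy ^ 2 - 1)) := add_le_add h3 h5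
    _ = _ := by ring

theorem Sgm_card {k : ℕ} {H : ℕ} {D : Finset ℤ} (hD : D ∈ Finset.powersetCard k (Finset.Icc 1 (H : ℤ))) :
    (insert 0 D).card = k + 1 := by
  rw [Finset.mem_powersetCard] at hD
  have h0 : (0 : ℤ) ∉ D := by
    intro h
    have := hD.1 h
    rw [Finset.mem_Icc] at this
    omega
  rw [Finset.card_insert_of_notMem h0, hD.2]

theorem Sgm (k : ℕ) : ∃ C : ℝ, 0 < C ∧ ∀ y : ℕ, 1 ≤ y → ∃ X : ℝ, ∀ x : ℝ, X ≤ x → ∀ H : ℕ,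
    Real.log x ≤ (H : ℝ) → (H : ℝ) ≤ 4 * (Real.log x) ^ 2 → ∀ y' : ℕ, y ≤ y' →
    ∑ D ∈ Finset.powersetCard k (Finset.Icc 1 (H : ℤ)), |Sy y' (insert 0 D) - sing (insert 0 D)|
      ≤ C / Real.sqrt (y : ℝ) * (H : ℝ) ^ k := by
  obtain ⟨C1, hC1, hmain1⟩ := Gam0_sum (k + 1) k 2
  obtain ⟨C2, hC2, hmain2⟩ := Gam0 (k + 1) k 2
  obtain ⟨X1, hX1⟩ := hmain1 1 le_rfl
  refine ⟨4 * (((k + 1 : ℕ) : ℝ) + 1) ^ 2 * (2 * C1 + C2), by positivity, fun y hy => ?_⟩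
  obtain ⟨X2, hX2⟩ := hmain2 y hy
  refine ⟨max X1 X2, fun x hx H hH1 hH2 y' hyy => ?_⟩
  have s1 := hX1 x ((le_max_left _ _).trans hx) H hH1 hH2
  have s2 := hX2 x ((le_max_right _ _).trans hx) H hH1 hH2
  have hyR : (1 : ℝ) ≤ y := by exact_mod_cast hy
  have hy0 : (0 : ℝ) < y := by linarith
  have hr0 : 0 < Real.sqrt (y : ℝ) := Real.sqrt_pos.2 hy0
  have hrr : Real.sqrt (y : ℝ) * Real.sqrt (y : ℝ) = y := Real.mul_self_sqrt hy0.le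
  have hterm : ∀ D ∈ Finset.powersetCard k (Finset.Icc 1 (H : ℤ)),
      |Sy y' (insert 0 D) - sing (insert 0 D)| ≤ 4 * (((k + 1 : ℕ) : ℝ) + 1) ^ 2 *
        (2 / Real.sqrt (y : ℝ) * (∏ q ∈ (insert 0 D).offDiag, gfm (k + 1) 1 (q.1 - q.2)) ^ 2 +
          Real.sqrt (y : ℝ) * ((∏ q ∈ (insert 0 D).offDiag, gfm (k + 1) y (q.1 - q.2)) ^ 2 - 1)) := by
    intro D hD
    have hc := Sgm_card hD
    refine (Sgm_point (k := k + 1) hy hyy (by omega) (by omega)).trans ?_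
    rw [mul_assoc]
    refine mul_le_mul_of_nonneg_left ?_ (by positivity)
    exact Sgm_arith hyR (one_le_Gprod _ _ _) (one_le_Gprod _ _ _)
  refine (Finset.sum_le_sum hterm).trans ?_
  rw [← Finset.mul_sum, Finset.sum_add_distrib, ← Finset.mul_sum, ← Finset.mul_sum]
  have e1 := mul_le_mul_of_nonneg_left s1 (by positivity : (0 : ℝ) ≤ 2 / Real.sqrt (y : ℝ))
  have e2 := mul_le_mul_of_nonneg_left s2 hr0.le
  refine (mul_le_mul_of_nonneg_left (add_le_add e1 e2) (by positivity)).trans (le_of_eq ?_)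
  have h3 : Real.sqrt (y : ℝ) * (C2 / (y : ℝ) * (H : ℝ) ^ k) = C2 / Real.sqrt (y : ℝ) * (H : ℝ) ^ k := by
    have h4 : C2 / (y : ℝ) = C2 / (Real.sqrt (y : ℝ) * Real.sqrt (y : ℝ)) := by rw [hrr]
    rw [h4]
    field_simp
  rw [h3]
  field_simp

/-- the mean of the singular series -/
theorem Sgm_sum (k : ℕ) : ∃ C : ℝ, 0 < C ∧ ∃ X : ℝ, ∀ x : ℝ, X ≤ x → ∀ H : ℕ,
    Real.log x ≤ (H : ℝ) → (H : ℝ) ≤ 4 * (Real.log x) ^ 2 →
    ∑ D ∈ Finset.powersetCard k (Finset.Icc 1 (H : ℤ)), sing (insert 0 D) ≤ C * (H : ℝ) ^ k := by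
  obtain ⟨C, hC, hmain⟩ := Gam0_sum (k + 1) k 1
  obtain ⟨X, hX⟩ := hmain 1 le_rfl
  refine ⟨C, hC, X, fun x hx H hH1 hH2 => le_trans (Finset.sum_le_sum fun D hD => ?_) (hX x hx H hH1 hH2)⟩
  have hc := Sgm_card hD
  rw [pow_one]
  exact sing_le_G (by omega) (by omega)

end Pool.Agent.H6.AE
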