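import Pool.Agent.H6.AE.Df
import Pool.Agent.H12.DM.Ga

/-!
# Gam: averages of products of `gfm` over sets of shifts

Let `f ≥ 1` on a finite set `T` with at most `N` elements. Then `∏_T f - 1 ≤ ∑_T (f^N - 1)` (`Gam_max`: the left side is
at most `M^N - 1`, `M` the maximum). So `(∏_{q ∈ T} gfm m y (q.1 - q.2))^r - 1 ≤ ∑_{q ∈ T} (gfm (q.1 - q.2)^(rN) - 1)` for
`T = (insert 0 D).offDiag`, `N = (j+1)^2`. By `SMB_pow`: `gfm^K ≤ gfB ((1+2^m)^K - 1)` and `Ga0` bounds the sum of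
`gfB B y n - 1` over an interval. Finally sum over `D ∈ powersetCard j I` (`Gam_one`, `Gam_two`): the number of `D` which contain
one resp. two given elements is at most `|I|^(j-1)` resp. `|I|^(j-2)`.
-/

set_option autoImplicit false

namespace Pool.Agent.H6.AE

open Finset Pool.Agent.H17 Pool.Agent.H6.MF Pool.Agent.H6.MB Pool.Agent.H12.DM

lemma Gam_max {ι : Type*} (T : Finset ι) (f : ι → ℝ) (hf : ∀ i ∈ T, 1 ≤ f i) {N : ℕ} (hN : T.card ≤ N) :
    ∏ i ∈ T, f i - 1 ≤ ∑ i ∈ T, (f i ^ N - 1) := by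
  classical
  rcases T.eq_empty_or_nonempty with h | h
  · subst h
    simp
  obtain ⟨a, ha, hmax⟩ := Finset.exists_max_image T f h
  have h1 : ∏ i ∈ T, f i ≤ f a ^ N := by
    calc ∏ i ∈ T, f i ≤ ∏ _i ∈ T, f a := Finset.prod_le_prod (fun i hi => by linarith [hf i hi]) hmax
      _ = f a ^ T.card := by rw [Finset.prod_const]
      _ ≤ f a ^ N := pow_le_pow_right₀ (hf a ha) hN
  have h2 : f a ^ N - 1 ≤ ∑ i ∈ T, (f i ^ N - 1) :=
    Finset.single_le_sum (f := fun i => f i ^ N - 1)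
      (fun i hi => by have := one_le_pow₀ (hf i hi) (n := N); linarith) ha
  linarith

lemma Gam_cardp {I : Finset ℤ} {j : ℕ} : ((Finset.powersetCard j I).card : ℝ) ≤ (I.card : ℝ) ^ j := by
  rw [Finset.card_powersetCard]
  exact_mod_cast Nat.choose_le_pow I.card j

lemma Gam_c1 (I : Finset ℤ) (j : ℕ) (a : ℤ) :
    (((Finset.powersetCard (j + 1) I).filter (fun D => a ∈ D)).card : ℝ) ≤ (I.card : ℝ) ^ j := by
  classical
  refine le_trans ?_ (Gam_cardp (I := I) (j := j))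
  have h : ((Finset.powersetCard (j + 1) I).filter (fun D => a ∈ D)).card ≤ (Finset.powersetCard j I).card := by
    refine Finset.card_le_card_of_injOn (fun D => D.erase a) ?_ ?_
    · intro D hD
      rw [Finset.mem_coe, Finset.mem_filter, Finset.mem_powersetCard] at hD
      rw [Finset.mem_coe, Finset.mem_powersetCard]
      refine ⟨(Finset.erase_subset _ _).trans hD.1.1, ?_⟩
      show (D.erase a).card = j
      rw [Finset.card_erase_of_mem hD.2, hD.1.2]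
      rfl
    · intro D hD D' hD' h
      rw [Finset.mem_coe, Finset.mem_filter] at hD hD'
      have h' : D.erase a = D'.erase a := h
      rw [← Finset.insert_erase hD.2, h', Finset.insert_erase hD'.2]
  exact_mod_cast h

lemma Gam_c2 (I : Finset ℤ) (j : ℕ) {a a' : ℤ} (hne : a ≠ a') :
    (((Finset.powersetCard (j + 2) I).filter (fun D => a ∈ D ∧ a' ∈ D)).card : ℝ) ≤ (I.card : ℝ) ^ j := by
  classical
  refine le_trans ?_ (Gam_c1 I j a')
  have h : ((Finset.powersetCard (j + 2) I).filter (fun D => a ∈ D ∧ a' ∈ D)).card ≤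
      ((Finset.powersetCard (j + 1) I).filter (fun D => a' ∈ D)).card := by
    refine Finset.card_le_card_of_injOn (fun D => D.erase a) ?_ ?_
    · intro D hD
      rw [Finset.mem_coe, Finset.mem_filter, Finset.mem_powersetCard] at hD
      rw [Finset.mem_coe, Finset.mem_filter, Finset.mem_powersetCard]
      refine ⟨⟨(Finset.erase_subset _ _).trans hD.1.1, ?_⟩, ?_⟩
      · show (D.erase a).card = j + 1
        rw [Finset.card_erase_of_mem hD.2.1, hD.1.2]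
        rfl
      · show a' ∈ D.erase a
        exact Finset.mem_erase.2 ⟨hne.symm, hD.2.2⟩
    · intro D hD D' hD' h
      rw [Finset.mem_coe, Finset.mem_filter] at hD hD'
      have h' : D.erase a = D'.erase a := h
      rw [← Finset.insert_erase hD.2.1, h', Finset.insert_erase hD'.2.1]
  exact_mod_cast h

lemma Gam_one (I : Finset ℤ) (j : ℕ) (ψ : ℤ → ℝ) (hψ : ∀ a ∈ I, 0 ≤ ψ a) :
    ∑ D ∈ Finset.powersetCard (j + 1) I, ∑ a ∈ D, ψ a ≤ (I.card : ℝ) ^ j * ∑ a ∈ I, ψ a := by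
  classical
  have h1 : ∀ D ∈ Finset.powersetCard (j + 1) I, ∑ a ∈ D, ψ a = ∑ a ∈ I, if a ∈ D then ψ a else 0 := by
    intro D hD
    rw [Finset.mem_powersetCard] at hD
    rw [← Finset.sum_filter]
    refine Finset.sum_congr ?_ fun _ _ => rfl
    ext a
    rw [Finset.mem_filter]
    exact ⟨fun h => ⟨hD.1 h, h⟩, fun h => h.2⟩
  rw [Finset.sum_congr rfl h1, Finset.sum_comm, Finset.mul_sum]
  refine Finset.sum_le_sum fun a ha => ?_
  rw [← Finset.sum_filter, Finset.sum_const, nsmul_eq_mul]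
  exact mul_le_mul_of_nonneg_right (Gam_c1 I j a) (hψ a ha)

lemma Gam_two (I : Finset ℤ) (j : ℕ) (φ : ℤ × ℤ → ℝ) (hφ : ∀ q ∈ I.offDiag, 0 ≤ φ q) :
    ∑ D ∈ Finset.powersetCard (j + 2) I, ∑ q ∈ D.offDiag, φ q ≤ (I.card : ℝ) ^ j * ∑ q ∈ I.offDiag, φ q := by
  classical
  have h1 : ∀ D ∈ Finset.powersetCard (j + 2) I, ∑ q ∈ D.offDiag, φ q =
      ∑ q ∈ I.offDiag, if q.1 ∈ D ∧ q.2 ∈ D then φ q else 0 := by
    intro D hD
    rw [Finset.mem_powersetCard] at hD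
    rw [← Finset.sum_filter]
    refine Finset.sum_congr ?_ fun _ _ => rfl
    ext q
    rw [Finset.mem_filter, Finset.mem_offDiag, Finset.mem_offDiag]
    exact ⟨fun h => ⟨⟨hD.1 h.1, hD.1 h.2.1, h.2.2⟩, h.1, h.2.1⟩, fun h => ⟨h.2.1, h.2.2, h.1.2.2⟩⟩
  rw [Finset.sum_congr rfl h1, Finset.sum_comm, Finset.mul_sum]
  refine Finset.sum_le_sum fun q hq => ?_
  rw [← Finset.sum_filter, Finset.sum_const, nsmul_eq_mul]
  exact mul_le_mul_of_nonneg_right (Gam_c2 I j (Finset.mem_offDiag.1 hq).2.2) (hφ q hq)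

lemma Gam_pow (m y : ℕ) (n : ℤ) (K : ℕ) : gfm m y n ^ K ≤ gfB ((1 + 2 ^ m) ^ K - 1) y n := by
  unfold gfm gfB
  rw [← Finset.prod_pow]
  refine Finset.prod_le_prod (fun p _ => by positivity) (fun p hp => ?_)
  have hp1 : (1 : ℝ) ≤ (p : ℝ) := by
    exact_mod_cast (Nat.prime_of_mem_primeFactors (Finset.mem_filter.1 hp).1).one_le
  have := SMB_pow (2 ^ m) (by positivity) K (t := 1 / (p : ℝ)) (by positivity)
    (by rw [div_le_one (by linarith)]; exact hp1)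
  rw [mul_one_div, mul_one_div] at this
  exact this

/-- the one-dimensional sum -/
lemma Gam_key (m K : ℕ) : ∃ C : ℝ, 0 < C ∧ ∀ y : ℕ, 1 ≤ y → ∃ X : ℝ, ∀ x : ℝ, X ≤ x → ∀ H : ℕ,
    Real.log x ≤ (H : ℝ) → (H : ℝ) ≤ 4 * (Real.log x) ^ 2 → 1 ≤ H ∧
    ∀ a ∈ Finset.Icc (-(H : ℤ)) (H : ℤ),
      ∑ k ∈ (Finset.Icc (-(H : ℤ)) (H : ℤ)).erase a, (gfm m y (k - a) ^ K - 1) ≤
        C / (y : ℝ) * (H : ℝ) := by
  have hB : (0 : ℝ) ≤ (1 + 2 ^ m) ^ K - 1 := by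
    have h1 : (1 : ℝ) ≤ 1 + 2 ^ m := by
      have : (0 : ℝ) < 2 ^ m := by positivity
      linarith
    have := one_le_pow₀ h1 (n := K)
    linarith
  obtain ⟨C, hC, hmain⟩ := Ga0 ((1 + 2 ^ m) ^ K - 1) hB
  refine ⟨3 * C, by positivity, ?_⟩
  intro y hy
  obtain ⟨X, hX⟩ := hmain y hy
  refine ⟨max X (Real.exp 12), ?_⟩
  intro x hx H hH1 hH2
  have hx0 : 0 < x := (Real.exp_pos _).trans_le ((le_max_right _ _).trans hx)
  have hL : 12 ≤ Real.log x := (Real.le_log_iff_exp_le hx0).2 ((le_max_right _ _).trans hx)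
  have hHR : (12 : ℝ) ≤ H := hL.trans hH1
  refine ⟨by exact_mod_cast (by linarith : (1 : ℝ) ≤ H), ?_⟩
  intro a ha
  have ha' := Finset.mem_Icc.1 ha
  have ha1 : -(H : ℝ) ≤ a := by exact_mod_cast ha'.1
  have ha2 : (a : ℝ) ≤ H := by exact_mod_cast ha'.2
  have hH3 : 3 * (H : ℝ) ≤ Real.log x ^ 3 := by
    have h0 : 0 ≤ Real.log x ^ 2 := by positivity
    nlinarith
  have h1 := hX x ((le_max_left _ _).trans hx) (-(H : ℤ) - a - 1) (H - a) (by
      push_cast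
      rw [abs_le]
      constructor <;> linarith) (by
      push_cast
      rw [abs_le]
      constructor <;> linarith) (by
      push_cast
      linarith)
  have hF0 : ∀ n : ℤ, 0 ≤ gfB ((1 + 2 ^ m) ^ K - 1) y n - 1 := by
    intro n
    have := one_le_gfB hB y n
    linarith
  have h2 : ∑ k ∈ (Finset.Icc (-(H : ℤ)) (H : ℤ)).erase a, (gfm m y (k - a) ^ K - 1) ≤
      ∑ n ∈ (Finset.Ioc (-(H : ℤ) - a - 1) (H - a)).erase 0, (gfB ((1 + 2 ^ m) ^ K - 1) y n - 1) := by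
    calc ∑ k ∈ (Finset.Icc (-(H : ℤ)) (H : ℤ)).erase a, (gfm m y (k - a) ^ K - 1)
        ≤ ∑ k ∈ (Finset.Icc (-(H : ℤ)) (H : ℤ)).erase a, (gfB ((1 + 2 ^ m) ^ K - 1) y (k - a) - 1) := by
          refine Finset.sum_le_sum fun k _ => ?_
          have := Gam_pow m y (k - a) K
          linarith
      _ = ∑ n ∈ ((Finset.Icc (-(H : ℤ)) (H : ℤ)).erase a).image (fun k => k - a),
            (gfB ((1 + 2 ^ m) ^ K - 1) y n - 1) := by
          rw [Finset.sum_image]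
          intro i _ j _ hij
          simpa using hij
      _ ≤ _ := by
          refine Finset.sum_le_sum_of_subset_of_nonneg ?_ (fun i _ _ => hF0 i)
          intro n hn
          obtain ⟨k, hk, rfl⟩ := Finset.mem_image.1 hn
          rw [Finset.mem_erase, Finset.mem_Icc] at hk
          rw [Finset.mem_erase, Finset.mem_Ioc]
          refine ⟨sub_ne_zero.2 hk.1, ?_, ?_⟩ <;> omega
  refine h2.trans (h1.trans ?_)
  push_cast
  have h3 : ((H : ℝ) - a - (-(H : ℝ) - a - 1)) ≤ 3 * H := by linarith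
  have h4 : 0 ≤ C / (y : ℝ) := by positivity
  calc C / (y : ℝ) * ((H : ℝ) - a - (-(H : ℝ) - a - 1)) ≤ C / (y : ℝ) * (3 * H) :=
        mul_le_mul_of_nonneg_left h3 h4
    _ = _ := by ring

/-- the sums over one and two variables -/
lemma Gam_key2 (m K : ℕ) : ∃ C : ℝ, 0 < C ∧ ∀ y : ℕ, 1 ≤ y → ∃ X : ℝ, ∀ x : ℝ, X ≤ x → ∀ H : ℕ,
    Real.log x ≤ (H : ℝ) → (H : ℝ) ≤ 4 * (Real.log x) ^ 2 →
    ∑ a ∈ Finset.Icc 1 (H : ℤ), (gfm m y a ^ K - 1) ≤ C / (y : ℝ) * (H : ℝ) ∧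
    ∑ q ∈ (Finset.Icc 1 (H : ℤ)).offDiag, (gfm m y (q.1 - q.2) ^ K - 1) ≤ C / (y : ℝ) * (H : ℝ) ^ 2 := by
  obtain ⟨C, hC, hmain⟩ := Gam_key m K
  refine ⟨C, hC, fun y hy => ?_⟩
  obtain ⟨X, hX⟩ := hmain y hy
  refine ⟨X, fun x hx H hH1 hH2 => ?_⟩
  obtain ⟨hH, h⟩ := hX x hx H hH1 hH2
  have hnn : ∀ n : ℤ, 0 ≤ gfm m y n ^ K - 1 := by
    intro n
    have := one_le_pow₀ (one_le_gfm m y n) (n := K)
    linarith
  constructor
  · refine le_trans ?_ (h 0 (by rw [Finset.mem_Icc]; omega))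
    simp only [sub_zero]
    refine Finset.sum_le_sum_of_subset_of_nonneg ?_ (fun i _ _ => hnn i)
    intro n hn
    rw [Finset.mem_Icc] at hn
    rw [Finset.mem_erase, Finset.mem_Icc]
    omega
  · have h1 : ∑ q ∈ (Finset.Icc 1 (H : ℤ)).offDiag, (gfm m y (q.1 - q.2) ^ K - 1) ≤
        ∑ b ∈ Finset.Icc 1 (H : ℤ), ∑ a ∈ (Finset.Icc (-(H : ℤ)) (H : ℤ)).erase b, (gfm m y (a - b) ^ K - 1) := by
      rw [Finset.sum_sigma']
      calc ∑ q ∈ (Finset.Icc 1 (H : ℤ)).offDiag, (gfm m y (q.1 - q.2) ^ K - 1)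
          = ∑ t ∈ ((Finset.Icc 1 (H : ℤ)).offDiag.image (fun q : ℤ × ℤ => (⟨q.2, q.1⟩ : (_ : ℤ) × ℤ))),
              (gfm m y (t.2 - t.1) ^ K - 1) := by
            rw [Finset.sum_image]
            rintro ⟨a, b⟩ _ ⟨c, d⟩ _ h
            simp only [Sigma.mk.injEq, heq_eq_eq] at h
            rw [Prod.mk.injEq]
            exact ⟨h.2, h.1⟩
        _ ≤ _ := by
            refine Finset.sum_le_sum_of_subset_of_nonneg ?_ (fun i _ _ => hnn _)
            intro t ht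
            obtain ⟨q, hq, rfl⟩ := Finset.mem_image.1 ht
            rw [Finset.mem_offDiag, Finset.mem_Icc, Finset.mem_Icc] at hq
            rw [Finset.mem_sigma]
            show q.2 ∈ Finset.Icc 1 (H : ℤ) ∧ q.1 ∈ (Finset.Icc (-(H : ℤ)) (H : ℤ)).erase q.2
            rw [Finset.mem_erase, Finset.mem_Icc, Finset.mem_Icc]
            refine ⟨hq.2.1, hq.2.2, ?_, ?_⟩ <;> omega
    refine h1.trans ?_
    have h2 : ∀ b ∈ Finset.Icc 1 (H : ℤ), ∑ a ∈ (Finset.Icc (-(H : ℤ)) (H : ℤ)).erase b,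
        (gfm m y (a - b) ^ K - 1) ≤ C / (y : ℝ) * (H : ℝ) := by
      intro b hb
      refine h b ?_
      rw [Finset.mem_Icc] at hb ⊢
      omega
    refine (Finset.sum_le_card_nsmul _ _ _ h2).trans ?_
    rw [Int.card_Icc, nsmul_eq_mul]
    have h3 : ((((H : ℤ) + 1 - 1).toNat : ℕ) : ℝ) = (H : ℝ) := by
      congr 1
      omega
    rw [h3]
    apply le_of_eq
    ring

/-- the sum over all sets of `j` shifts, together with `0` -/
theorem Gam0 (m j r : ℕ) : ∃ C : ℝ, 0 < C ∧ ∀ y : ℕ, 1 ≤ y → ∃ X : ℝ, ∀ x : ℝ, X ≤ x → ∀ H : ℕ,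
    Real.log x ≤ (H : ℝ) → (H : ℝ) ≤ 4 * (Real.log x) ^ 2 →
    ∑ D ∈ Finset.powersetCard j (Finset.Icc 1 (H : ℤ)),
      ((∏ q ∈ (insert 0 D).offDiag, gfm m y (q.1 - q.2)) ^ r - 1) ≤ C / (y : ℝ) * (H : ℝ) ^ j := by
  classical
  obtain ⟨N, hN⟩ : ∃ N : ℕ, N = (j + 1) * (j + 1) := ⟨_, rfl⟩
  obtain ⟨C, hC, hmain⟩ := Gam_key2 m (r * N)
  refine ⟨3 * C, by positivity, fun y hy => ?_⟩
  obtain ⟨X, hX⟩ := hmain y hy
  refine ⟨X, fun x hx H hH1 hH2 => ?_⟩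
  obtain ⟨hs1, hs2⟩ := hX x hx H hH1 hH2
  have hy0 : (0 : ℝ) ≤ C / y := by positivity
  obtain ⟨I, hI⟩ : ∃ I : Finset ℤ, I = Finset.Icc 1 (H : ℤ) := ⟨_, rfl⟩
  have hIc : (I.card : ℝ) = (H : ℝ) := by
    rw [hI, Int.card_Icc]
    congr 1
    omega
  rw [← hI] at hs1 hs2 ⊢
  have hnn : ∀ n : ℤ, 0 ≤ gfm m y n ^ (r * N) - 1 := by
    intro n
    have := one_le_pow₀ (one_le_gfm m y n) (n := r * N)
    linarith
  have hpt : ∀ D ∈ Finset.powersetCard j I,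
      (∏ q ∈ (insert 0 D).offDiag, gfm m y (q.1 - q.2)) ^ r - 1 ≤
        ∑ q ∈ D.offDiag, (gfm m y (q.1 - q.2) ^ (r * N) - 1) + 2 * ∑ a ∈ D, (gfm m y a ^ (r * N) - 1) := by
    intro D hD
    rw [Finset.mem_powersetCard] at hD
    have h0 : (0 : ℤ) ∉ D := by
      intro h
      have := hD.1 h
      rw [hI, Finset.mem_Icc] at this
      omega
    have hc : (insert 0 D).offDiag.card ≤ N := by
      rw [Finset.offDiag_card, Finset.card_insert_of_notMem h0, hD.2, hN]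
      exact Nat.sub_le _ _
    rw [← Finset.prod_pow]
    refine (Gam_max _ (fun q : ℤ × ℤ => gfm m y (q.1 - q.2) ^ r)
      (fun q _ => one_le_pow₀ (one_le_gfm m y _)) hc).trans ?_
    simp only [← pow_mul]
    have hu : (insert 0 D).offDiag ⊆ D.offDiag ∪ ({0} ×ˢ D ∪ D ×ˢ {0}) := by
      rw [Finset.offDiag_insert h0, Finset.union_assoc]
    refine (Finset.sum_le_sum_of_subset_of_nonneg hu (fun q _ _ => hnn _)).trans ?_
    have hle : ∀ (A B : Finset (ℤ × ℤ)) (g : ℤ × ℤ → ℝ), (∀ q, 0 ≤ g q) →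
        ∑ q ∈ A ∪ B, g q ≤ ∑ q ∈ A, g q + ∑ q ∈ B, g q := by
      intro A B g hg
      rw [← Finset.sum_union_inter]
      have := Finset.sum_nonneg (s := A ∩ B) (fun q _ => hg q)
      linarith
    refine (hle _ _ _ (fun q => hnn _)).trans ?_
    refine add_le_add le_rfl ?_
    refine (hle _ _ _ (fun q => hnn _)).trans ?_
    rw [Finset.sum_product, Finset.sum_product]
    simp only [Finset.sum_singleton, zero_sub, sub_zero, gfm_neg]
    apply le_of_eq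
    ring
  refine (Finset.sum_le_sum hpt).trans ?_
  rw [Finset.sum_add_distrib, ← Finset.mul_sum]
  have hH0 : (0 : ℝ) ≤ H := Nat.cast_nonneg H
  have hA : ∑ D ∈ Finset.powersetCard j I, ∑ q ∈ D.offDiag, (gfm m y (q.1 - q.2) ^ (r * N) - 1) ≤
      C / (y : ℝ) * (H : ℝ) ^ j := by
    rcases j with _ | _ | j
    · simp only [Finset.powersetCard_zero, Finset.sum_singleton, Finset.offDiag_empty, Finset.sum_empty]
      positivity
    · refine le_trans (le_of_eq ?_) (by positivity : (0 : ℝ) ≤ C / (y : ℝ) * (H : ℝ) ^ (0 + 1))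
      refine Finset.sum_eq_zero fun D hD => ?_
      rw [Finset.mem_powersetCard, zero_add] at hD
      obtain ⟨a, rfl⟩ := Finset.card_eq_one.1 hD.2
      rw [Finset.offDiag_singleton, Finset.sum_empty]
    · refine (Gam_two I j _ (fun q _ => hnn _)).trans ?_
      rw [hIc]
      refine (mul_le_mul_of_nonneg_left hs2 (by positivity)).trans (le_of_eq ?_)
      rw [pow_add (H : ℝ) j 2]
      ring
  have hBB : ∑ D ∈ Finset.powersetCard j I, ∑ a ∈ D, (gfm m y a ^ (r * N) - 1) ≤ C / (y : ℝ) * (H : ℝ) ^ j := by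
    rcases j with _ | j
    · simp only [Finset.powersetCard_zero, Finset.sum_singleton, Finset.sum_empty]
      positivity
    · refine (Gam_one I j _ (fun q _ => hnn _)).trans ?_
      rw [hIc]
      refine (mul_le_mul_of_nonneg_left hs1 (by positivity)).trans (le_of_eq ?_)
      rw [pow_succ (H : ℝ) j]
      ring
  have h3 : 3 * C / (y : ℝ) * (H : ℝ) ^ j = C / (y : ℝ) * (H : ℝ) ^ j + 2 * (C / (y : ℝ) * (H : ℝ) ^ j) := by ring
  rw [h3]
  linarith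

/-- the same without `0` -/
theorem Gam (m j r : ℕ) : ∃ C : ℝ, 0 < C ∧ ∀ y : ℕ, 1 ≤ y → ∃ X : ℝ, ∀ x : ℝ, X ≤ x → ∀ H : ℕ,
    Real.log x ≤ (H : ℝ) → (H : ℝ) ≤ 4 * (Real.log x) ^ 2 →
    ∑ D ∈ Finset.powersetCard j (Finset.Icc 1 (H : ℤ)),
      ((∏ q ∈ D.offDiag, gfm m y (q.1 - q.2)) ^ r - 1) ≤ C / (y : ℝ) * (H : ℝ) ^ j := by
  classical
  obtain ⟨C, hC, hmain⟩ := Gam0 m j r
  refine ⟨C, hC, fun y hy => ?_⟩
  obtain ⟨X, hX⟩ := hmain y hy
  refine ⟨X, fun x hx H hH1 hH2 => le_trans (Finset.sum_le_sum fun D _ => ?_) (hX x hx H hH1 hH2)⟩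
  have h2 : (0 : ℝ) ≤ ∏ q ∈ D.offDiag, gfm m y (q.1 - q.2) :=
    Finset.prod_nonneg fun q _ => by linarith [one_le_gfm m y (q.1 - q.2)]
  have h1 : ∏ q ∈ D.offDiag, gfm m y (q.1 - q.2) ≤ ∏ q ∈ (insert 0 D).offDiag, gfm m y (q.1 - q.2) := by
    rw [← Finset.prod_sdiff (Finset.offDiag_mono (Finset.subset_insert (0 : ℤ) D))]
    refine le_mul_of_one_le_left h2 ?_
    exact Finset.one_le_prod fun q _ => one_le_gfm m y _
  have := pow_le_pow_left₀ h2 h1 r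
  linarith

/-- the sum of the powers -/
theorem Gam0_sum (m j r : ℕ) : ∃ C : ℝ, 0 < C ∧ ∀ y : ℕ, 1 ≤ y → ∃ X : ℝ, ∀ x : ℝ, X ≤ x → ∀ H : ℕ,
    Real.log x ≤ (H : ℝ) → (H : ℝ) ≤ 4 * (Real.log x) ^ 2 →
    ∑ D ∈ Finset.powersetCard j (Finset.Icc 1 (H : ℤ)),
      (∏ q ∈ (insert 0 D).offDiag, gfm m y (q.1 - q.2)) ^ r ≤ C * (H : ℝ) ^ j := by
  classical
  obtain ⟨C, hC, hmain⟩ := Gam0 m j r
  refine ⟨C + 1, by positivity, fun y hy => ?_⟩
  obtain ⟨X, hX⟩ := hmain y hy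
  refine ⟨X, fun x hx H hH1 hH2 => ?_⟩
  have h1 := hX x hx H hH1 hH2
  rw [Finset.sum_sub_distrib, Finset.sum_const, nsmul_eq_mul, mul_one] at h1
  have h2 : ((Finset.powersetCard j (Finset.Icc 1 (H : ℤ))).card : ℝ) ≤ (H : ℝ) ^ j := by
    refine Gam_cardp.trans (le_of_eq ?_)
    rw [Int.card_Icc]
    congr 1
    congr 1
    omega
  have h3 : C / (y : ℝ) * (H : ℝ) ^ j ≤ C * (H : ℝ) ^ j := by
    refine mul_le_mul_of_nonneg_right ?_ (by positivity)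
    exact div_le_self hC.le (by exact_mod_cast hy)
  have h4 : (C + 1) * (H : ℝ) ^ j = C * (H : ℝ) ^ j + (H : ℝ) ^ j := by ring
  rw [h4]
  linarith

/-- the sum of the powers, without `0` -/
theorem Gam_sum (m j r : ℕ) : ∃ C : ℝ, 0 < C ∧ ∀ y : ℕ, 1 ≤ y → ∃ X : ℝ, ∀ x : ℝ, X ≤ x → ∀ H : ℕ,
    Real.log x ≤ (H : ℝ) → (H : ℝ) ≤ 4 * (Real.log x) ^ 2 →
    ∑ D ∈ Finset.powersetCard j (Finset.Icc 1 (H : ℤ)),
      (∏ q ∈ D.offDiag, gfm m y (q.1 - q.2)) ^ r ≤ C * (H : ℝ) ^ j := by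
  classical
  obtain ⟨C, hC, hmain⟩ := Gam m j r
  refine ⟨C + 1, by positivity, fun y hy => ?_⟩
  obtain ⟨X, hX⟩ := hmain y hy
  refine ⟨X, fun x hx H hH1 hH2 => ?_⟩
  have h1 := hX x hx H hH1 hH2
  rw [Finset.sum_sub_distrib, Finset.sum_const, nsmul_eq_mul, mul_one] at h1
  have h2 : ((Finset.powersetCard j (Finset.Icc 1 (H : ℤ))).card : ℝ) ≤ (H : ℝ) ^ j := by
    refine Gam_cardp.trans (le_of_eq ?_)
    rw [Int.card_Icc]
    congr 1
    congr 1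
    omega
  have h3 : C / (y : ℝ) * (H : ℝ) ^ j ≤ C * (H : ℝ) ^ j := by
    refine mul_le_mul_of_nonneg_right ?_ (by positivity)
    exact div_le_self hC.le (by exact_mod_cast hy)
  have h4 : (C + 1) * (H : ℝ) ^ j = C * (H : ℝ) ^ j + (H : ℝ) ^ j := by ring
  rw [h4]
  linarith

end Pool.Agent.H6.AE
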