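import Pool.Agent.H6.AE.Bay
import Pool.Agent.H96.AE.LL
import Pool.Agent.H96.AE.CNT
import Pool.Agent.H12.DN.T8w

/-!
# T1a: the upper bound for almost all tuples

`L = log x`, `N = ⌊x⌋₊ + 1`, `k = j + 1` shifts. `T8wf` (for `f = La`): `b = Mm y g`, `0 ≤ g ≤ 4 + e`, with windows close to those of `La` at all scales. For `D ∈ powersetCard (j+1) (Icc 1 H)`:
`L^(j+2) cnt ≤ cf La D + ε₃ x` (`CNT`), `cf La D ≤ cf b D + A_D` (`L1`: `∑ A_D` small), `cf b D ≤ (4+e)^(j+1) ∑ b(n) ∏ Mm y (n-d)`, `∑ b ∏ Mm y ≤ ∑ La ∏ Mm y + B_D` (`L1b`: `∑ B_D` small), `∑ La ∏ Mm y ≤ (1+e) N Sy y (insert 0 D)` (`Bay`).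
So `L^(j+2) cnt/x - 4^(j+1) sing ≤ ((4+e)^(j+1) (1+e)^2 - 4^(j+1)) Sy + 4^(j+1) |Sy - sing| + (A_D + 5^(j+1) B_D)/x + ε₃`; sum over `D` with `Sgm`, `Sgm_sum`.
-/

set_option autoImplicit false

namespace Pool.Agent.H6.AE

open Finset Pool.Agent.H17 Pool.Agent.H6.MF Pool.Agent.H6.MB Pool.Agent.H96.AE
open Pool.Agent.H12.DM hiding cf
open Pool.Agent.H12.DN (T8wf)

lemma T1a_e (j : ℕ) (C ε : ℝ) (hC : 0 < C) (hε : 0 < ε) : ∃ e : ℝ, 0 < e ∧ e ≤ 1 ∧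
    ((4 + e) ^ (j + 1) * (1 + e) ^ 2 - 4 ^ (j + 1)) * C ≤ ε := by
  have hcont : Filter.Tendsto (fun e : ℝ => ((4 + e) ^ (j + 1) * (1 + e) ^ 2 - 4 ^ (j + 1)) * C)
      (nhds 0) (nhds (((4 + 0) ^ (j + 1) * (1 + 0) ^ 2 - 4 ^ (j + 1)) * C)) := by
    apply Continuous.tendsto
    fun_prop
  have h0 : ((4 + 0 : ℝ) ^ (j + 1) * (1 + 0) ^ 2 - 4 ^ (j + 1)) * C = 0 := by
    norm_num
  rw [h0] at hcont
  have h1 := hcont.eventually (gt_mem_nhds hε)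
  obtain ⟨δ, hδ, h2⟩ := Metric.eventually_nhds_iff.1 h1
  refine ⟨min (δ / 2) 1, lt_min (by positivity) one_pos, min_le_right _ _, ?_⟩
  have h3 : 0 < min (δ / 2) 1 := lt_min (by positivity) one_pos
  refine (h2 ?_).le
  rw [Real.dist_eq, sub_zero, abs_of_pos h3]
  exact lt_of_le_of_lt (min_le_left _ _) (by linarith)

theorem T1a_point {j y : ℕ} {x e : ℝ} (he0 : 0 < e) (hx : 1 ≤ x) {g : ℤ → ℝ}
    (hg : ∀ n, 0 ≤ g n ∧ g n ≤ 4 + e) {D : Finset ℤ} (hD : D.card = j + 1) {A B : ℝ}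
    (hA : |cf x (La x) D - cf x (fun n => Mm y n * g n) D| ≤ A)
    (hB : |∑ n ∈ Finset.range (⌊x⌋₊ + 1), (La x (n : ℤ) - Mm y (n : ℤ) * g (n : ℤ)) * ∏ d ∈ D, Mm y ((n : ℤ) - d)| ≤ B)
    (hbay : ∑ n ∈ Finset.range (⌊x⌋₊ + 1), La x (n : ℤ) * ∏ h ∈ D, Mm y ((n : ℤ) - h)
      ≤ (1 + e) * (((⌊x⌋₊ : ℝ) + 1) * Sy y (insert 0 D))) :
    cf x (La x) D ≤ (4 + e) ^ (j + 1) * (1 + e) * (((⌊x⌋₊ : ℝ) + 1) * Sy y (insert 0 D)) + A + (4 + e) ^ (j + 1) * B := by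
  have _ := hx
  have h4 : (0 : ℝ) < 4 + e := by linarith
  have h1 : cf x (fun n => Mm y n * g n) D ≤ (4 + e) ^ (j + 1) *
      ∑ n ∈ Finset.range (⌊x⌋₊ + 1), (Mm y (n : ℤ) * g (n : ℤ)) * ∏ d ∈ D, Mm y ((n : ℤ) - d) := by
    unfold cf
    rw [Finset.mul_sum]
    refine Finset.sum_le_sum fun n _ => ?_
    have h2 : ∏ d ∈ D, (Mm y ((n : ℤ) - d) * g ((n : ℤ) - d)) ≤ (4 + e) ^ (j + 1) * ∏ d ∈ D, Mm y ((n : ℤ) - d) := by
      calc ∏ d ∈ D, (Mm y ((n : ℤ) - d) * g ((n : ℤ) - d)) ≤ ∏ d ∈ D, (Mm y ((n : ℤ) - d) * (4 + e)) := by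
            refine Finset.prod_le_prod (fun d _ => mul_nonneg (Mm_nonneg y _) (hg _).1) fun d _ => ?_
            exact mul_le_mul_of_nonneg_left (hg _).2 (Mm_nonneg y _)
        _ = (4 + e) ^ (j + 1) * ∏ d ∈ D, Mm y ((n : ℤ) - d) := by
            rw [Finset.prod_mul_distrib, Finset.prod_const, hD, mul_comm]
    have h3 : 0 ≤ Mm y (n : ℤ) * g (n : ℤ) := mul_nonneg (Mm_nonneg y _) (hg _).1
    calc Mm y (n : ℤ) * g (n : ℤ) * ∏ d ∈ D, (Mm y ((n : ℤ) - d) * g ((n : ℤ) - d))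
        ≤ Mm y (n : ℤ) * g (n : ℤ) * ((4 + e) ^ (j + 1) * ∏ d ∈ D, Mm y ((n : ℤ) - d)) :=
          mul_le_mul_of_nonneg_left h2 h3
      _ = _ := by ring
  have h5 : ∑ n ∈ Finset.range (⌊x⌋₊ + 1), (Mm y (n : ℤ) * g (n : ℤ)) * ∏ d ∈ D, Mm y ((n : ℤ) - d) ≤
      (1 + e) * (((⌊x⌋₊ : ℝ) + 1) * Sy y (insert 0 D)) + B := by
    have h6 : ∑ n ∈ Finset.range (⌊x⌋₊ + 1), (La x (n : ℤ) - Mm y (n : ℤ) * g (n : ℤ)) * ∏ d ∈ D, Mm y ((n : ℤ) - d) =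
        ∑ n ∈ Finset.range (⌊x⌋₊ + 1), La x (n : ℤ) * ∏ h ∈ D, Mm y ((n : ℤ) - h) -
        ∑ n ∈ Finset.range (⌊x⌋₊ + 1), (Mm y (n : ℤ) * g (n : ℤ)) * ∏ d ∈ D, Mm y ((n : ℤ) - d) := by
      rw [← Finset.sum_sub_distrib]
      exact Finset.sum_congr rfl fun n _ => by ring
    rw [h6] at hB
    have := (abs_le.1 hB).1
    linarith
  have h7 := (abs_le.1 hA).2
  have h8 : (4 + e) ^ (j + 1) *
      ∑ n ∈ Finset.range (⌊x⌋₊ + 1), (Mm y (n : ℤ) * g (n : ℤ)) * ∏ d ∈ D, Mm y ((n : ℤ) - d) ≤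
      (4 + e) ^ (j + 1) * ((1 + e) * (((⌊x⌋₊ : ℝ) + 1) * Sy y (insert 0 D)) + B) :=
    mul_le_mul_of_nonneg_left h5 (by positivity)
  have h9 : (4 + e) ^ (j + 1) * ((1 + e) * (((⌊x⌋₊ : ℝ) + 1) * Sy y (insert 0 D)) + B) =
      (4 + e) ^ (j + 1) * (1 + e) * (((⌊x⌋₊ : ℝ) + 1) * Sy y (insert 0 D)) + (4 + e) ^ (j + 1) * B := by ring
  linarith

theorem T1a (j : ℕ) (ε : ℝ) (hε : 0 < ε) : ∃ K X : ℝ, 1 ≤ K ∧ ∀ x : ℝ, X ≤ x → ∀ H : ℕ, K * Real.log x ≤ (H : ℝ) →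
    (H : ℝ) ≤ (Real.log x) ^ 2 →
    ∑ D ∈ Finset.powersetCard (j + 1) (Finset.Icc 1 (H : ℤ)),
      max 0 ((Real.log x) ^ (j + 2) * (cnt x (insert 0 D) : ℝ) / x - 4 ^ (j + 1) * sing (insert 0 D))
      ≤ ε * (H : ℝ) ^ (j + 1) := by
  classical
  obtain ⟨C1, hC1, X1, hS1⟩ := Sgm_sum (j + 1)
  obtain ⟨C2, hC2, hS2⟩ := Sgm (j + 1)
  obtain ⟨e, he0, he1, heC⟩ := T1a_e j (C1 + C2) (ε / 5) (by positivity) (by positivity)
  -- the level `y₀`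
  obtain ⟨y0, hy01, hy0⟩ : ∃ y0 : ℕ, 1 ≤ y0 ∧ ∀ y : ℕ, y0 ≤ y → 4 ^ (j + 1) * (C2 / Real.sqrt (y : ℝ)) ≤ ε / 5 := by
    have h1 : Filter.Tendsto (fun y : ℕ => 4 ^ (j + 1) * (C2 / Real.sqrt (y : ℝ))) Filter.atTop (nhds (4 ^ (j + 1) * 0)) := by
      refine Filter.Tendsto.const_mul _ ?_
      refine Filter.Tendsto.div_atTop tendsto_const_nhds ?_
      exact Real.tendsto_sqrt_atTop.comp tendsto_natCast_atTop_atTop
    rw [mul_zero] at h1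
    have h2 := h1.eventually (gt_mem_nhds (show (0 : ℝ) < ε / 5 by positivity))
    obtain ⟨y0, h3⟩ := Filter.eventually_atTop.1 h2
    exact ⟨max y0 1, le_max_right _ _, fun y hy => (h3 y ((le_max_left _ _).trans hy)).le⟩
  obtain ⟨y1, δ1, K1, hδ1, hK1, hL1⟩ := L1 j (ε / 10) (by positivity)
  obtain ⟨y2, δ2, K2, hδ2, hK2, hL2⟩ := L1b j (ε / (10 * 5 ^ (j + 1))) (by positivity)
  obtain ⟨y, hyy, hy3, K, X3, hK, hT⟩ := T8wf (min e (min δ1 δ2)) (lt_min he0 (lt_min hδ1 hδ2)) (max y0 (max y1 y2))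
  obtain ⟨X4, hX4⟩ := hL1 y ((le_max_left _ _).trans ((le_max_right _ _).trans hyy))
  obtain ⟨X5, hX5⟩ := hL2 y ((le_max_right _ _).trans ((le_max_right _ _).trans hyy))
  have hyy0 : y0 ≤ y := (le_max_left _ _).trans hyy
  obtain ⟨X6, hX6⟩ := hS2 y (hy01.trans hyy0)
  obtain ⟨X7, hX7⟩ := Bay y e he0
  obtain ⟨X8, hX8⟩ := CNT (j + 2) (ε / 5) (by positivity)
  refine ⟨max K (max K1 K2), max (max X1 (max X3 X4)) (max (max X5 X6) (max (max X7 X8) (max (Real.exp 1) (2 / e)))),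
    hK.trans (le_max_left _ _), fun x hx H hH1 hH2 => ?_⟩
  simp only [max_le_iff] at hx
  obtain ⟨⟨hx1, hx3, hx4⟩, ⟨hx5, hx6⟩, ⟨hx7, hx8⟩, hxe, hxe2⟩ := hx
  have hx0 : 0 < x := (Real.exp_pos 1).trans_le hxe
  have hxge1 : 1 ≤ x := (Real.one_le_exp zero_le_one).trans hxe
  have hlog : 1 ≤ Real.log x := (Real.le_log_iff_exp_le hx0).2 hxe
  have hKH : K * Real.log x ≤ H := (mul_le_mul_of_nonneg_right (le_max_left _ _) (by linarith)).trans hH1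
  have hK1H : K1 * Real.log x ≤ H :=
    (mul_le_mul_of_nonneg_right ((le_max_left _ _).trans (le_max_right _ _)) (by linarith)).trans hH1
  have hK2H : K2 * Real.log x ≤ H :=
    (mul_le_mul_of_nonneg_right ((le_max_right _ _).trans (le_max_right _ _)) (by linarith)).trans hH1
  have hLH : Real.log x ≤ H := (le_mul_of_one_le_left (by linarith) hK).trans hKH
  have hLH4 : (H : ℝ) ≤ 4 * (Real.log x) ^ 2 := by nlinarith [sq_nonneg (Real.log x)]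
  obtain ⟨g, hg, hgout, _, hwin⟩ := hT x hx3 (La x) (fun n => ⟨La_nonneg hxge1 n, le_rfl⟩)
  have hg' : ∀ n, 0 ≤ g n ∧ g n ≤ 4 + e := fun n =>
    ⟨(hg n).1, (hg n).2.trans (add_le_add le_rfl (min_le_left _ _))⟩
  obtain ⟨N, hN⟩ : ∃ N : ℝ, N = (⌊x⌋₊ : ℝ) + 1 := ⟨_, rfl⟩
  have hNx : N ≤ x + 1 := by
    have := Nat.floor_le hx0.le
    rw [hN]
    linarith
  have hxN : x ≤ N := by
    rw [hN]
    exact (Nat.lt_floor_add_one x).le
  have hNe : N ≤ (1 + e) * x := by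
    have h1 : 2 ≤ x * e := (div_le_iff₀ he0).1 hxe2
    nlinarith
  have hN2 : N ≤ 2 * x := by linarith
  have hN0 : 0 < N := by linarith
  -- the two `L¹` bounds
  have hwinH := hwin H hKH hH2
  have hmono : ∀ δ : ℝ, min e (min δ1 δ2) ≤ δ → Win x H δ (La x) (fun n => Mm y n * g n) := by
    intro δ hδ D hD
    refine (hwinH D hD).trans ?_
    refine mul_le_mul_of_nonneg_right (mul_le_mul_of_nonneg_right hδ ?_) (by positivity)
    positivity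
  have hBmL : ∀ n, |La x n| ≤ Bm y x n := by
    intro n
    rw [abs_of_nonneg (La_nonneg hxge1 n)]
    unfold Bm
    have h2 := Mm_nonneg (yy x) n
    have h3 := Mm_nonneg y n
    linarith
  have hBmb : ∀ n, |Mm y n * g n| ≤ Bm y x n := by
    intro n
    rw [abs_of_nonneg (mul_nonneg (Mm_nonneg y n) (hg' n).1)]
    unfold Bm
    have h1 := La_nonneg hxge1 n
    have h2 := Mm_nonneg (yy x) n
    have h3 := Mm_nonneg y n
    have h4 : Mm y n * g n ≤ Mm y n * 5 := mul_le_mul_of_nonneg_left ((hg' n).2.trans (by linarith)) h3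
    linarith
  have hSpL : Sp x (La x) := fun n hn => La_out hx0.le hn
  have hSpb : Sp x (fun n => Mm y n * g n) := fun n hn => by
    show Mm y n * g n = 0
    rw [hgout n hn, mul_zero]
  have hA := hX4 x hx4 H hK1H hH2 (La x) (fun n => Mm y n * g n) hBmL hBmb hSpL hSpb
    (hmono δ1 ((min_le_right _ _).trans (min_le_left _ _)))
  have hB := hX5 x hx5 H hK2H hH2 (La x) (fun n => Mm y n * g n) hBmL hBmb hSpL hSpb
    (hmono δ2 ((min_le_right _ _).trans (min_le_right _ _)))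
  have hS := hX6 x hx6 H hLH hLH4 y le_rfl
  have hSs := hS1 x hx1 H hLH hLH4
  obtain ⟨P, hP⟩ : ∃ P, P = Finset.powersetCard (j + 1) (Finset.Icc 1 (H : ℤ)) := ⟨_, rfl⟩
  rw [← hP] at hA hB hS hSs ⊢
  have hcardP : (P.card : ℝ) ≤ (H : ℝ) ^ (j + 1) := by
    rw [hP]
    refine Gam_cardp.trans (le_of_eq ?_)
    rw [Int.card_Icc]
    congr 1
    congr 1
    omega
  -- the pointwise bound
  have hpt : ∀ D ∈ P, max 0 ((Real.log x) ^ (j + 2) * (cnt x (insert 0 D) : ℝ) / x - 4 ^ (j + 1) * sing (insert 0 D)) ≤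
      ((4 + e) ^ (j + 1) * (1 + e) ^ 2 - 4 ^ (j + 1)) * (sing (insert 0 D) + |Sy y (insert 0 D) - sing (insert 0 D)|) +
        4 ^ (j + 1) * |Sy y (insert 0 D) - sing (insert 0 D)| +
        (|cf x (La x) D - cf x (fun n => Mm y n * g n) D| + 5 ^ (j + 1) *
          |∑ n ∈ Finset.range (⌊x⌋₊ + 1), (La x (n : ℤ) - Mm y (n : ℤ) * g (n : ℤ)) * ∏ d ∈ D, Mm y ((n : ℤ) - d)|) / x +
        ε / 5 := by
    intro D hD
    rw [hP, Finset.mem_powersetCard] at hD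
    have h0D : (0 : ℤ) ∉ D := by
      intro h
      have := hD.1 h
      rw [Finset.mem_Icc] at this
      omega
    have hS0 := Sy_nonneg y (insert 0 D)
    have hb := hX7 x hx7 D h0D
    rw [← hN] at hb
    have hbay : ∑ n ∈ Finset.range (⌊x⌋₊ + 1), La x (n : ℤ) * ∏ h ∈ D, Mm y ((n : ℤ) - h)
        ≤ (1 + e) * (((⌊x⌋₊ : ℝ) + 1) * Sy y (insert 0 D)) := by
      rw [← hN]
      have := (abs_le.1 hb).2
      linarith
    have hp := T1a_point he0 hxge1 hg' hD.2 le_rfl le_rfl hbay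
    rw [← hN] at hp
    have hc := hX8 x hx8 D (fun d hd => by
      have := hD.1 hd
      rw [Finset.mem_Icc] at this
      refine ⟨this.1, ?_⟩
      have h3 : (d : ℝ) ≤ (H : ℝ) := by exact_mod_cast this.2
      linarith) (by omega)
    rw [hD.2] at hc
    have hc' := (abs_le.1 hc).2
    obtain ⟨A, hAd⟩ : ∃ A, A = |cf x (La x) D - cf x (fun n => Mm y n * g n) D| := ⟨_, rfl⟩
    obtain ⟨B, hBd⟩ : ∃ B, B = |∑ n ∈ Finset.range (⌊x⌋₊ + 1), (La x (n : ℤ) - Mm y (n : ℤ) * g (n : ℤ)) *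
      ∏ d ∈ D, Mm y ((n : ℤ) - d)| := ⟨_, rfl⟩
    obtain ⟨s, hs⟩ : ∃ s, s = sing (insert 0 D) := ⟨_, rfl⟩
    obtain ⟨t, ht⟩ : ∃ t, t = Sy y (insert 0 D) := ⟨_, rfl⟩
    rw [← hAd, ← hBd] at hp ⊢
    rw [← ht] at hp hS0
    rw [← hs, ← ht]
    have hA0 : 0 ≤ A := by rw [hAd]; exact abs_nonneg _
    have hB0 : 0 ≤ B := by rw [hBd]; exact abs_nonneg _
    have hs0 : 0 ≤ s := by rw [hs]; exact sing_nonneg _
    obtain ⟨q, hq⟩ : ∃ q : ℝ, q = (4 + e) ^ (j + 1) := ⟨_, rfl⟩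
    obtain ⟨r, hr⟩ : ∃ r : ℝ, r = 4 ^ (j + 1) := ⟨_, rfl⟩
    obtain ⟨u, hu⟩ : ∃ u : ℝ, u = 5 ^ (j + 1) := ⟨_, rfl⟩
    have hqr : r ≤ q := by
      rw [hq, hr]
      exact pow_le_pow_left₀ (by norm_num) (by linarith) _
    have hqu : q ≤ u := by
      rw [hq, hu]
      exact pow_le_pow_left₀ (by linarith) (by linarith) _
    have hr1 : 1 ≤ r := by
      rw [hr]
      exact one_le_pow₀ (by norm_num)
    rw [← hq] at hp ⊢
    rw [← hr, ← hu]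
    have hd1 : r * 1 ≤ q * (1 + e) ^ 2 := mul_le_mul hqr (one_le_pow₀ (by linarith)) zero_le_one (by linarith)
    have habs : t - s ≤ |t - s| := le_abs_self _
    have habs0 : 0 ≤ |t - s| := abs_nonneg _
    have hR0 : 0 ≤ (q * (1 + e) ^ 2 - r) * (s + |t - s|) + r * |t - s| + (A + u * B) / x + ε / 5 := by
      have h1 : 0 ≤ (q * (1 + e) ^ 2 - r) * (s + |t - s|) := mul_nonneg (by linarith) (by linarith)
      have h2 : 0 ≤ r * |t - s| := mul_nonneg (by linarith) habs0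
      have h3 : 0 ≤ (A + u * B) / x := by
        have : 0 ≤ u * B := mul_nonneg (by linarith) hB0
        positivity
      linarith
    refine max_le hR0 ?_
    have h1 : (Real.log x) ^ (j + 2) * (cnt x (insert 0 D) : ℝ) ≤
        q * (1 + e) * (N * t) + A + q * B + ε / 5 * x := by
      have : j + 1 + 1 = j + 2 := rfl
      rw [this] at hc'
      linarith
    have h2 : q * (1 + e) * (N * t) ≤ q * (1 + e) ^ 2 * t * x := by
      have h3 : q * (1 + e) * (N * t) ≤ q * (1 + e) * (((1 + e) * x) * t) := by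
        refine mul_le_mul_of_nonneg_left (mul_le_mul_of_nonneg_right hNe hS0) ?_
        exact mul_nonneg (by linarith) (by linarith)
      refine h3.trans (le_of_eq ?_)
      ring
    have h3 : q * B ≤ u * B := mul_le_mul_of_nonneg_right hqu hB0
    have h4 : (Real.log x) ^ (j + 2) * (cnt x (insert 0 D) : ℝ) / x ≤ q * (1 + e) ^ 2 * t + (A + u * B) / x + ε / 5 := by
      rw [div_le_iff₀ hx0]
      have h5 : (q * (1 + e) ^ 2 * t + (A + u * B) / x + ε / 5) * x = q * (1 + e) ^ 2 * t * x + (A + u * B) + ε / 5 * x := by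
        field_simp
      rw [h5]
      linarith
    have h6 : q * (1 + e) ^ 2 * t - r * s ≤ (q * (1 + e) ^ 2 - r) * (s + |t - s|) + r * |t - s| := by
      have h7 : q * (1 + e) ^ 2 * t - r * s = (q * (1 + e) ^ 2 - r) * t + r * (t - s) := by ring
      rw [h7]
      refine add_le_add (mul_le_mul_of_nonneg_left (by linarith) (by linarith)) (mul_le_mul_of_nonneg_left habs (by linarith))
    linarith
  refine (Finset.sum_le_sum hpt).trans ?_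
  rw [Finset.sum_add_distrib, Finset.sum_add_distrib, Finset.sum_add_distrib, ← Finset.mul_sum, ← Finset.mul_sum,
    ← Finset.sum_div, Finset.sum_add_distrib, Finset.sum_add_distrib, ← Finset.mul_sum, Finset.sum_const, nsmul_eq_mul]
  have hHj : (0 : ℝ) ≤ (H : ℝ) ^ (j + 1) := by positivity
  have hsq : C2 / Real.sqrt (y : ℝ) ≤ C2 := by
    refine div_le_self hC2.le ?_
    rw [Real.one_le_sqrt]
    exact_mod_cast (by omega : 1 ≤ y)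
  have hE1 : 0 ≤ (4 + e) ^ (j + 1) * (1 + e) ^ 2 - 4 ^ (j + 1) := by
    have h1 : (4 : ℝ) ^ (j + 1) ≤ (4 + e) ^ (j + 1) := pow_le_pow_left₀ (by norm_num) (by linarith) _
    have h2 : (1 : ℝ) ≤ (1 + e) ^ 2 := one_le_pow₀ (by linarith)
    have h3 : (0 : ℝ) ≤ (4 + e) ^ (j + 1) := by positivity
    nlinarith
  have t1 : ((4 + e) ^ (j + 1) * (1 + e) ^ 2 - 4 ^ (j + 1)) * (∑ D ∈ P, sing (insert 0 D) +
      ∑ D ∈ P, |Sy y (insert 0 D) - sing (insert 0 D)|) ≤ ε / 5 * (H : ℝ) ^ (j + 1) := by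
    have h1 : ∑ D ∈ P, sing (insert 0 D) + ∑ D ∈ P, |Sy y (insert 0 D) - sing (insert 0 D)| ≤
        (C1 + C2) * (H : ℝ) ^ (j + 1) := by
      have h2 : C2 / Real.sqrt (y : ℝ) * (H : ℝ) ^ (j + 1) ≤ C2 * (H : ℝ) ^ (j + 1) :=
        mul_le_mul_of_nonneg_right hsq hHj
      linarith
    calc _ ≤ ((4 + e) ^ (j + 1) * (1 + e) ^ 2 - 4 ^ (j + 1)) * ((C1 + C2) * (H : ℝ) ^ (j + 1)) :=
          mul_le_mul_of_nonneg_left h1 hE1
      _ = ((4 + e) ^ (j + 1) * (1 + e) ^ 2 - 4 ^ (j + 1)) * (C1 + C2) * (H : ℝ) ^ (j + 1) := by ring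
      _ ≤ _ := mul_le_mul_of_nonneg_right heC hHj
  have t2 : 4 ^ (j + 1) * ∑ D ∈ P, |Sy y (insert 0 D) - sing (insert 0 D)| ≤ ε / 5 * (H : ℝ) ^ (j + 1) := by
    calc _ ≤ 4 ^ (j + 1) * (C2 / Real.sqrt (y : ℝ) * (H : ℝ) ^ (j + 1)) :=
          mul_le_mul_of_nonneg_left hS (by positivity)
      _ = 4 ^ (j + 1) * (C2 / Real.sqrt (y : ℝ)) * (H : ℝ) ^ (j + 1) := by ring
      _ ≤ _ := mul_le_mul_of_nonneg_right (hy0 y hyy0) hHj
  rw [← hN] at hA hB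
  have t3 : (∑ D ∈ P, |cf x (La x) D - cf x (fun n => Mm y n * g n) D| + 5 ^ (j + 1) *
      ∑ D ∈ P, |∑ n ∈ Finset.range (⌊x⌋₊ + 1), (La x (n : ℤ) - Mm y (n : ℤ) * g (n : ℤ)) * ∏ d ∈ D, Mm y ((n : ℤ) - d)|) / x
      ≤ 2 * (ε / 5) * (H : ℝ) ^ (j + 1) := by
    rw [div_le_iff₀ hx0]
    have h1 : 5 ^ (j + 1) * ∑ D ∈ P, |∑ n ∈ Finset.range (⌊x⌋₊ + 1),
        (La x (n : ℤ) - Mm y (n : ℤ) * g (n : ℤ)) * ∏ d ∈ D, Mm y ((n : ℤ) - d)| ≤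
        5 ^ (j + 1) * (ε / (10 * 5 ^ (j + 1)) * N * (H : ℝ) ^ (j + 1)) :=
      mul_le_mul_of_nonneg_left hB (by positivity)
    have h2 : (5 : ℝ) ^ (j + 1) * (ε / (10 * 5 ^ (j + 1)) * N * (H : ℝ) ^ (j + 1)) = ε / 10 * N * (H : ℝ) ^ (j + 1) := by
      field_simp
    have h3 : ε / 10 * N * (H : ℝ) ^ (j + 1) ≤ ε / 10 * (2 * x) * (H : ℝ) ^ (j + 1) :=
      mul_le_mul_of_nonneg_right (mul_le_mul_of_nonneg_left hN2 (by positivity)) hHj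
    have h4 : 2 * (ε / 5) * (H : ℝ) ^ (j + 1) * x = 2 * (ε / 10 * (2 * x) * (H : ℝ) ^ (j + 1)) := by ring
    rw [h4]
    linarith
  have t4 : (P.card : ℝ) * (ε / 5) ≤ ε / 5 * (H : ℝ) ^ (j + 1) := by
    rw [mul_comm]
    exact mul_le_mul_of_nonneg_left hcardP (by positivity)
  have t5 : ε * (H : ℝ) ^ (j + 1) = ε / 5 * (H : ℝ) ^ (j + 1) + ε / 5 * (H : ℝ) ^ (j + 1) +
      2 * (ε / 5) * (H : ℝ) ^ (j + 1) + ε / 5 * (H : ℝ) ^ (j + 1) := by ring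
  rw [t5]
  linarith

end Pool.Agent.H6.AE
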