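import Pool.Agent.H6.AE.Df
import Pool.Agent.H6.MB.BLK

/-!
# BLKm: one block of the Brun-Hooley sieve, for at most `m` translates and exponents at most `m`

The proof is the one of `BLK` (`Pool/Agent/H6/MB/BLK.lean`) with `4, 16, 14` replaced by `m, 2^m, 2^m`.
-/

set_option autoImplicit false

namespace Pool.Agent.H6.AE

open Finset Pool.Agent.H6.MB

theorem BLKm_avgT {p : ℕ} (hp : 0 < p) {m : ℕ} (s : Finset ℤ) (hs : s.card ≤ m) {a : ℤ} (ha : a ∈ s) {T G : ℝ}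
    (hT : 1 ≤ T) (hG : 1 ≤ G) :
    avgP p (fun n => (if (p : ℤ) ∣ n + a then T else 1) * ∏ a' ∈ s, (if (p : ℤ) ∣ n + a' then G else 1)) ≤
      1 + m * T * G ^ m / (p : ℝ) := by
  have hp0 : (0 : ℝ) < p := by exact_mod_cast hp
  have hG0 : 0 ≤ G := by linarith
  have hG1 : ∀ n a' : ℤ, (1 : ℝ) ≤ (if (p : ℤ) ∣ n + a' then G else 1) := by
    intro n a'
    split_ifs
    · exact hG
    · exact le_rfl
  have hle : ∀ n : ℤ, (if (p : ℤ) ∣ n + a then T else 1) * ∏ a' ∈ s, (if (p : ℤ) ∣ n + a' then G else 1) ≤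
      1 + T * G ^ m * (if ∃ a ∈ s, (p : ℤ) ∣ n + a then (1 : ℝ) else 0) := by
    intro n
    by_cases h : ∃ a ∈ s, (p : ℤ) ∣ n + a
    · rw [if_pos h]
      have h1 : (if (p : ℤ) ∣ n + a then T else 1) ≤ T := by split_ifs <;> linarith
      have h1' : 0 ≤ (if (p : ℤ) ∣ n + a then T else 1) := by split_ifs <;> linarith
      have h2 : ∏ a' ∈ s, (if (p : ℤ) ∣ n + a' then G else 1) ≤ G ^ m := by
        calc ∏ a' ∈ s, (if (p : ℤ) ∣ n + a' then G else 1) ≤ ∏ a' ∈ s, G :=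
              Finset.prod_le_prod (fun a' _ => by linarith [hG1 n a']) (fun a' _ => by split_ifs <;> linarith)
          _ = G ^ s.card := by rw [Finset.prod_const]
          _ ≤ G ^ m := pow_le_pow_right₀ hG hs
      have h2' : 0 ≤ ∏ a' ∈ s, (if (p : ℤ) ∣ n + a' then G else 1) :=
        Finset.prod_nonneg fun a' _ => by linarith [hG1 n a']
      have h3 := mul_le_mul h1 h2 h2' (by linarith)
      linarith
    · rw [if_neg h]
      push Not at h
      rw [if_neg (h a ha), Finset.prod_eq_one (fun a' ha' => if_neg (h a' ha'))]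
      linarith
  refine (BLK_mono hle).trans ?_
  rw [BLK_add, BLK_smul]
  have h1 : avgP p (fun _ => (1 : ℝ)) = 1 := by
    unfold avgP
    simp [hp0.ne']
  have h2 : avgP p (fun n => if ∃ a ∈ s, (p : ℤ) ∣ n + a then (1 : ℝ) else 0) ≤ m / p := by
    unfold avgP
    rw [Finset.sum_boole]
    refine div_le_div_of_nonneg_right ?_ hp0.le
    exact_mod_cast (BLK_hit_le hp s).trans hs
  rw [h1]
  have h3 : T * G ^ m * avgP p (fun n => if ∃ a ∈ s, (p : ℤ) ∣ n + a then (1 : ℝ) else 0) ≤ T * G ^ m * (m / p) :=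
    mul_le_mul_of_nonneg_left h2 (by positivity)
  have h4 : T * G ^ m * (m / (p : ℝ)) = m * T * G ^ m / (p : ℝ) := by ring
  linarith

theorem BLKm_point (b : ℕ) (B : Finset ℕ) {m : ℕ} (s : Finset ℤ) (e : ℤ → ℕ) (he : ∀ a, 1 ≤ e a ∧ e a ≤ m) {T : ℝ}
    (hT : 1 ≤ T) (n : ℤ) :
    ∏ a ∈ s, gb b (om B (n + a)) ^ e a ≤
      (∏ p ∈ B, if ∃ a ∈ s, (p : ℤ) ∣ n + a then (0 : ℝ) else 1) +
      ∑ a ∈ s, (T ^ (2 * b))⁻¹ * ∏ p ∈ B, ((if (p : ℤ) ∣ n + a then T else 1) *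
        ∏ a' ∈ s, (if (p : ℤ) ∣ n + a' then ((2 : ℝ) ^ m) else 1)) := by
  have hT0 : 0 < T := by linarith
  have h2m : (0 : ℝ) < 2 ^ m := by positivity
  have hF0 : 0 ≤ ∏ p ∈ B, if ∃ a ∈ s, (p : ℤ) ∣ n + a then (0 : ℝ) else 1 :=
    Finset.prod_nonneg fun p _ => by split_ifs <;> norm_num
  have hFa : ∀ a ∈ s, 0 ≤ (T ^ (2 * b))⁻¹ * ∏ p ∈ B, ((if (p : ℤ) ∣ n + a then T else 1) *
        ∏ a' ∈ s, (if (p : ℤ) ∣ n + a' then ((2 : ℝ) ^ m) else 1)) := by
    intro a _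
    refine mul_nonneg (by positivity) (Finset.prod_nonneg fun p _ => mul_nonneg ?_ ?_)
    · split_ifs <;> linarith
    · exact Finset.prod_nonneg fun a' _ => by split_ifs <;> positivity
  by_cases h0 : ∀ a ∈ s, om B (n + a) = 0
  · have h1 : ∏ a ∈ s, gb b (om B (n + a)) ^ e a = 1 := by
      refine Finset.prod_eq_one fun a ha => ?_
      rw [h0 a ha]
      simp [gb]
    have h2 : (∏ p ∈ B, if ∃ a ∈ s, (p : ℤ) ∣ n + a then (0 : ℝ) else 1) = 1 := by
      refine Finset.prod_eq_one fun p hp => ?_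
      rw [if_neg]
      rintro ⟨a, ha, hd⟩
      have h3 := h0 a ha
      unfold om at h3
      rw [Finset.card_eq_zero, Finset.filter_eq_empty_iff] at h3
      exact h3 hp hd
    rw [h1, h2]
    linarith [Finset.sum_nonneg hFa]
  · push Not at h0
    obtain ⟨a, ha, hne⟩ := h0
    by_cases hz : gb b (om B (n + a)) = 0
    · have h1 : ∏ a ∈ s, gb b (om B (n + a)) ^ e a = 0 := by
        refine Finset.prod_eq_zero ha ?_
        rw [hz, zero_pow (by have := (he a).1; omega)]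
      rw [h1]
      linarith [Finset.sum_nonneg hFa]
    · have h1 : 2 * b < om B (n + a) := by
        unfold gb at hz
        rw [if_neg hne] at hz
        have h2 : (om B (n + a) - 1).choose (2 * b) ≠ 0 := by exact_mod_cast hz
        have h3 := Nat.choose_ne_zero_iff.mp h2
        omega
      have h2 : ∏ a ∈ s, gb b (om B (n + a)) ^ e a ≤ ∏ a ∈ s, ((2 : ℝ) ^ m) ^ om B (n + a) := by
        refine Finset.prod_le_prod (fun a _ => pow_nonneg (gb_nonneg _ _) _) (fun a _ => ?_)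
        calc gb b (om B (n + a)) ^ e a ≤ (2 ^ om B (n + a)) ^ e a := pow_le_pow_left₀ (gb_nonneg _ _) (gb_le _ _) _
          _ ≤ ((2 : ℝ) ^ om B (n + a)) ^ m := pow_le_pow_right₀ (one_le_pow₀ (by norm_num)) (he a).2
          _ = ((2 : ℝ) ^ m) ^ om B (n + a) := by
            rw [← pow_mul, mul_comm, pow_mul]
      have h3 : ∏ p ∈ B, ((if (p : ℤ) ∣ n + a then T else 1) *
          ∏ a' ∈ s, (if (p : ℤ) ∣ n + a' then ((2 : ℝ) ^ m) else 1)) =
          T ^ om B (n + a) * ∏ a ∈ s, ((2 : ℝ) ^ m) ^ om B (n + a) := by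
        rw [Finset.prod_mul_distrib, ← BLK_pow_om, Finset.prod_comm]
        congr 1
        refine Finset.prod_congr rfl fun a' _ => ?_
        rw [BLK_pow_om]
      have h4 : (1 : ℝ) ≤ (T ^ (2 * b))⁻¹ * T ^ om B (n + a) := by
        rw [inv_mul_eq_div, le_div_iff₀ (by positivity), one_mul]
        exact pow_le_pow_right₀ hT h1.le
      have h5 : 0 ≤ ∏ a ∈ s, ((2 : ℝ) ^ m) ^ om B (n + a) := by positivity
      have h6 := Finset.single_le_sum hFa ha
      have h7 : ∏ a ∈ s, ((2 : ℝ) ^ m) ^ om B (n + a) ≤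
          (T ^ (2 * b))⁻¹ * ∏ p ∈ B, ((if (p : ℤ) ∣ n + a then T else 1) *
          ∏ a' ∈ s, (if (p : ℤ) ∣ n + a' then ((2 : ℝ) ^ m) else 1)) := by
        rw [h3, ← mul_assoc]
        exact le_mul_of_one_le_left h5 h4
      linarith

theorem BLKm_real (k : ℕ) {u : ℝ} (hu0 : 0 ≤ u) (hu : u ≤ 1 / 2) :
    1 ≤ (1 - u) ^ k * (1 + (2 ^ (k + 1) - 2) * u) := by
  induction k with
  | zero => norm_num
  | succ k ih =>
    have h1 : (1 - u) ^ (k + 1) * (1 + (2 ^ (k + 1 + 1) - 2) * u) =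
        (1 - u) ^ k * (1 + (2 ^ (k + 1) - 2) * u) + (1 - u) ^ k * ((2 ^ (k + 1) - 1) * (u * (1 - 2 * u))) := by
      rw [pow_succ, pow_succ (2 : ℝ) (k + 1)]
      ring
    have h2 : (1 : ℝ) ≤ 2 ^ (k + 1) := one_le_pow₀ (by norm_num)
    have h3 : 0 ≤ (1 - u) ^ k * ((2 ^ (k + 1) - 1) * (u * (1 - 2 * u))) :=
      mul_nonneg (pow_nonneg (by linarith) k) (mul_nonneg (by linarith) (mul_nonneg hu0 (by linarith)))
    rw [h1]
    linarith

theorem BLKm_real' {k m : ℕ} (hk : 1 ≤ k) (hkm : k ≤ m) {u : ℝ} (hu0 : 0 ≤ u) (hu : u ≤ 1 / 2) :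
    1 ≤ (1 - u) ^ (k - 1) * (1 + 2 ^ m * u) := by
  refine (BLKm_real (k - 1) hu0 hu).trans ?_
  refine mul_le_mul_of_nonneg_left ?_ (pow_nonneg (by linarith) _)
  have h1 : (2 : ℝ) ^ (k - 1 + 1) ≤ 2 ^ m := pow_le_pow_right₀ (by norm_num) (by omega)
  have h2 : ((2 : ℝ) ^ (k - 1 + 1) - 2) * u ≤ 2 ^ m * u := mul_le_mul_of_nonneg_right (by linarith) hu0
  linarith

theorem BLKm_main_factor {p : ℕ} (hp : p.Prime) {m : ℕ} (s : Finset ℤ) (hs1 : 1 ≤ s.card) (hsm : s.card ≤ m) :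
    avgP p (fun n => if ∃ a ∈ s, (p : ℤ) ∣ n + a then (0 : ℝ) else 1) ≤
      (1 - 1 / (p : ℝ)) ^ s.card *
        (if ∃ a ∈ s, ∃ a' ∈ s, a ≠ a' ∧ (p : ℤ) ∣ a - a' then (1 + 2 ^ m / (p : ℝ)) else 1) := by
  have hp0 : (0 : ℝ) < p := by exact_mod_cast hp.pos
  have hp2 : (2 : ℝ) ≤ p := by exact_mod_cast hp.two_le
  have hu0 : (0 : ℝ) ≤ 1 / p := by positivity
  have hu : 1 / (p : ℝ) ≤ 1 / 2 := one_div_le_one_div_of_le (by norm_num) hp2
  rw [BLK_avg0 hp.pos s]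
  split_ifs with h
  · have h1 : (1 : ℝ) ≤ ((Finset.range p).filter (fun m : ℕ => ∃ a ∈ s, (p : ℤ) ∣ (m : ℤ) + a)).card := by
      exact_mod_cast BLK_hit_pos hp.pos s hs1
    have h2 : 1 - (((Finset.range p).filter (fun m : ℕ => ∃ a ∈ s, (p : ℤ) ∣ (m : ℤ) + a)).card : ℝ) / (p : ℝ) ≤
        1 - 1 / (p : ℝ) := by
      have := div_le_div_of_nonneg_right h1 hp0.le
      linarith
    refine h2.trans ?_
    have h3 := BLKm_real' hs1 hsm hu0 hu
    have h4 : (0 : ℝ) ≤ 1 - 1 / p := by linarith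
    calc 1 - 1 / (p : ℝ) ≤ (1 - 1 / p) * ((1 - 1 / (p : ℝ)) ^ (s.card - 1) * (1 + 2 ^ m * (1 / p))) :=
          le_mul_of_one_le_right h4 h3
      _ = (1 - 1 / (p : ℝ)) ^ (s.card - 1 + 1) * (1 + 2 ^ m / p) := by rw [pow_succ]; ring
      _ = (1 - 1 / (p : ℝ)) ^ s.card * (1 + 2 ^ m / (p : ℝ)) := by rw [Nat.sub_add_cancel hs1]
  · push Not at h
    rw [BLK_hit_eq hp.pos s (fun a ha a' ha' hne => h a ha a' ha' hne), mul_one]
    have h1 := one_add_mul_le_pow (a := -(1 / (p : ℝ))) (by linarith) s.card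
    have h2 : 1 + (s.card : ℝ) * -(1 / (p : ℝ)) = 1 - (s.card : ℝ) / p := by ring
    rw [h2, ← sub_eq_add_neg] at h1
    exact h1

theorem BLKm (m : ℕ) (L : ℝ) (hL : 0 < L) : ∃ b₀ : ℕ, ∀ b : ℕ, b₀ ≤ b → ∀ B : Finset ℕ, (∀ p ∈ B, p.Prime) →
    ∑ p ∈ B, 1 / (p : ℝ) ≤ L → ∀ s : Finset ℤ, 1 ≤ s.card → s.card ≤ m → ∀ e : ℤ → ℕ, (∀ a, 1 ≤ e a ∧ e a ≤ m) →
    avgP (∏ p ∈ B, p) (fun t => ∏ a ∈ s, gb b (om B (t + a)) ^ e a)
      ≤ (1 + (1 / 2) ^ b) * (∏ p ∈ B, (1 - 1 / (p : ℝ))) ^ s.card *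
          ∏ p ∈ B.filter (fun p : ℕ => ∃ a ∈ s, ∃ a' ∈ s, a ≠ a' ∧ (p : ℤ) ∣ a - a'), (1 + 2 ^ m / (p : ℝ)) := by
  classical
  rcases Nat.eq_zero_or_pos m with hm0 | hm0
  · refine ⟨0, fun b _ B _ _ s hs1 hsm => ?_⟩
    omega
  have hm : (1 : ℝ) ≤ m := by exact_mod_cast hm0
  set G : ℝ := 2 ^ m with hG
  have hG1 : 1 ≤ G := one_le_pow₀ (by norm_num)
  have hG0 : 0 < G := by linarith
  set K : ℝ := m * G ^ m * L with hK
  have hK0 : 0 < K := by positivity
  set T₀ : ℝ := 2 * m * Real.exp (2 * m * L + 1) with hT₀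
  have hT₀1 : 1 ≤ T₀ := by
    have h1 : (1 : ℝ) ≤ Real.exp (2 * m * L + 1) := Real.one_le_exp (by positivity)
    rw [hT₀]
    nlinarith
  refine ⟨⌈K * T₀⌉₊ + 1, fun b hb B hB hBL s hs1 hsm e he => ?_⟩
  have hbK : K * T₀ ≤ b := by
    have h1 : K * T₀ ≤ (⌈K * T₀⌉₊ : ℝ) := Nat.le_ceil _
    have h2 : ((⌈K * T₀⌉₊ + 1 : ℕ) : ℝ) ≤ b := by exact_mod_cast hb
    push_cast at h2
    linarith
  have hb1 : 1 ≤ b := by omega
  set T : ℝ := b / K with hT
  have hTT : T₀ ≤ T := by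
    rw [hT, le_div_iff₀ hK0]
    linarith
  have hT1 : 1 ≤ T := hT₀1.trans hTT
  have hT0 : 0 < T := by linarith
  have hKT : K * T = b := by
    rw [hT]
    field_simp
  -- the average of the majorant
  have hstep := BLK_mono (P := ∏ p ∈ B, p) (BLKm_point b B s e he hT1)
  refine hstep.trans ?_
  rw [BLK_add, BLK_sum]
  simp only [BLK_smul]
  rw [BLK_avg_prod B hB (fun p n => if ∃ a ∈ s, (p : ℤ) ∣ n + a then (0 : ℝ) else 1)
    (fun p _ n k => by simp only [BLK_dvd_shift])]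
  have hsec : ∀ a ∈ s, (T ^ (2 * b))⁻¹ * avgP (∏ p ∈ B, p) (fun n => ∏ p ∈ B, ((if (p : ℤ) ∣ n + a then T else 1) *
        ∏ a' ∈ s, (if (p : ℤ) ∣ n + a' then G else 1))) ≤ (T ^ (2 * b))⁻¹ * Real.exp b := by
    intro a ha
    refine mul_le_mul_of_nonneg_left ?_ (by positivity)
    rw [BLK_avg_prod B hB (fun p n => (if (p : ℤ) ∣ n + a then T else 1) *
        ∏ a' ∈ s, (if (p : ℤ) ∣ n + a' then G else 1))
      (fun p _ n k => by simp only [BLK_dvd_shift])]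
    calc ∏ p ∈ B, avgP p (fun n => (if (p : ℤ) ∣ n + a then T else 1) *
            ∏ a' ∈ s, (if (p : ℤ) ∣ n + a' then G else 1))
        ≤ ∏ p ∈ B, Real.exp (m * T * G ^ m / (p : ℝ)) := by
          refine Finset.prod_le_prod (fun p hp => ?_) (fun p hp => ?_)
          · unfold avgP
            refine div_nonneg (Finset.sum_nonneg fun m _ => mul_nonneg ?_ ?_) (Nat.cast_nonneg p)
            · split_ifs <;> linarith
            · exact Finset.prod_nonneg fun a' _ => by split_ifs <;> linarith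
          · refine (BLKm_avgT (hB p hp).pos s hsm ha hT1 hG1).trans ?_
            linarith [Real.add_one_le_exp (m * T * G ^ m / (p : ℝ))]
      _ = Real.exp (m * T * G ^ m * ∑ p ∈ B, 1 / (p : ℝ)) := by
          rw [← Real.exp_sum, Finset.mul_sum]
          congr 1
          refine Finset.sum_congr rfl fun p _ => ?_
          ring
      _ ≤ Real.exp b := by
          refine Real.exp_le_exp.mpr ?_
          calc m * T * G ^ m * ∑ p ∈ B, 1 / (p : ℝ) ≤ m * T * G ^ m * L :=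
                mul_le_mul_of_nonneg_left hBL (by positivity)
            _ = K * T := by rw [hK]; ring
            _ = b := hKT
  have hsecsum := Finset.sum_le_sum hsec
  rw [Finset.sum_const, nsmul_eq_mul] at hsecsum
  -- the main factor
  have hfac : ∏ p ∈ B, avgP p (fun n => if ∃ a ∈ s, (p : ℤ) ∣ n + a then (0 : ℝ) else 1) ≤
      (∏ p ∈ B, (1 - 1 / (p : ℝ))) ^ s.card *
        ∏ p ∈ B.filter (fun p : ℕ => ∃ a ∈ s, ∃ a' ∈ s, a ≠ a' ∧ (p : ℤ) ∣ a - a'), (1 + G / (p : ℝ)) := by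
    rw [← Finset.prod_pow, Finset.prod_filter, ← Finset.prod_mul_distrib]
    refine Finset.prod_le_prod (fun p hp => ?_) (fun p hp => BLKm_main_factor (hB p hp) s hs1 hsm)
    unfold avgP
    exact div_nonneg (Finset.sum_nonneg fun m _ => by dsimp only; split_ifs <;> norm_num) (Nat.cast_nonneg p)
  set M : ℝ := (∏ p ∈ B, (1 - 1 / (p : ℝ))) ^ s.card with hM
  set X : ℝ := ∏ p ∈ B.filter (fun p : ℕ => ∃ a ∈ s, ∃ a' ∈ s, a ≠ a' ∧ (p : ℤ) ∣ a - a'), (1 + G / (p : ℝ)) with hX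
  have hX1 : 1 ≤ X := by
    calc (1 : ℝ) = ∏ p ∈ B.filter (fun p : ℕ => ∃ a ∈ s, ∃ a' ∈ s, a ≠ a' ∧ (p : ℤ) ∣ a - a'), (1 : ℝ) := by
          rw [Finset.prod_const_one]
      _ ≤ X := by
          refine Finset.prod_le_prod (fun p _ => by norm_num) (fun p _ => ?_)
          have : (0 : ℝ) ≤ G / p := by positivity
          linarith
  have hMlow : Real.exp (-(2 * m * L)) ≤ M := by
    have h1 : Real.exp (-(2 * L)) ≤ ∏ p ∈ B, (1 - 1 / (p : ℝ)) := by
      calc Real.exp (-(2 * L)) ≤ Real.exp (∑ p ∈ B, (-(2 * (1 / (p : ℝ))))) := by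
            refine Real.exp_le_exp.mpr ?_
            rw [Finset.sum_neg_distrib, ← Finset.mul_sum]
            linarith
        _ = ∏ p ∈ B, Real.exp (-(2 * (1 / (p : ℝ)))) := Real.exp_sum _ _
        _ ≤ ∏ p ∈ B, (1 - 1 / (p : ℝ)) := by
            refine Finset.prod_le_prod (fun p _ => (Real.exp_pos _).le) (fun p hp => ?_)
            have hp2 : (2 : ℝ) ≤ p := by exact_mod_cast (hB p hp).two_le
            exact BLK_exp_le (by positivity) (one_div_le_one_div_of_le (by norm_num) hp2)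
    have h2 : (0 : ℝ) < Real.exp (-(2 * L)) := Real.exp_pos _
    calc Real.exp (-(2 * m * L)) = Real.exp (-(2 * L)) ^ m := by
          rw [← Real.exp_nat_mul]
          congr 1
          ring
      _ ≤ Real.exp (-(2 * L)) ^ s.card := by
          refine pow_le_pow_of_le_one h2.le ?_ hsm
          rw [Real.exp_le_one_iff]
          linarith
      _ ≤ M := pow_le_pow_left₀ h2.le h1 _
  have hM0 : 0 < M := (Real.exp_pos _).trans_le hMlow
  -- the second part is small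
  have hsmall : (s.card : ℝ) * ((T ^ (2 * b))⁻¹ * Real.exp b) ≤ (1 / 2) ^ b * (M * X) := by
    have h1 : 2 * m * Real.exp (2 * m * L + 1) ≤ T := hTT
    have hE1 : (1 : ℝ) ≤ Real.exp (2 * m * L) := Real.one_le_exp (by positivity)
    have h2 : m * Real.exp (2 * m * L) * (2 * Real.exp 1 / T ^ 2) ^ b ≤ 1 := by
      have h3 : 2 * Real.exp 1 / T ^ 2 ≤ 1 / (m * Real.exp (2 * m * L)) := by
        rw [div_le_div_iff₀ (by positivity) (by positivity)]
        have h4 : 2 * Real.exp 1 * (m * Real.exp (2 * m * L)) = 2 * m * Real.exp (2 * m * L + 1) := by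
          rw [Real.exp_add]
          ring
        rw [h4]
        nlinarith
      have h5 : (1 : ℝ) ≤ m * Real.exp (2 * m * L) := by nlinarith
      have h6 : 1 / (m * Real.exp (2 * m * L)) ≤ 1 := by
        rw [div_le_one (by positivity)]
        exact h5
      have h7 : (0 : ℝ) ≤ 2 * Real.exp 1 / T ^ 2 := by positivity
      calc m * Real.exp (2 * m * L) * (2 * Real.exp 1 / T ^ 2) ^ b
          ≤ m * Real.exp (2 * m * L) * (1 / (m * Real.exp (2 * m * L))) ^ b := by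
            refine mul_le_mul_of_nonneg_left (pow_le_pow_left₀ h7 h3 b) (by positivity)
        _ ≤ m * Real.exp (2 * m * L) * (1 / (m * Real.exp (2 * m * L))) ^ 1 := by
            refine mul_le_mul_of_nonneg_left (pow_le_pow_of_le_one (by positivity) h6 hb1) (by positivity)
        _ = 1 := by
            rw [pow_one]
            field_simp
    have h3 : (2 * Real.exp 1 / T ^ 2) ^ b = 2 ^ b * ((T ^ (2 * b))⁻¹ * Real.exp b) := by
      rw [div_pow, mul_pow, ← Real.exp_nat_mul, ← pow_mul, mul_one, div_eq_mul_inv]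
      ring
    rw [h3] at h2
    have h4 : (s.card : ℝ) ≤ m := by exact_mod_cast hsm
    have h5 : 0 ≤ (T ^ (2 * b))⁻¹ * Real.exp b := by positivity
    have h6 : Real.exp (2 * m * L) * Real.exp (-(2 * m * L)) = 1 := by
      rw [← Real.exp_add]
      simp
    have h7 : (0 : ℝ) < 2 ^ b := by positivity
    have h8 : (s.card : ℝ) * ((T ^ (2 * b))⁻¹ * Real.exp b) ≤ (1 / 2) ^ b * Real.exp (-(2 * m * L)) := by
      calc (s.card : ℝ) * ((T ^ (2 * b))⁻¹ * Real.exp b) ≤ m * ((T ^ (2 * b))⁻¹ * Real.exp b) :=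
            mul_le_mul_of_nonneg_right h4 h5
        _ = (1 / 2) ^ b * (m * (2 ^ b * ((T ^ (2 * b))⁻¹ * Real.exp b))) := by
            rw [one_div, inv_pow]
            field_simp
        _ = (1 / 2) ^ b * (Real.exp (-(2 * m * L)) *
              (m * Real.exp (2 * m * L) * (2 ^ b * ((T ^ (2 * b))⁻¹ * Real.exp b)))) := by
            linear_combination (-(1 / 2) ^ b * (m * (2 ^ b * ((T ^ (2 * b))⁻¹ * Real.exp b)))) * h6
        _ ≤ (1 / 2) ^ b * (Real.exp (-(2 * m * L)) * 1) := by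
            refine mul_le_mul_of_nonneg_left (mul_le_mul_of_nonneg_left h2 (Real.exp_pos _).le) (by positivity)
        _ = (1 / 2) ^ b * Real.exp (-(2 * m * L)) := by rw [mul_one]
    refine h8.trans (mul_le_mul_of_nonneg_left ?_ (by positivity))
    exact hMlow.trans (le_mul_of_one_le_right hM0.le hX1)
  calc _ ≤ M * X + (s.card : ℝ) * ((T ^ (2 * b))⁻¹ * Real.exp b) := add_le_add hfac hsecsum
    _ ≤ M * X + (1 / 2) ^ b * (M * X) := by linarith
    _ = (1 + (1 / 2) ^ b) * M * X := by ring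

end Pool.Agent.H6.AE
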