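import Pool.Agent.H12.DM.Df

/-!
# AE: correlations of `m` translates of the Brun-Hooley weight. Definitions.

Generalisation of `GoodV` (`Pool/Agent/H12/DM/Df.lean`) from at most four to at most `m` translates.
-/

set_option autoImplicit false

namespace Pool.Agent.H6.AE

open Finset Pool.Agent.H17 Pool.Agent.H6.MF Pool.Agent.H6.MB Pool.Agent.H12.DM

/-- the level of the sieve for `m` translates with accuracy parameter `b` -/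
noncomputable def dlm (m b : ℕ) : ℝ := 1 / (40 * ((m : ℝ) + 1) * (4 * (b : ℝ) + 8))

/-- the properties of the (normalised) Brun-Hooley weight for the primes in `(yy x, x^(dlm m b)]` -/
def GoodVm (m b : ℕ) (x : ℝ) (V : ℤ → ℝ) : Prop :=
  (∀ n, 0 ≤ V n) ∧
  (∀ n : ℤ, (∀ p ∈ PI (yy x : ℝ) (x ^ dlm m b), ¬ (p : ℤ) ∣ n) → V n = (EP (yy x : ℝ) (x ^ dlm m b))⁻¹) ∧
  TD (PR (yy x : ℝ) (x ^ dlm m b)) (x ^ (1 / (10 * ((m : ℝ) + 1)))) V ∧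
  (∀ s : Finset ℤ, s.card ≤ m → ∀ e : ℤ → ℕ, (∀ a, 1 ≤ e a ∧ e a ≤ m) →
    avgP (PR (yy x : ℝ) (x ^ dlm m b)) (fun t => ∏ a ∈ s, V (t + a) ^ e a)
      ≤ (1 + 4 * (1 / 2 : ℝ) ^ b) * (EP (yy x : ℝ) (x ^ dlm m b))⁻¹ ^ (∑ a ∈ s, (e a - 1)) *
        ∏ p ∈ (PI (yy x : ℝ) (x ^ dlm m b)).filter (fun p : ℕ => ∃ a ∈ s, ∃ a' ∈ s, a ≠ a' ∧ (p : ℤ) ∣ a - a'),
          (1 + 2 ^ m / (p : ℝ))) ∧
  (∀ s : Finset ℤ, s.card ≤ m →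
    1 - (m : ℝ) ^ 2 / (yy x : ℝ) ≤ avgP (PR (yy x : ℝ) (x ^ dlm m b)) (fun t => ∏ a ∈ s, V (t + a)))

/-- `∏_{p ∣ h, p > y} (1 + B/p)` -/
noncomputable def gfB (B : ℝ) (y : ℕ) (h : ℤ) : ℝ :=
  ∏ p ∈ h.natAbs.primeFactors.filter (fun p => y < p), (1 + B / (p : ℝ))

/-- `∏_{p ∣ h, p > y} (1 + 2^m/p)` -/
noncomputable def gfm (m y : ℕ) (h : ℤ) : ℝ := gfB (2 ^ m) y h

lemma dlm_pos (m b : ℕ) : 0 < dlm m b := by
  unfold dlm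
  positivity

lemma dlm_le (m b : ℕ) : dlm m b ≤ 1 / 320 := by
  unfold dlm
  have hm : (0 : ℝ) ≤ (m : ℝ) := Nat.cast_nonneg m
  have hb : (0 : ℝ) ≤ (b : ℝ) := Nat.cast_nonneg b
  apply one_div_le_one_div_of_le (by norm_num)
  nlinarith [mul_nonneg hm hb]

lemma one_le_gfB {B : ℝ} (hB : 0 ≤ B) (y : ℕ) (h : ℤ) : 1 ≤ gfB B y h := by
  unfold gfB
  refine Finset.one_le_prod fun p _ => ?_
  have : (0 : ℝ) ≤ B / p := by positivity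
  linarith

lemma gfB_neg (B : ℝ) (y : ℕ) (h : ℤ) : gfB B y (-h) = gfB B y h := by
  unfold gfB
  rw [Int.natAbs_neg]

lemma one_le_gfm (m y : ℕ) (h : ℤ) : 1 ≤ gfm m y h := one_le_gfB (by positivity) y h

lemma gfm_neg (m y : ℕ) (h : ℤ) : gfm m y (-h) = gfm m y h := gfB_neg _ _ _

lemma gf_eq_gfB (y : ℕ) (h : ℤ) : gf y h = gfB 14 y h := rfl

end Pool.Agent.H6.AE
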