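import Pool.Agent.H6.AE.T1r

/-!
# T1: almost all prime tuples (final form, see `Pool/Agent/Results/MP_1039f5_nt/AlmostAllTuples.lean`)
-/

set_option autoImplicit false

namespace Pool.Agent.H6.AE

open Finset Pool.Agent.H17 Pool.Agent.H6.MF Pool.Agent.H6.MB Pool.Agent.H12.DM

theorem T1 : ∀ k : ℕ, 1 ≤ k → ∀ ε : ℝ, 0 < ε → ∃ (y : ℕ) (K X : ℝ), ∀ x : ℝ, X ≤ x →
    ∀ Q : Finset ℕ, (∀ p ∈ Q, p.Prime ∧ (p : ℝ) ≤ x) → ∀ r : ℝ, r = (Q.card : ℝ) * Real.log x / x →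
    (∃ g : ℤ → ℝ, (∀ n, 0 ≤ g n ∧ g n ≤ 4 + ε) ∧
      ∀ H : ℕ, K * Real.log x ≤ (H : ℝ) → (H : ℝ) ≤ (Real.log x) ^ 2 → ∀ j : ℕ, 1 ≤ j → j ≤ k →
        ∑ D ∈ powersetCard j (Icc 1 (H : ℤ)), |(Real.log x) ^ (j + 1) * (cntQ x Q (insert 0 D) : ℝ) / x -
          (∑ n ∈ range (⌊x⌋₊ + 1), ∏ d ∈ insert 0 D, (Mm y ((n : ℤ) - d) * g ((n : ℤ) - d))) / x| ≤ ε * (H : ℝ) ^ j) ∧
    ∀ H : ℕ, K * Real.log x ≤ (H : ℝ) → (H : ℝ) ≤ (Real.log x) ^ 2 →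
      (((powersetCard k (Icc 1 (H : ℤ))).filter (fun D => sing (insert 0 D) ≠ 0 ∧
        (4 ^ k + ε) * (sing (insert 0 D) * x / (Real.log x) ^ (k + 1)) < (cnt x (insert 0 D) : ℝ))).card : ℝ)
          ≤ ε * (H : ℝ) ^ k ∧
      ∀ h : ℝ, 0 ≤ h → h ≤ 1 →
        (h * r ^ (k + 1) - ε) * ((H : ℝ) ^ (k + 1) / ((k + 1).factorial : ℝ)) ≤ (4 ^ k - (1 - h) * r ^ (k + 1)) *
          ∑ E ∈ (powersetCard (k + 1) (Icc 1 (H : ℤ))).filter (fun E =>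
            (1 - h) * r ^ (k + 1) * (sing E * x / (Real.log x) ^ (k + 1)) ≤ (cntQ x Q E : ℝ)), sing E := by
  intro k hk ε hε
  obtain ⟨j, rfl⟩ : ∃ j, k = j + 1 := ⟨k - 1, by omega⟩
  obtain ⟨y, K1, X1, hK1, h1⟩ := T1mQ (j + 1) ε hε
  obtain ⟨K2, X2, hK2, h2⟩ := T1b j ε hε
  obtain ⟨K3, X3, hK3, h3⟩ := T1cQ j ε hε
  refine ⟨y, max K1 (max K2 K3), max (max X1 X2) (max X3 (Real.exp 1)), fun x hx Q hQ r hr => ?_⟩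
  simp only [max_le_iff] at hx
  obtain ⟨⟨hx1, hx2⟩, hx3, hxe⟩ := hx
  have hx0 : 0 < x := (Real.exp_pos 1).trans_le hxe
  have hL : 1 ≤ Real.log x := (Real.le_log_iff_exp_le hx0).2 hxe
  have hK : ∀ H : ℕ, max K1 (max K2 K3) * Real.log x ≤ (H : ℝ) → K1 * Real.log x ≤ H ∧ K2 * Real.log x ≤ H ∧ K3 * Real.log x ≤ H := by
    intro H hH
    refine ⟨?_, ?_, ?_⟩
    · exact (mul_le_mul_of_nonneg_right (le_max_left _ _) (by linarith)).trans hH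
    · exact (mul_le_mul_of_nonneg_right ((le_max_left _ _).trans (le_max_right _ _)) (by linarith)).trans hH
    · exact (mul_le_mul_of_nonneg_right ((le_max_right _ _).trans (le_max_right _ _)) (by linarith)).trans hH
  obtain ⟨g, hg, hg2⟩ := h1 x hx1 Q (fun p hp => (hQ p hp).1)
  refine ⟨⟨g, hg, fun H hH1 hH2 i hi1 hi2 => hg2 H (hK H hH1).1 hH2 i hi1 hi2⟩, fun H hH1 hH2 => ⟨?_, ?_⟩⟩
  · exact h2 x hx2 H (hK H hH1).2.1 hH2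
  · exact h3 x hx3 Q hQ r hr H (hK H hH1).2.2 hH2

end Pool.Agent.H6.AE
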