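import Pool.Agent.H6.MF.FMO

/-!
# T1j: the mean number of prime `k`-tuples in `[1,H]` (lower bound by convexity)

`∑_{E ⊆ [1,H], |E| = k} cnt x E = ∑_{n ≤ x} C(t_n, k)`, `t_n = win 0 H n`, `C(t,k) ≥ (t - k)^k / k!` and the power mean inequality.
-/

set_option autoImplicit false

namespace Pool.Agent.H6.AE

open Finset Pool.Agent.H6.MF

lemma JEN_choose (x : ℝ) (H k : ℕ) :
    ∑ E ∈ Finset.powersetCard k (Finset.Icc 1 (H : ℤ)), (cnt x E : ℝ) =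
      ∑ n ∈ Finset.range (⌊x⌋₊ + 1), (((win 0 (H : ℤ) (n : ℤ)).choose k : ℕ) : ℝ) := by
  classical
  have hI : Finset.Icc 1 (H : ℤ) = Finset.Ioc 0 (H : ℤ) := by
    ext i
    simp only [Finset.mem_Icc, Finset.mem_Ioc]
    omega
  rw [hI]
  have h1 : ∀ E : Finset ℤ, (cnt x E : ℝ) =
      ∑ n ∈ Finset.range (⌊x⌋₊ + 1), if (∀ h ∈ E, isP ((n : ℤ) - h)) then (1 : ℝ) else 0 := by
    intro E
    unfold cnt
    rw [Finset.card_filter]
    push_cast
    rfl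
  simp only [h1]
  rw [Finset.sum_comm]
  refine Finset.sum_congr rfl fun n _ => ?_
  obtain ⟨J, hJ⟩ : ∃ J, J = (Finset.Ioc 0 (H : ℤ)).filter (fun b => isP ((n : ℤ) - b)) := ⟨_, rfl⟩
  have h2 : win 0 (H : ℤ) (n : ℤ) = J.card := by
    rw [hJ]
    rfl
  rw [h2, ← Finset.card_powersetCard, Finset.card_eq_sum_ones, ← Finset.sum_filter]
  push_cast
  refine Finset.sum_congr ?_ fun _ _ => rfl
  ext E
  rw [Finset.mem_filter, Finset.mem_powersetCard, Finset.mem_powersetCard]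
  constructor
  · rintro ⟨⟨h3, h4⟩, h5⟩
    refine ⟨fun a ha => ?_, h4⟩
    rw [hJ, Finset.mem_filter]
    exact ⟨h3 ha, h5 a ha⟩
  · rintro ⟨h3, h4⟩
    refine ⟨⟨fun a ha => ?_, h4⟩, fun a ha => ?_⟩
    · have := h3 ha
      rw [hJ, Finset.mem_filter] at this
      exact this.1
    · have := h3 ha
      rw [hJ, Finset.mem_filter] at this
      exact this.2

lemma JEN_e (k : ℕ) (ε : ℝ) (hε : 0 < ε) : ∃ e : ℝ, 0 < e ∧ e ≤ 1 / 4 ∧
    (1 - ε) * (1 + e) ^ k ≤ (1 - 2 * e) ^ (k + 1) := by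
  have hcont : Filter.Tendsto (fun e : ℝ => (1 - 2 * e) ^ (k + 1) - (1 - ε) * (1 + e) ^ k)
      (nhds 0) (nhds ((1 - 2 * 0) ^ (k + 1) - (1 - ε) * (1 + 0) ^ k)) := by
    apply Continuous.tendsto
    fun_prop
  have h0 : (1 - 2 * 0 : ℝ) ^ (k + 1) - (1 - ε) * (1 + 0) ^ k = ε := by
    norm_num
  rw [h0] at hcont
  have h1 := hcont.eventually (lt_mem_nhds hε)
  obtain ⟨δ, hδ, h2⟩ := Metric.eventually_nhds_iff.1 h1
  refine ⟨min (δ / 2) (1 / 4), lt_min (by positivity) (by norm_num), min_le_right _ _, ?_⟩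
  have h3 : 0 < min (δ / 2) (1 / 4 : ℝ) := lt_min (by positivity) (by norm_num)
  have h4 : dist (min (δ / 2) (1 / 4 : ℝ)) 0 < δ := by
    rw [Real.dist_eq, sub_zero, abs_of_pos h3]
    exact lt_of_le_of_lt (min_le_left _ _) (by linarith)
  have := h2 h4
  linarith

theorem JEN (k : ℕ) (ε : ℝ) (hε : 0 < ε) : ∃ K X : ℝ, 1 ≤ K ∧ ∀ x : ℝ, X ≤ x → ∀ H : ℕ, K * Real.log x ≤ (H : ℝ) →
    (H : ℝ) ≤ (Real.log x) ^ 2 →
    (1 - ε) * ((H : ℝ) ^ (k + 1) / ((k + 1).factorial : ℝ)) ≤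
      ∑ E ∈ Finset.powersetCard (k + 1) (Finset.Icc 1 (H : ℤ)), (Real.log x) ^ (k + 1) * (cnt x E : ℝ) / x := by
  obtain ⟨e, he0, he1, he⟩ := JEN_e k ε hε
  obtain ⟨X1, h1⟩ := FMO 2 e he0
  refine ⟨max 1 ((k : ℝ) * (1 + e) / e), max X1 (max (Real.exp 1) (1 / e)), le_max_left _ _, fun x hx H hH1 hH2 => ?_⟩
  simp only [max_le_iff] at hx
  obtain ⟨hx1, hxe, hxe2⟩ := hx
  have hx0 : 0 < x := (Real.exp_pos 1).trans_le hxe
  have hL : 1 ≤ Real.log x := (Real.le_log_iff_exp_le hx0).2 hxe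
  obtain ⟨L, hLd⟩ : ∃ L, L = Real.log x := ⟨_, rfl⟩
  have h2 := h1 x hx1 0 (H : ℤ) (by rw [Int.cast_zero, abs_zero]; positivity) (by
    rw [Int.cast_natCast, abs_of_nonneg (Nat.cast_nonneg H)]
    have : 0 ≤ (Real.log x) ^ 2 := by positivity
    linarith) (by positivity)
  rw [← hLd] at hL hH1 hH2 h2 ⊢
  have hL0 : 0 < L := by linarith
  have hf : (0 : ℝ) < ((k + 1).factorial : ℝ) := by exact_mod_cast Nat.factorial_pos _
  obtain ⟨N, hN⟩ : ∃ N : ℕ, N = ⌊x⌋₊ + 1 := ⟨_, rfl⟩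
  have hNx : (N : ℝ) ≤ (1 + e) * x := by
    have h3 := Nat.floor_le hx0.le
    have h4 : 1 ≤ x * e := (div_le_iff₀ he0).1 hxe2
    rw [hN]
    push_cast
    linarith
  have hN0 : (0 : ℝ) < N := by
    rw [hN]
    push_cast
    positivity
  rw [← hN] at h2
  -- the shifted counts
  obtain ⟨f, hfd⟩ : ∃ f : ℕ → ℝ, f = fun n : ℕ => ((win 0 (H : ℤ) (n : ℤ) - k : ℕ) : ℝ) := ⟨_, rfl⟩
  have hf0 : ∀ n ∈ Finset.range N, 0 ≤ f n := fun n _ => by
    rw [hfd]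
    exact Nat.cast_nonneg _
  have hfs : (1 - 2 * e) * ((H : ℝ) / L * x) ≤ ∑ n ∈ Finset.range N, f n := by
    have h3 : ∑ n ∈ Finset.range N, ((win 0 (H : ℤ) (n : ℤ) : ℝ) - k) ≤ ∑ n ∈ Finset.range N, f n := by
      refine Finset.sum_le_sum fun n _ => ?_
      rw [hfd]
      show (win 0 (H : ℤ) (n : ℤ) : ℝ) - k ≤ ((win 0 (H : ℤ) (n : ℤ) - k : ℕ) : ℝ)
      have h4 : win 0 (H : ℤ) (n : ℤ) ≤ (win 0 (H : ℤ) (n : ℤ) - k) + k := by omega
      have h5 : (win 0 (H : ℤ) (n : ℤ) : ℝ) ≤ ((win 0 (H : ℤ) (n : ℤ) - k : ℕ) : ℝ) + k := by exact_mod_cast h4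
      linarith
    refine le_trans ?_ h3
    rw [Finset.sum_sub_distrib, Finset.sum_const, Finset.card_range, nsmul_eq_mul]
    have h4 := (abs_le.1 h2).1
    rw [Int.cast_zero, Int.cast_natCast, sub_zero] at h4
    have h5 : (N : ℝ) * k ≤ e * ((H : ℝ) / L * x) := by
      have h6 : (k : ℝ) * (1 + e) / e * L ≤ H := (mul_le_mul_of_nonneg_right (le_max_right _ _) hL0.le).trans hH1
      have h7 : (k : ℝ) * (1 + e) / e ≤ H / L := (le_div_iff₀ hL0).2 h6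
      have h8 : (k : ℝ) * (1 + e) ≤ e * (H / L) := by
        rw [div_le_iff₀ he0] at h7
        linarith
      calc (N : ℝ) * k ≤ (1 + e) * x * k := mul_le_mul_of_nonneg_right hNx (Nat.cast_nonneg k)
        _ = (k : ℝ) * (1 + e) * x := by ring
        _ ≤ e * (H / L) * x := mul_le_mul_of_nonneg_right h8 hx0.le
        _ = _ := by ring
    have h9 : (H : ℝ) * x / L = (H : ℝ) / L * x := by ring
    rw [h9] at h4
    linarith
  have hHL : 0 ≤ (H : ℝ) / L * x := by positivity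
  have hpow := pow_sum_div_card_le_sum_pow hf0 k
  rw [Finset.card_range] at hpow
  have h10 : ∑ n ∈ Finset.range N, f n ^ (k + 1) / ((k + 1).factorial : ℝ) ≤
      ∑ E ∈ Finset.powersetCard (k + 1) (Finset.Icc 1 (H : ℤ)), (cnt x E : ℝ) := by
    rw [JEN_choose, ← hN]
    refine Finset.sum_le_sum fun n _ => ?_
    have h11 := Nat.pow_le_choose (α := ℝ) (k + 1) (win 0 (H : ℤ) (n : ℤ))
    rw [Nat.add_sub_add_right] at h11
    rw [hfd]
    exact h11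
  rw [← Finset.sum_div] at h10
  have h12 : (1 - ε) * ((H : ℝ) / L) ^ (k + 1) * x ≤ ∑ n ∈ Finset.range N, f n ^ (k + 1) := by
    refine le_trans ?_ hpow
    rw [le_div_iff₀ (pow_pos hN0 k)]
    have h13 : ((1 - 2 * e) * ((H : ℝ) / L * x)) ^ (k + 1) ≤ (∑ n ∈ Finset.range N, f n) ^ (k + 1) :=
      pow_le_pow_left₀ (mul_nonneg (by linarith) hHL) hfs _
    refine le_trans ?_ h13
    rcases le_or_gt (1 - ε) 0 with hneg | hpos
    · have h14 : (1 - ε) * ((H : ℝ) / L) ^ (k + 1) * x * (N : ℝ) ^ k ≤ 0 := by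
        have : 0 ≤ ((H : ℝ) / L) ^ (k + 1) * x * (N : ℝ) ^ k := by positivity
        have h15 : (1 - ε) * ((H : ℝ) / L) ^ (k + 1) * x * (N : ℝ) ^ k =
            (1 - ε) * (((H : ℝ) / L) ^ (k + 1) * x * (N : ℝ) ^ k) := by ring
        rw [h15]
        exact mul_nonpos_of_nonpos_of_nonneg hneg this
      exact h14.trans (pow_nonneg (mul_nonneg (by linarith) hHL) _)
    · have h14 : (N : ℝ) ^ k ≤ ((1 + e) * x) ^ k := pow_le_pow_left₀ hN0.le hNx k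
      calc (1 - ε) * ((H : ℝ) / L) ^ (k + 1) * x * (N : ℝ) ^ k
          ≤ (1 - ε) * ((H : ℝ) / L) ^ (k + 1) * x * ((1 + e) * x) ^ k :=
            mul_le_mul_of_nonneg_left h14 (by positivity)
        _ = (1 - ε) * (1 + e) ^ k * (((H : ℝ) / L) ^ (k + 1) * x ^ (k + 1)) := by
            rw [mul_pow, pow_succ x k]
            ring
        _ ≤ (1 - 2 * e) ^ (k + 1) * (((H : ℝ) / L) ^ (k + 1) * x ^ (k + 1)) :=
            mul_le_mul_of_nonneg_right he (by positivity)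
        _ = _ := by
            rw [mul_pow, mul_pow]
  rw [← Finset.sum_div, ← Finset.mul_sum, le_div_iff₀ hx0]
  have h16 : (1 - ε) * ((H : ℝ) / L) ^ (k + 1) * x / ((k + 1).factorial : ℝ) ≤
      ∑ E ∈ Finset.powersetCard (k + 1) (Finset.Icc 1 (H : ℤ)), (cnt x E : ℝ) :=
    (div_le_div_of_nonneg_right h12 hf.le).trans h10
  calc (1 - ε) * ((H : ℝ) ^ (k + 1) / ((k + 1).factorial : ℝ)) * x
      = L ^ (k + 1) * ((1 - ε) * ((H : ℝ) / L) ^ (k + 1) * x / ((k + 1).factorial : ℝ)) := by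
        rw [div_pow]
        field_simp
    _ ≤ _ := mul_le_mul_of_nonneg_left h16 (by positivity)

end Pool.Agent.H6.AE
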