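import Pool.Agent.H6.AE.Sgm
import Pool.Agent.H6.MF.BAS
import Pool.Agent.H6.MF.FMO
import Pool.Agent.H12.DM.Bb

/-!
# T1t: from sets `{0} ∪ D` to sets `E ⊆ [1,H]`

`TRE`: a sum over the `(k+1)`-subsets `E` of `[1,H]` of a function of the translation class is at most `H` times the sum over the
`k`-subsets `D` of `[1,H]` (of `{0} ∪ D`). `SgE`: the truncated singular series and the singular series. `GalE`: the mean of the singular
series over the `k`-subsets of `[1,H]` is at most `1 + ε`. `JEN`: the mean of the prime `k`-tuples over the `k`-subsets is at least `1 - ε`.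
-/

set_option autoImplicit false

namespace Pool.Agent.H6.AE

open Finset Pool.Agent.H17 Pool.Agent.H6.MF Pool.Agent.H6.MB Pool.Agent.H12.DM

lemma tr_tr_neg (s : Finset ℤ) (a : ℤ) : tr (tr s (-a)) a = s := by
  unfold tr
  rw [Finset.image_image]
  have : ((fun h : ℤ => h + a) ∘ fun h : ℤ => h + -a) = id := by
    funext h
    simp
  rw [this, Finset.image_id]

theorem TRE (H k : ℕ) (F G : Finset ℤ → ℝ) (hG : ∀ s, 0 ≤ G s)
    (hFG : ∀ E : Finset ℤ, ∀ a ∈ E, 1 ≤ a → F E ≤ G (tr E (-a))) :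
    ∑ E ∈ Finset.powersetCard (k + 1) (Finset.Icc 1 (H : ℤ)), F E ≤
      (H : ℝ) * ∑ D ∈ Finset.powersetCard k (Finset.Icc 1 (H : ℤ)), G (insert 0 D) := by
  classical
  obtain ⟨P, hP⟩ : ∃ P, P = Finset.powersetCard (k + 1) (Finset.Icc 1 (H : ℤ)) := ⟨_, rfl⟩
  obtain ⟨Q, hQ⟩ : ∃ Q, Q = Finset.powersetCard k (Finset.Icc 1 (H : ℤ)) := ⟨_, rfl⟩
  rw [← hP, ← hQ]
  have hne : ∀ E ∈ P, E.Nonempty := by
    intro E hE
    rw [hP, Finset.mem_powersetCard] at hE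
    rw [← Finset.card_pos]
    omega
  let m : Finset ℤ → ℤ := fun E => if h : E.Nonempty then E.min' h else 0
  have hm1 : ∀ E ∈ P, m E ∈ E ∧ ∀ b ∈ E, m E ≤ b := by
    intro E hE
    have h := hne E hE
    have hmE : m E = E.min' h := dif_pos h
    rw [hmE]
    exact ⟨E.min'_mem h, fun b hb => E.min'_le b hb⟩
  let i : Finset ℤ → ℤ × Finset ℤ := fun E => (m E, (tr E (-(m E))).erase 0)
  have h0 : ∀ E ∈ P, insert 0 (i E).2 = tr E (-(m E)) := by
    intro E hE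
    show insert 0 ((tr E (-(m E))).erase 0) = _
    refine Finset.insert_erase ?_
    unfold tr
    rw [Finset.mem_image]
    exact ⟨m E, (hm1 E hE).1, by ring⟩
  have hinj : Set.InjOn i P := by
    intro E hE E' hE' h
    have h1 : m E = m E' := congrArg Prod.fst h
    have h2 : (i E).2 = (i E').2 := congrArg Prod.snd h
    have h3 : tr E (-(m E)) = tr E' (-(m E')) := by
      rw [← h0 E hE, ← h0 E' hE', h2]
    have h4 : tr (tr E (-(m E))) (m E) = tr (tr E' (-(m E'))) (m E') := by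
      rw [h3, h1]
    rwa [tr_tr_neg, tr_tr_neg] at h4
  have hmap : ∀ E ∈ P, i E ∈ Finset.Icc 1 (H : ℤ) ×ˢ Q := by
    intro E hE
    have h1 := hm1 E hE
    have h2 := h0 E hE
    rw [hP, Finset.mem_powersetCard] at hE
    have h3 := hE.1 h1.1
    rw [Finset.mem_product]
    refine ⟨h3, ?_⟩
    rw [hQ, Finset.mem_powersetCard]
    have hmem : (0 : ℤ) ∈ tr E (-(m E)) := by
      unfold tr
      rw [Finset.mem_image]
      exact ⟨m E, h1.1, by ring⟩
    constructor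
    · intro b hb
      show b ∈ Finset.Icc 1 (H : ℤ)
      have hb' : b ∈ (tr E (-(m E))).erase 0 := hb
      rw [Finset.mem_erase] at hb'
      obtain ⟨hb0, hb1⟩ := hb'
      unfold tr at hb1
      rw [Finset.mem_image] at hb1
      obtain ⟨c, hc, rfl⟩ := hb1
      have h4 := h1.2 c hc
      have h5 := hE.1 hc
      rw [Finset.mem_Icc] at h5 h3 ⊢
      constructor <;> omega
    · show ((tr E (-(m E))).erase 0).card = k
      rw [Finset.card_erase_of_mem hmem, card_tr, hE.2]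
      rfl
  have hle : ∑ E ∈ P, F E ≤ ∑ E ∈ P, G (insert 0 (i E).2) := by
    refine Finset.sum_le_sum fun E hE => ?_
    rw [h0 E hE]
    refine hFG E (m E) (hm1 E hE).1 ?_
    have h1 := (hm1 E hE).1
    rw [hP, Finset.mem_powersetCard] at hE
    exact (Finset.mem_Icc.1 (hE.1 h1)).1
  refine hle.trans ?_
  have h5 : ∑ E ∈ P, G (insert 0 (i E).2) = ∑ q ∈ P.image i, G (insert 0 q.2) := by
    rw [Finset.sum_image hinj]
  rw [h5]
  have h6 : ∑ q ∈ P.image i, G (insert 0 q.2) ≤ ∑ q ∈ Finset.Icc 1 (H : ℤ) ×ˢ Q, G (insert 0 q.2) := by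
    refine Finset.sum_le_sum_of_subset_of_nonneg ?_ fun q _ _ => hG _
    intro q hq
    rw [Finset.mem_image] at hq
    obtain ⟨E, hE, rfl⟩ := hq
    exact hmap E hE
  refine h6.trans (le_of_eq ?_)
  rw [Finset.sum_product]
  show ∑ _x ∈ Finset.Icc 1 (H : ℤ), ∑ D ∈ Q, G (insert 0 D) = _
  rw [Finset.sum_const, Int.card_Icc, nsmul_eq_mul]
  have h7 : (((H : ℤ) + 1 - 1).toNat : ℝ) = (H : ℝ) := by
    congr 1
    omega
  rw [h7]

lemma loc_tr (s : Finset ℤ) (r : ℤ) (p : ℕ) : loc (tr s r) p = loc s p := by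
  unfold loc
  rw [nuH_tr, card_tr]

lemma Sy_tr (y : ℕ) (s : Finset ℤ) (r : ℤ) : Sy y (tr s r) = Sy y s := by
  rw [Sy_eq, Sy_eq]
  exact Finset.prod_congr rfl fun p _ => loc_tr s r p

theorem SgE (k : ℕ) : ∃ C : ℝ, 0 < C ∧ ∀ y : ℕ, 1 ≤ y → ∃ X : ℝ, ∀ x : ℝ, X ≤ x → ∀ H : ℕ,
    Real.log x ≤ (H : ℝ) → (H : ℝ) ≤ 4 * (Real.log x) ^ 2 → ∀ y' : ℕ, y ≤ y' →
    ∑ E ∈ Finset.powersetCard (k + 1) (Finset.Icc 1 (H : ℤ)), |Sy y' E - sing E|
      ≤ C / Real.sqrt (y : ℝ) * (H : ℝ) ^ (k + 1) := by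
  obtain ⟨C, hC, h⟩ := Sgm k
  refine ⟨C, hC, fun y hy => ?_⟩
  obtain ⟨X, hX⟩ := h y hy
  refine ⟨X, fun x hx H hH1 hH2 y' hy' => ?_⟩
  have h1 := hX x hx H hH1 hH2 y' hy'
  have h2 := TRE H k (fun E => |Sy y' E - sing E|) (fun E => |Sy y' E - sing E|) (fun _ => abs_nonneg _)
    (fun E a _ _ => by simp only [Sy_tr, sing_tr]; exact le_rfl)
  refine h2.trans ?_
  calc (H : ℝ) * ∑ D ∈ Finset.powersetCard k (Finset.Icc 1 (H : ℤ)), |Sy y' (insert 0 D) - sing (insert 0 D)|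
      ≤ (H : ℝ) * (C / Real.sqrt (y : ℝ) * (H : ℝ) ^ k) := mul_le_mul_of_nonneg_left h1 (Nat.cast_nonneg _)
    _ = C / Real.sqrt (y : ℝ) * (H : ℝ) ^ (k + 1) := by ring

/-- the `k`-th elementary symmetric function of the values `Mm y (t - h)`, `h ∈ I` -/
lemma Mm_esymm (y : ℕ) (t : ℤ) (k : ℕ) (I : Finset ℤ) :
    ∑ E ∈ Finset.powersetCard k I, ∏ h ∈ E, Mm y (t - h) ≤ (∑ h ∈ I, Mm y (t - h)) ^ k / (k.factorial : ℝ) := by
  classical
  obtain ⟨J, hJ⟩ : ∃ J, J = I.filter (fun h => Int.gcd (t - h) (WW y : ℤ) = 1) := ⟨_, rfl⟩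
  have h1 : ∑ h ∈ I, Mm y (t - h) = (J.card : ℝ) * wp y := by
    unfold Mm
    rw [← Finset.sum_filter, Finset.sum_const, nsmul_eq_mul, hJ]
  have h2 : ∑ E ∈ Finset.powersetCard k I, ∏ h ∈ E, Mm y (t - h) =
      ∑ E ∈ Finset.powersetCard k J, wp y ^ k := by
    have h3 : Finset.powersetCard k J ⊆ Finset.powersetCard k I := Finset.powersetCard_mono (by
      rw [hJ]; exact Finset.filter_subset _ _)
    rw [← Finset.sum_subset h3 (f := fun E => ∏ h ∈ E, Mm y (t - h))]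
    · refine Finset.sum_congr rfl fun E hE => ?_
      rw [Finset.mem_powersetCard] at hE
      rw [← hE.2, ← Finset.prod_const]
      refine Finset.prod_congr rfl fun h hh => ?_
      have := hE.1 hh
      rw [hJ, Finset.mem_filter] at this
      unfold Mm
      rw [if_pos this.2]
    · intro E hE hE'
      rw [Finset.mem_powersetCard] at hE
      have h4 : ¬ E ⊆ J := fun h => hE' (Finset.mem_powersetCard.2 ⟨h, hE.2⟩)
      rw [Finset.not_subset] at h4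
      obtain ⟨a, ha, haJ⟩ := h4
      refine Finset.prod_eq_zero ha ?_
      unfold Mm
      rw [if_neg]
      intro h
      exact haJ (by rw [hJ, Finset.mem_filter]; exact ⟨hE.1 ha, h⟩)
  rw [h2, h1, Finset.sum_const, Finset.card_powersetCard, nsmul_eq_mul, mul_pow]
  have h5 : ((J.card.choose k : ℕ) : ℝ) ≤ (J.card : ℝ) ^ k / (k.factorial : ℝ) := Nat.choose_le_pow_div k J.card
  have h6 : 0 ≤ wp y ^ k := by
    refine pow_nonneg ?_ k
    exact (Mm_nonneg y 1).trans (Mm_le y 1)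
  calc (J.card.choose k : ℝ) * wp y ^ k ≤ (J.card : ℝ) ^ k / (k.factorial : ℝ) * wp y ^ k :=
        mul_le_mul_of_nonneg_right h5 h6
    _ = _ := by ring

lemma Sy_sumE (y k H : ℕ) :
    ∑ E ∈ Finset.powersetCard k (Finset.Icc 1 (H : ℤ)), Sy y E ≤ ((H : ℝ) + WW y) ^ k / (k.factorial : ℝ) := by
  unfold Sy avgP
  rw [← Finset.sum_div, Finset.sum_comm, div_le_iff₀ (WW_pos_real y)]
  have h1 : ∀ t ∈ Finset.range (WW y), ∑ E ∈ Finset.powersetCard k (Finset.Icc 1 (H : ℤ)), ∏ h ∈ E, Mm y ((t : ℤ) - h) ≤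
      ((H : ℝ) + WW y) ^ k / (k.factorial : ℝ) := by
    intro t _
    refine (Mm_esymm y t k _).trans ?_
    refine div_le_div_of_nonneg_right ?_ (by positivity)
    refine pow_le_pow_left₀ (Finset.sum_nonneg fun h _ => Mm_nonneg y _) ?_ k
    have := (abs_le.1 (Bb_win y H t)).2
    linarith
  refine (Finset.sum_le_sum h1).trans (le_of_eq ?_)
  rw [Finset.sum_const, Finset.card_range, nsmul_eq_mul]
  ring

/-- the mean of the singular series over the `(k+1)`-subsets of `[1,H]` -/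
theorem GalE (k : ℕ) (ε : ℝ) (hε : 0 < ε) : ∃ X : ℝ, ∀ x : ℝ, X ≤ x → ∀ H : ℕ,
    Real.log x ≤ (H : ℝ) → (H : ℝ) ≤ 4 * (Real.log x) ^ 2 →
    ∑ E ∈ Finset.powersetCard (k + 1) (Finset.Icc 1 (H : ℤ)), sing E ≤ (1 + ε) * ((H : ℝ) ^ (k + 1) / ((k + 1).factorial : ℝ)) := by
  obtain ⟨C, hC, h⟩ := SgE k
  have hf : (0 : ℝ) < ((k + 1).factorial : ℝ) := by exact_mod_cast Nat.factorial_pos _
  obtain ⟨y, hy1, hy⟩ : ∃ y : ℕ, 1 ≤ y ∧ C / Real.sqrt (y : ℝ) ≤ ε / (2 * ((k + 1).factorial : ℝ)) := by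
    have h1 : Filter.Tendsto (fun y : ℕ => C / Real.sqrt (y : ℝ)) Filter.atTop (nhds 0) := by
      refine Filter.Tendsto.div_atTop tendsto_const_nhds ?_
      exact Real.tendsto_sqrt_atTop.comp tendsto_natCast_atTop_atTop
    have h2 := h1.eventually (gt_mem_nhds (show (0 : ℝ) < ε / (2 * ((k + 1).factorial : ℝ)) by positivity))
    obtain ⟨y0, h3⟩ := Filter.eventually_atTop.1 h2
    exact ⟨max y0 1, le_max_right _ _, (h3 (max y0 1) (le_max_left _ _)).le⟩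
  obtain ⟨X, hX⟩ := h y hy1
  obtain ⟨Z, hZ⟩ : ∃ Z : ℝ, ∀ t : ℝ, Z ≤ t → (1 + (WW y : ℝ) / t) ^ (k + 1) ≤ 1 + ε / 2 := by
    have h1 : Filter.Tendsto (fun t : ℝ => (1 + (WW y : ℝ) / t) ^ (k + 1)) Filter.atTop (nhds ((1 + 0) ^ (k + 1))) := by
      refine Filter.Tendsto.pow ?_ _
      refine Filter.Tendsto.const_add _ ?_
      exact Filter.Tendsto.div_atTop tendsto_const_nhds Filter.tendsto_id
    rw [add_zero, one_pow] at h1
    have h2 := h1.eventually (gt_mem_nhds (show (1 : ℝ) < 1 + ε / 2 by linarith))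
    obtain ⟨Z, h3⟩ := Filter.eventually_atTop.1 h2
    exact ⟨Z, fun t ht => (h3 t ht).le⟩
  refine ⟨max X (Real.exp (max Z 1)), fun x hx H hH1 hH2 => ?_⟩
  rw [max_le_iff] at hx
  have hx0 : 0 < x := (Real.exp_pos _).trans_le hx.2
  have hL : max Z 1 ≤ Real.log x := (Real.le_log_iff_exp_le hx0).2 hx.2
  rw [max_le_iff] at hL
  have hH0 : (0 : ℝ) < H := by linarith [hL.2]
  have h1 := hX x hx.1 H hH1 hH2 y le_rfl
  have h2 := Sy_sumE y (k + 1) H
  have h3 : ((H : ℝ) + WW y) ^ (k + 1) ≤ (1 + ε / 2) * (H : ℝ) ^ (k + 1) := by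
    have h4 : (H : ℝ) + WW y = (1 + (WW y : ℝ) / H) * H := by
      field_simp
    rw [h4, mul_pow]
    exact mul_le_mul_of_nonneg_right (hZ H (hL.1.trans hH1)) (by positivity)
  have h5 : ∑ E ∈ Finset.powersetCard (k + 1) (Finset.Icc 1 (H : ℤ)), sing E ≤
      ∑ E ∈ Finset.powersetCard (k + 1) (Finset.Icc 1 (H : ℤ)), Sy y E +
      ∑ E ∈ Finset.powersetCard (k + 1) (Finset.Icc 1 (H : ℤ)), |Sy y E - sing E| := by
    rw [← Finset.sum_add_distrib]
    refine Finset.sum_le_sum fun E _ => ?_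
    have := neg_abs_le (Sy y E - sing E)
    linarith
  have h6 : C / Real.sqrt (y : ℝ) * (H : ℝ) ^ (k + 1) ≤ ε / (2 * ((k + 1).factorial : ℝ)) * (H : ℝ) ^ (k + 1) :=
    mul_le_mul_of_nonneg_right hy (by positivity)
  have h7 : ((H : ℝ) + WW y) ^ (k + 1) / ((k + 1).factorial : ℝ) ≤ (1 + ε / 2) * (H : ℝ) ^ (k + 1) / ((k + 1).factorial : ℝ) :=
    div_le_div_of_nonneg_right h3 hf.le
  calc _ ≤ (1 + ε / 2) * (H : ℝ) ^ (k + 1) / ((k + 1).factorial : ℝ) +
        ε / (2 * ((k + 1).factorial : ℝ)) * (H : ℝ) ^ (k + 1) := by linarith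
    _ = _ := by
      field_simp
      ring

end Pool.Agent.H6.AE
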