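import Pool.Agent.H6.AE.T1a
import Pool.Agent.H6.AE.T1t
import Pool.Agent.H6.AE.T1j

/-!
# T1b: the upper bound for almost all tuples and a positive proportion of tuples with `R ≥ 1 - h`

From `T1a` (sum form), `sing_lower` (Markov), `TRE` (translation), `GalE` and `JEN` (means).
-/

set_option autoImplicit false

namespace Pool.Agent.H6.AE

open Finset Pool.Agent.H17 Pool.Agent.H6.MF Pool.Agent.H6.MB

/-- almost all tuples -/
theorem T1b (j : ℕ) (ε : ℝ) (hε : 0 < ε) : ∃ K X : ℝ, 1 ≤ K ∧ ∀ x : ℝ, X ≤ x → ∀ H : ℕ, K * Real.log x ≤ (H : ℝ) →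
    (H : ℝ) ≤ (Real.log x) ^ 2 →
    (((Finset.powersetCard (j + 1) (Finset.Icc 1 (H : ℤ))).filter (fun D => sing (insert 0 D) ≠ 0 ∧
      (4 ^ (j + 1) + ε) * (sing (insert 0 D) * x / (Real.log x) ^ (j + 2)) < (cnt x (insert 0 D) : ℝ))).card : ℝ)
      ≤ ε * (H : ℝ) ^ (j + 1) := by
  classical
  obtain ⟨c, hc, hcl⟩ := sing_lower (j + 2)
  obtain ⟨K, X, hK, hX⟩ := T1a j (ε * (ε * c)) (by positivity)
  refine ⟨K, max X (Real.exp 1), hK, fun x hx H hH1 hH2 => ?_⟩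
  rw [max_le_iff] at hx
  have hx0 : 0 < x := (Real.exp_pos 1).trans_le hx.2
  have hL : 1 ≤ Real.log x := (Real.le_log_iff_exp_le hx0).2 hx.2
  have h1 := hX x hx.1 H hH1 hH2
  obtain ⟨P, hP⟩ : ∃ P, P = Finset.powersetCard (j + 1) (Finset.Icc 1 (H : ℤ)) := ⟨_, rfl⟩
  rw [← hP] at h1 ⊢
  obtain ⟨A, hA⟩ : ∃ A, A = P.filter (fun D => sing (insert 0 D) ≠ 0 ∧
      (4 ^ (j + 1) + ε) * (sing (insert 0 D) * x / (Real.log x) ^ (j + 2)) < (cnt x (insert 0 D) : ℝ)) := ⟨_, rfl⟩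
  rw [← hA]
  have h2 : (A.card : ℝ) * (ε * c) ≤ ε * (ε * c) * (H : ℝ) ^ (j + 1) := by
    refine le_trans ?_ h1
    rw [← nsmul_eq_mul, ← Finset.sum_const]
    refine le_trans ?_ (Finset.sum_le_sum_of_subset_of_nonneg (s := A) (by
      rw [hA]; exact Finset.filter_subset _ _) fun D _ _ => le_max_left _ _)
    refine Finset.sum_le_sum fun D hD => ?_
    rw [hA, Finset.mem_filter, hP, Finset.mem_powersetCard] at hD
    obtain ⟨⟨hD1, hD2⟩, hs, hlt⟩ := hD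
    have h0D : (0 : ℤ) ∉ D := by
      intro h
      have := hD1 h
      rw [Finset.mem_Icc] at this
      omega
    have hcs : c ≤ sing (insert 0 D) := hcl _ (by rw [Finset.card_insert_of_notMem h0D, hD2]) ((sing_ne_zero_iff _).1 hs)
    refine le_trans ?_ (le_max_right _ _)
    have hLp : 0 < (Real.log x) ^ (j + 2) := by positivity
    have h3 : (4 ^ (j + 1) + ε) * sing (insert 0 D) < (Real.log x) ^ (j + 2) * (cnt x (insert 0 D) : ℝ) / x := by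
      rw [lt_div_iff₀ hx0]
      calc (4 ^ (j + 1) + ε) * sing (insert 0 D) * x =
          (Real.log x) ^ (j + 2) * ((4 ^ (j + 1) + ε) * (sing (insert 0 D) * x / (Real.log x) ^ (j + 2))) := by
            field_simp
        _ < _ := mul_lt_mul_of_pos_left hlt hLp
    have h4 : ε * c ≤ ε * sing (insert 0 D) := mul_le_mul_of_nonneg_left hcs hε.le
    linarith
  have h5 : 0 < ε * c := by positivity
  nlinarith

/-- the sum form for sets `E ⊆ [1,H]` -/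
theorem T1E (j : ℕ) (ε : ℝ) (hε : 0 < ε) : ∃ K X : ℝ, 1 ≤ K ∧ ∀ x : ℝ, X ≤ x → ∀ H : ℕ, K * Real.log x ≤ (H : ℝ) →
    (H : ℝ) ≤ (Real.log x) ^ 2 →
    ∑ E ∈ Finset.powersetCard (j + 2) (Finset.Icc 1 (H : ℤ)),
      max 0 ((Real.log x) ^ (j + 2) * (cnt x E : ℝ) / x - 4 ^ (j + 1) * sing E)
      ≤ ε * (H : ℝ) ^ (j + 2) := by
  obtain ⟨K, X, hK, hX⟩ := T1a j ε hε
  refine ⟨K, max X (Real.exp 1), hK, fun x hx H hH1 hH2 => ?_⟩
  rw [max_le_iff] at hx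
  have hx0 : 0 < x := (Real.exp_pos 1).trans_le hx.2
  have hL : 1 ≤ Real.log x := (Real.le_log_iff_exp_le hx0).2 hx.2
  have h1 := hX x hx.1 H hH1 hH2
  have h2 := TRE H (j + 1) (fun E => max 0 ((Real.log x) ^ (j + 2) * (cnt x E : ℝ) / x - 4 ^ (j + 1) * sing E))
    (fun E => max 0 ((Real.log x) ^ (j + 2) * (cnt x E : ℝ) / x - 4 ^ (j + 1) * sing E)) (fun _ => le_max_left _ _)
    (fun E a ha ha1 => by
      show max 0 ((Real.log x) ^ (j + 2) * (cnt x E : ℝ) / x - 4 ^ (j + 1) * sing E) ≤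
        max 0 ((Real.log x) ^ (j + 2) * (cnt x (tr E (-a)) : ℝ) / x - 4 ^ (j + 1) * sing (tr E (-a)))
      rw [sing_tr]
      refine max_le_max le_rfl (sub_le_sub_right ?_ _)
      refine div_le_div_of_nonneg_right (mul_le_mul_of_nonneg_left ?_ (by positivity)) hx0.le
      exact_mod_cast cnt_tr_le x E ha (by omega))
  refine h2.trans ?_
  calc _ ≤ (H : ℝ) * (ε * (H : ℝ) ^ (j + 1)) := mul_le_mul_of_nonneg_left h1 (Nat.cast_nonneg _)
    _ = _ := by ring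

/-- the mass of the tuples with `R ≥ 1 - h` -/
theorem T1c (j : ℕ) (ε : ℝ) (hε : 0 < ε) : ∃ K X : ℝ, 1 ≤ K ∧ ∀ x : ℝ, X ≤ x → ∀ H : ℕ, K * Real.log x ≤ (H : ℝ) →
    (H : ℝ) ≤ (Real.log x) ^ 2 → ∀ h : ℝ, 0 ≤ h → h ≤ 1 →
    (h - ε) * ((H : ℝ) ^ (j + 2) / ((j + 2).factorial : ℝ)) ≤ (4 ^ (j + 1) - 1 + h) *
      ∑ E ∈ (Finset.powersetCard (j + 2) (Finset.Icc 1 (H : ℤ))).filter (fun E =>
        (1 - h) * (sing E * x / (Real.log x) ^ (j + 2)) ≤ (cnt x E : ℝ)), sing E := by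
  classical
  have hf : (0 : ℝ) < ((j + 2).factorial : ℝ) := by exact_mod_cast Nat.factorial_pos _
  obtain ⟨K1, X1, hK1, hX1⟩ := T1E j (ε / (2 * ((j + 2).factorial : ℝ))) (by positivity)
  obtain ⟨X2, hX2⟩ := GalE (j + 1) (ε / 4) (by positivity)
  obtain ⟨K3, X3, hK3, hX3⟩ := JEN (j + 1) (ε / 4) (by positivity)
  refine ⟨max K1 K3, max (max X1 X2) (max X3 (Real.exp 1)), hK1.trans (le_max_left _ _), fun x hx H hH1 hH2 h hh0 hh1 => ?_⟩
  simp only [max_le_iff] at hx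
  obtain ⟨⟨hx1, hx2⟩, hx3, hxe⟩ := hx
  have hx0 : 0 < x := (Real.exp_pos 1).trans_le hxe
  have hL : 1 ≤ Real.log x := (Real.le_log_iff_exp_le hx0).2 hxe
  have hK1H : K1 * Real.log x ≤ H := (mul_le_mul_of_nonneg_right (le_max_left _ _) (by linarith)).trans hH1
  have hK3H : K3 * Real.log x ≤ H := (mul_le_mul_of_nonneg_right (le_max_right _ _) (by linarith)).trans hH1
  have hLH : Real.log x ≤ H := (le_mul_of_one_le_left (by linarith) hK1).trans hK1H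
  have h1 := hX1 x hx1 H hK1H hH2
  have h2 := hX2 x hx2 H hLH (by nlinarith [sq_nonneg (Real.log x)])
  have h3 := hX3 x hx3 H hK3H hH2
  obtain ⟨P, hP⟩ : ∃ P, P = Finset.powersetCard (j + 2) (Finset.Icc 1 (H : ℤ)) := ⟨_, rfl⟩
  obtain ⟨U, hU⟩ : ∃ U : ℝ, U = (H : ℝ) ^ (j + 2) / ((j + 2).factorial : ℝ) := ⟨_, rfl⟩
  have e1 : j + 1 + 1 = j + 2 := rfl
  rw [e1, ← hP, ← hU] at h2 h3
  rw [← hP] at h1 ⊢
  rw [← hU]
  have hU0 : 0 ≤ U := by
    rw [hU]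
    positivity
  have h1' : ε / (2 * ((j + 2).factorial : ℝ)) * (H : ℝ) ^ (j + 2) = ε / 2 * U := by
    rw [hU]
    field_simp
  rw [h1'] at h1
  obtain ⟨r, hr⟩ : ∃ r : Finset ℤ → ℝ, r = fun E => (Real.log x) ^ (j + 2) * (cnt x E : ℝ) / x := ⟨_, rfl⟩
  have hrE : ∀ E, (Real.log x) ^ (j + 2) * (cnt x E : ℝ) / x = r E := fun E => by rw [hr]
  simp only [hrE] at h1 h3
  obtain ⟨p, hp⟩ : ∃ p : Finset ℤ → Prop, p = fun E => (1 - h) * (sing E * x / (Real.log x) ^ (j + 2)) ≤ (cnt x E : ℝ) := ⟨_, rfl⟩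
  have hpp : ∑ E ∈ P.filter (fun E => (1 - h) * (sing E * x / (Real.log x) ^ (j + 2)) ≤ (cnt x E : ℝ)), sing E =
      ∑ E ∈ P.filter p, sing E := by
    rw [hp]
  rw [hpp]
  have hsplit_s := Finset.sum_filter_add_sum_filter_not P p sing
  have hsplit_r := Finset.sum_filter_add_sum_filter_not P p r
  obtain ⟨q, hq⟩ : ∃ q : ℝ, q = 4 ^ (j + 1) := ⟨_, rfl⟩
  rw [← hq] at h1 ⊢
  have hLp : 0 < (Real.log x) ^ (j + 2) := by positivity
  -- the good tuples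
  have hA : ∑ E ∈ P.filter p, r E ≤ q * ∑ E ∈ P.filter p, sing E + ε / 2 * U := by
    have h4 : ∑ E ∈ P.filter p, (r E - q * sing E) ≤ ε / 2 * U := by
      refine le_trans ?_ h1
      refine le_trans (Finset.sum_le_sum fun E _ => le_max_right 0 (r E - q * sing E)) ?_
      exact Finset.sum_le_sum_of_subset_of_nonneg (Finset.filter_subset _ _) fun E _ _ => le_max_left _ _
    rw [Finset.sum_sub_distrib, ← Finset.mul_sum] at h4
    linarith
  -- the bad tuples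
  have hB : ∑ E ∈ P.filter (fun E => ¬ p E), r E ≤ (1 - h) * ∑ E ∈ P.filter (fun E => ¬ p E), sing E := by
    rw [Finset.mul_sum]
    refine Finset.sum_le_sum fun E hE => ?_
    rw [Finset.mem_filter] at hE
    have h5 : (cnt x E : ℝ) < (1 - h) * (sing E * x / (Real.log x) ^ (j + 2)) := by
      have := hE.2
      rw [hp] at this
      exact not_le.1 this
    rw [hr]
    show (Real.log x) ^ (j + 2) * (cnt x E : ℝ) / x ≤ (1 - h) * sing E
    rw [div_le_iff₀ hx0]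
    calc (Real.log x) ^ (j + 2) * (cnt x E : ℝ) ≤
        (Real.log x) ^ (j + 2) * ((1 - h) * (sing E * x / (Real.log x) ^ (j + 2))) :=
          mul_le_mul_of_nonneg_left h5.le hLp.le
      _ = (1 - h) * sing E * x := by
          field_simp
  obtain ⟨M, hM⟩ : ∃ M, M = ∑ E ∈ P.filter p, sing E := ⟨_, rfl⟩
  obtain ⟨M', hM'⟩ : ∃ M', M' = ∑ E ∈ P.filter (fun E => ¬ p E), sing E := ⟨_, rfl⟩
  rw [← hM] at hA hsplit_s ⊢
  rw [← hM'] at hB hsplit_s
  have h6 : (1 - h) * M' ≤ (1 - h) * ((1 + ε / 4) * U - M) :=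
    mul_le_mul_of_nonneg_left (by linarith) (by linarith)
  have h7 : (1 - ε / 4) * U ≤ q * M + ε / 2 * U + (1 - h) * ((1 + ε / 4) * U - M) := by linarith
  have h8 : 0 ≤ h * (ε / 4 * U) := by positivity
  nlinarith

end Pool.Agent.H6.AE
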