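import Pool.Agent.H6.AE.T1m
import Pool.Agent.H6.AE.T1b

/-!
# T1q: the results for arbitrary sets `Q` of primes

`cntQ x Q s`: the number of `0 ≤ n ≤ x` with `n - h ∈ Q` for all `h ∈ s`.
-/

set_option autoImplicit false

namespace Pool.Agent.H6.AE

open Finset Pool.Agent.H17 Pool.Agent.H6.MF Pool.Agent.H6.MB Pool.Agent.H96.AE
open Pool.Agent.H12.DM hiding cf
open Pool.Agent.H12.DN (T8wf)

/-- the number of `0 ≤ n ≤ x` such that `n - h` is an element of `Q` for all `h ∈ s` -/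
noncomputable def cntQ (x : ℝ) (Q : Finset ℕ) (s : Finset ℤ) : ℕ :=
  ((Finset.range (⌊x⌋₊ + 1)).filter (fun n : ℕ => ∀ h ∈ s, ((n : ℤ) - h).toNat ∈ Q)).card

/-- `log x` times the indicator function of the elements of `Q` in `(x^(1/4), x]` -/
noncomputable def LaQ (x : ℝ) (Q : Finset ℕ) (n : ℤ) : ℝ := if n.toNat ∈ Q then La x n else 0

lemma LaQ_bd {x : ℝ} (hx : 1 ≤ x) (Q : Finset ℕ) (n : ℤ) : 0 ≤ LaQ x Q n ∧ LaQ x Q n ≤ La x n := by
  unfold LaQ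
  have h := La_nonneg hx n
  split_ifs
  · exact ⟨h, le_rfl⟩
  · exact ⟨le_rfl, h⟩

lemma cntQ_le (x : ℝ) {Q : Finset ℕ} (hQ : ∀ p ∈ Q, p.Prime) (s : Finset ℤ) : cntQ x Q s ≤ cnt x s := by
  unfold cntQ cnt
  refine Finset.card_le_card fun n hn => ?_
  rw [Finset.mem_filter] at hn ⊢
  exact ⟨hn.1, fun h hh => hQ _ (hn.2 h hh)⟩

theorem CNTQ (k : ℕ) (ε : ℝ) (hε : 0 < ε) : ∃ X : ℝ, ∀ x : ℝ, X ≤ x → ∀ Q : Finset ℕ, (∀ p ∈ Q, p.Prime) →
    ∀ D : Finset ℤ, (∀ d ∈ D, 1 ≤ d ∧ (d : ℝ) ≤ (Real.log x) ^ 2) → D.card + 1 ≤ k →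
    |(Real.log x) ^ (D.card + 1) * (cntQ x Q (insert 0 D) : ℝ) - cf x (LaQ x Q) D| ≤ ε * x := by
  classical
  obtain ⟨X, hX⟩ := CNT k ε hε
  refine ⟨max X (Real.exp 1), fun x hx Q hQ D hD hk => ?_⟩
  rw [max_le_iff] at hx
  have hx0 : 0 < x := (Real.exp_pos 1).trans_le hx.2
  have hx1 : 1 ≤ x := (Real.one_le_exp zero_le_one).trans hx.2
  have hL : 1 ≤ Real.log x := (Real.le_log_iff_exp_le hx0).2 hx.2
  have h := hX x hx.1 D hD hk
  have h0D : (0 : ℤ) ∉ D := by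
    intro h
    have := (hD 0 h).1
    omega
  have hcard : D.card + 1 = (insert 0 D).card := by rw [Finset.card_insert_of_notMem h0D]
  rw [T1m_cf x (La x) h0D, hcard] at h
  rw [T1m_cf x (LaQ x Q) h0D, hcard]
  obtain ⟨s, hs⟩ : ∃ s : Finset ℤ, s = insert 0 D := ⟨_, rfl⟩
  rw [← hs] at h ⊢
  obtain ⟨L, hLd⟩ : ∃ L, L = Real.log x := ⟨_, rfl⟩
  rw [← hLd] at h hL ⊢
  have e1 : L ^ s.card * (cntQ x Q s : ℝ) - ∑ n ∈ Finset.range (⌊x⌋₊ + 1), ∏ d ∈ s, LaQ x Q ((n : ℤ) - d) =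
      ∑ n ∈ Finset.range (⌊x⌋₊ + 1), ((if (∀ h ∈ s, ((n : ℤ) - h).toNat ∈ Q) then L ^ s.card else 0) -
        ∏ d ∈ s, LaQ x Q ((n : ℤ) - d)) := by
    rw [Finset.sum_sub_distrib, ← Finset.sum_filter, Finset.sum_const, nsmul_eq_mul, mul_comm]
    rfl
  have e2 : L ^ s.card * (cnt x s : ℝ) - ∑ n ∈ Finset.range (⌊x⌋₊ + 1), ∏ d ∈ s, La x ((n : ℤ) - d) =
      ∑ n ∈ Finset.range (⌊x⌋₊ + 1), ((if (∀ h ∈ s, isP ((n : ℤ) - h)) then L ^ s.card else 0) -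
        ∏ d ∈ s, La x ((n : ℤ) - d)) := by
    rw [Finset.sum_sub_distrib, ← Finset.sum_filter, Finset.sum_const, nsmul_eq_mul, mul_comm]
    rfl
  rw [e1]
  rw [e2] at h
  have hLaL : ∀ n : ℤ, La x n ≤ if isP n then L else 0 := by
    intro n
    unfold La
    rw [← hLd]
    by_cases h1 : isP n
    · rw [if_pos h1]
      split_ifs
      · exact le_rfl
      · linarith
    · rw [if_neg h1, if_neg (fun h2 => h1 h2.1)]
  have hpt1 : ∀ n : ℕ, 0 ≤ (if (∀ h ∈ s, isP ((n : ℤ) - h)) then L ^ s.card else 0) - ∏ d ∈ s, La x ((n : ℤ) - d) := by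
    intro n
    rw [sub_nonneg]
    by_cases h1 : ∀ h ∈ s, isP ((n : ℤ) - h)
    · rw [if_pos h1, ← Finset.prod_const]
      refine Finset.prod_le_prod (fun d _ => La_nonneg hx1 _) fun d hd => ?_
      have := hLaL ((n : ℤ) - d)
      rwa [if_pos (h1 d hd)] at this
    · rw [if_neg h1]
      push Not at h1
      obtain ⟨d, hd, hd2⟩ := h1
      refine le_of_eq (Finset.prod_eq_zero hd ?_)
      have h3 := hLaL ((n : ℤ) - d)
      rw [if_neg hd2] at h3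
      exact le_antisymm h3 (La_nonneg hx1 _)
  have hpt2 : ∀ n : ℕ, 0 ≤ (if (∀ h ∈ s, ((n : ℤ) - h).toNat ∈ Q) then L ^ s.card else 0) - ∏ d ∈ s, LaQ x Q ((n : ℤ) - d) ∧
      (if (∀ h ∈ s, ((n : ℤ) - h).toNat ∈ Q) then L ^ s.card else 0) - ∏ d ∈ s, LaQ x Q ((n : ℤ) - d) ≤
      (if (∀ h ∈ s, isP ((n : ℤ) - h)) then L ^ s.card else 0) - ∏ d ∈ s, La x ((n : ℤ) - d) := by
    intro n
    by_cases h1 : ∀ h ∈ s, ((n : ℤ) - h).toNat ∈ Q
    · have h2 : ∀ h ∈ s, isP ((n : ℤ) - h) := fun h hh => hQ _ (h1 h hh)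
      have h3 : ∏ d ∈ s, LaQ x Q ((n : ℤ) - d) = ∏ d ∈ s, La x ((n : ℤ) - d) := by
        refine Finset.prod_congr rfl fun d hd => ?_
        unfold LaQ
        rw [if_pos (h1 d hd)]
      have h4 := hpt1 n
      rw [if_pos h2] at h4 ⊢
      rw [if_pos h1, h3]
      exact ⟨h4, le_rfl⟩
    · have h5 := h1
      push Not at h5
      obtain ⟨d, hd, hd2⟩ := h5
      have h3 : ∏ d ∈ s, LaQ x Q ((n : ℤ) - d) = 0 := by
        refine Finset.prod_eq_zero hd ?_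
        unfold LaQ
        rw [if_neg hd2]
      rw [if_neg h1, h3, sub_zero]
      exact ⟨le_rfl, hpt1 n⟩
  rw [abs_of_nonneg (Finset.sum_nonneg fun n _ => (hpt2 n).1)]
  exact ((Finset.sum_le_sum fun n _ => (hpt2 n).2).trans (le_abs_self _)).trans h

/-- one bounded function models the correlations of `Q` -/
theorem T1mQ (k : ℕ) (ε : ℝ) (hε : 0 < ε) : ∃ y : ℕ, ∃ K X : ℝ, 1 ≤ K ∧ ∀ x : ℝ, X ≤ x → ∀ Q : Finset ℕ,
    (∀ p ∈ Q, p.Prime) → ∃ g : ℤ → ℝ,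
    (∀ n, 0 ≤ g n ∧ g n ≤ 4 + ε) ∧ ∀ H : ℕ, K * Real.log x ≤ (H : ℝ) → (H : ℝ) ≤ (Real.log x) ^ 2 →
    ∀ j : ℕ, 1 ≤ j → j ≤ k →
    ∑ D ∈ Finset.powersetCard j (Finset.Icc 1 (H : ℤ)),
      |(Real.log x) ^ (j + 1) * (cntQ x Q (insert 0 D) : ℝ) / x -
        (∑ n ∈ Finset.range (⌊x⌋₊ + 1), ∏ d ∈ insert 0 D, (Mm y ((n : ℤ) - d) * g ((n : ℤ) - d))) / x|
      ≤ ε * (H : ℝ) ^ j := by
  classical
  have hL1 := fun j : ℕ => L1 j (ε / 4) (by positivity)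
  choose y1 δ1 K1 hδ1 hK1 hL1 using hL1
  -- common constants
  obtain ⟨δ, hδ⟩ : ∃ δ : ℝ, δ = 1 / (1 / ε + 1 + ∑ j ∈ Finset.range k, 1 / δ1 j) := ⟨_, rfl⟩
  have hsum0 : 0 ≤ ∑ j ∈ Finset.range k, 1 / δ1 j := Finset.sum_nonneg fun j _ => by
    have := hδ1 j
    positivity
  have hδ0 : 0 < δ := by
    rw [hδ]
    positivity
  have hδε : δ ≤ ε := by
    rw [hδ, one_div_le (by positivity) hε]
    linarith
  have hδ1' : δ ≤ 1 := by
    rw [hδ, div_le_one (by positivity)]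
    have : 0 < 1 / ε := by positivity
    linarith
  have hδj : ∀ j ∈ Finset.range k, δ ≤ δ1 j := by
    intro j hj
    rw [hδ, one_div_le (by positivity) (hδ1 j)]
    have h1 := Finset.single_le_sum (f := fun j => 1 / δ1 j) (fun i _ => by
      have := hδ1 i
      positivity) hj
    have h2 : 0 < 1 / ε := by positivity
    have h3 : 1 / δ1 j ≤ ∑ j ∈ Finset.range k, 1 / δ1 j := h1
    linarith
  obtain ⟨y, hyy, hy3, K, X3, hK, hT⟩ := T8wf δ hδ0 (∑ j ∈ Finset.range k, y1 j)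
  have hyj : ∀ j ∈ Finset.range k, y1 j ≤ y := fun j hj =>
    (Finset.single_le_sum (f := y1) (fun _ _ => Nat.zero_le _) hj).trans hyy
  have hX4 : ∀ j : ℕ, ∃ X4 : ℝ, j ∈ Finset.range k → ∀ x : ℝ, X4 ≤ x → ∀ H : ℕ, K1 j * Real.log x ≤ (H : ℝ) →
      (H : ℝ) ≤ (Real.log x) ^ 2 → ∀ f g : ℤ → ℝ, (∀ n, |f n| ≤ Bm y x n) → (∀ n, |g n| ≤ Bm y x n) → Sp x f → Sp x g →
      Win x H (δ1 j) f g → ∑ D ∈ Finset.powersetCard (j + 1) (Finset.Icc 1 (H : ℤ)), |cf x f D - cf x g D|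
      ≤ ε / 4 * ((⌊x⌋₊ : ℝ) + 1) * (H : ℝ) ^ (j + 1) := by
    intro j
    by_cases hj : j ∈ Finset.range k
    · obtain ⟨X4, h⟩ := hL1 j y (hyj j hj)
      exact ⟨X4, fun _ => h⟩
    · exact ⟨0, fun h => absurd h hj⟩
  choose X4 hX4 using hX4
  obtain ⟨X8, hX8⟩ := CNTQ (k + 1) (ε / 2) (by positivity)
  refine ⟨y, K + ∑ j ∈ Finset.range k, K1 j, max (max X3 X8) (max (Real.exp 1) (max (1 + 1 / ε) (∑ j ∈ Finset.range k, |X4 j|))), ?_,
    fun x hx Q hQ => ?_⟩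
  · have : 0 ≤ ∑ j ∈ Finset.range k, K1 j := Finset.sum_nonneg fun j _ => by linarith [hK1 j]
    linarith
  simp only [max_le_iff] at hx
  obtain ⟨⟨hx3, hx8⟩, hxe, hxe1, hx4⟩ := hx
  have hx0 : 0 < x := (Real.exp_pos 1).trans_le hxe
  have hxge1 : 1 ≤ x := (Real.one_le_exp zero_le_one).trans hxe
  have hlog : 1 ≤ Real.log x := (Real.le_log_iff_exp_le hx0).2 hxe
  obtain ⟨g, hg, hgout, _, hwin⟩ := hT x hx3 (LaQ x Q) (LaQ_bd hxge1 Q)
  have hg5 : ∀ n, g n ≤ 5 := fun n => (hg n).2.trans (by linarith)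
  refine ⟨g, fun n => ⟨(hg n).1, (hg n).2.trans (by linarith)⟩, fun H hH1 hH2 j hj1 hjk => ?_⟩
  obtain ⟨i, rfl⟩ : ∃ i, j = i + 1 := ⟨j - 1, by omega⟩
  have hi : i ∈ Finset.range k := Finset.mem_range.2 (by omega)
  have hsumK : 0 ≤ ∑ j ∈ Finset.range k, K1 j := Finset.sum_nonneg fun j _ => by linarith [hK1 j]
  have hKH : K * Real.log x ≤ H := (mul_le_mul_of_nonneg_right (by linarith) (by linarith)).trans hH1
  have hK1i : K1 i ≤ ∑ j ∈ Finset.range k, K1 j :=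
    Finset.single_le_sum (f := K1) (fun j _ => by linarith [hK1 j]) hi
  have hK1H : K1 i * Real.log x ≤ H := (mul_le_mul_of_nonneg_right (by linarith) (by linarith)).trans hH1
  have hx4i : X4 i ≤ x := by
    refine le_trans (le_abs_self _) (le_trans ?_ hx4)
    exact Finset.single_le_sum (f := fun j => |X4 j|) (fun j _ => abs_nonneg _) hi
  have hN2 : ((⌊x⌋₊ : ℝ) + 1) ≤ 2 * x := by
    have := Nat.floor_le hx0.le
    linarith
  have hwinH : Win x H (δ1 i) (LaQ x Q) (fun n => Mm y n * g n) := by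
    intro D hD
    refine (hwin H hKH hH2 D hD).trans ?_
    refine mul_le_mul_of_nonneg_right (mul_le_mul_of_nonneg_right (hδj i hi) ?_) (by positivity)
    positivity
  have hBmL : ∀ n, |LaQ x Q n| ≤ Bm y x n := by
    intro n
    rw [abs_of_nonneg (LaQ_bd hxge1 Q n).1]
    unfold Bm
    have h1 := (LaQ_bd hxge1 Q n).2
    have h2 := Mm_nonneg (yy x) n
    have h3 := Mm_nonneg y n
    linarith
  have hBmb : ∀ n, |Mm y n * g n| ≤ Bm y x n := by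
    intro n
    rw [abs_of_nonneg (mul_nonneg (Mm_nonneg y n) (hg n).1)]
    unfold Bm
    have h1 := La_nonneg hxge1 n
    have h2 := Mm_nonneg (yy x) n
    have h3 := Mm_nonneg y n
    have h4 : Mm y n * g n ≤ Mm y n * 5 := mul_le_mul_of_nonneg_left (hg5 n) h3
    linarith
  have hSpL : Sp x (LaQ x Q) := fun n hn => by
    have h1 := LaQ_bd hxge1 Q n
    have h2 : La x n = 0 := La_out hx0.le hn
    rw [h2] at h1
    exact le_antisymm h1.2 h1.1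
  have hSpb : Sp x (fun n => Mm y n * g n) := fun n hn => by
    show Mm y n * g n = 0
    rw [hgout n hn, mul_zero]
  have hA := hX4 i hi x hx4i H hK1H hH2 (LaQ x Q) (fun n => Mm y n * g n) hBmL hBmb hSpL hSpb hwinH
  have hpt : ∀ D ∈ Finset.powersetCard (i + 1) (Finset.Icc 1 (H : ℤ)),
      |(Real.log x) ^ (i + 1 + 1) * (cntQ x Q (insert 0 D) : ℝ) / x -
        (∑ n ∈ Finset.range (⌊x⌋₊ + 1), ∏ d ∈ insert 0 D, (Mm y ((n : ℤ) - d) * g ((n : ℤ) - d))) / x| ≤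
      ε / 2 + |cf x (LaQ x Q) D - cf x (fun n => Mm y n * g n) D| / x := by
    intro D hD
    rw [Finset.mem_powersetCard] at hD
    have h0D : (0 : ℤ) ∉ D := by
      intro h
      have := hD.1 h
      rw [Finset.mem_Icc] at this
      omega
    have hc := hX8 x hx8 Q hQ D (fun d hd => by
      have := hD.1 hd
      rw [Finset.mem_Icc] at this
      refine ⟨this.1, ?_⟩
      have h3 : (d : ℝ) ≤ (H : ℝ) := by exact_mod_cast this.2
      linarith) (by omega)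
    rw [hD.2] at hc
    rw [← T1m_cf x (fun n => Mm y n * g n) h0D, ← sub_div, abs_div, abs_of_pos hx0, div_le_iff₀ hx0, add_mul,
      div_mul_cancel₀ _ hx0.ne']
    have h1 := abs_sub_le ((Real.log x) ^ (i + 1 + 1) * (cntQ x Q (insert 0 D) : ℝ)) (cf x (LaQ x Q) D)
      (cf x (fun n => Mm y n * g n) D)
    linarith
  refine (Finset.sum_le_sum hpt).trans ?_
  rw [Finset.sum_add_distrib, Finset.sum_const, nsmul_eq_mul, ← Finset.sum_div]
  have hcardP : ((Finset.powersetCard (i + 1) (Finset.Icc 1 (H : ℤ))).card : ℝ) ≤ (H : ℝ) ^ (i + 1) := by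
    refine Gam_cardp.trans (le_of_eq ?_)
    rw [Int.card_Icc]
    congr 1
    congr 1
    omega
  have h1 : ((Finset.powersetCard (i + 1) (Finset.Icc 1 (H : ℤ))).card : ℝ) * (ε / 2) ≤ (H : ℝ) ^ (i + 1) * (ε / 2) :=
    mul_le_mul_of_nonneg_right hcardP (by positivity)
  have h2 : (∑ D ∈ Finset.powersetCard (i + 1) (Finset.Icc 1 (H : ℤ)), |cf x (LaQ x Q) D - cf x (fun n => Mm y n * g n) D|) / x ≤
      ε / 2 * (H : ℝ) ^ (i + 1) := by
    rw [div_le_iff₀ hx0]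
    have h3 : ε / 4 * ((⌊x⌋₊ : ℝ) + 1) * (H : ℝ) ^ (i + 1) ≤ ε / 4 * (2 * x) * (H : ℝ) ^ (i + 1) :=
      mul_le_mul_of_nonneg_right (mul_le_mul_of_nonneg_left hN2 (by positivity)) (by positivity)
    have h4 : ε / 2 * (H : ℝ) ^ (i + 1) * x = ε / 4 * (2 * x) * (H : ℝ) ^ (i + 1) := by ring
    rw [h4]
    linarith
  linarith

end Pool.Agent.H6.AE
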