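import Pool.Agent.H6.AE.T1q

/-!
# T1r: a positive proportion of tuples for arbitrary sets `Q` of primes

`r = |Q| log x / x`. As `JEN`, `T1E`, `T1c`.
-/

set_option autoImplicit false

namespace Pool.Agent.H6.AE

open Finset Pool.Agent.H17 Pool.Agent.H6.MF Pool.Agent.H6.MB

/-- the number of elements of `Q` among `n - b`, `0 < b ≤ H` -/
noncomputable def winQ (Q : Finset ℕ) (H : ℕ) (n : ℤ) : ℕ :=
  ((Finset.Ioc 0 (H : ℤ)).filter (fun b => (n - b).toNat ∈ Q)).card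

lemma JENQ_choose (x : ℝ) (Q : Finset ℕ) (H k : ℕ) :
    ∑ E ∈ Finset.powersetCard k (Finset.Icc 1 (H : ℤ)), (cntQ x Q E : ℝ) =
      ∑ n ∈ Finset.range (⌊x⌋₊ + 1), (((winQ Q H (n : ℤ)).choose k : ℕ) : ℝ) := by
  classical
  have hI : Finset.Icc 1 (H : ℤ) = Finset.Ioc 0 (H : ℤ) := by
    ext i
    simp only [Finset.mem_Icc, Finset.mem_Ioc]
    omega
  rw [hI]
  have h1 : ∀ E : Finset ℤ, (cntQ x Q E : ℝ) =
      ∑ n ∈ Finset.range (⌊x⌋₊ + 1), if (∀ h ∈ E, ((n : ℤ) - h).toNat ∈ Q) then (1 : ℝ) else 0 := by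
    intro E
    unfold cntQ
    rw [Finset.card_filter]
    push_cast
    rfl
  simp only [h1]
  rw [Finset.sum_comm]
  refine Finset.sum_congr rfl fun n _ => ?_
  obtain ⟨J, hJ⟩ : ∃ J, J = (Finset.Ioc 0 (H : ℤ)).filter (fun b => ((n : ℤ) - b).toNat ∈ Q) := ⟨_, rfl⟩
  have h2 : winQ Q H (n : ℤ) = J.card := by
    rw [hJ]
    rfl
  rw [h2, ← Finset.card_powersetCard, Finset.card_eq_sum_ones, ← Finset.sum_filter]
  push_cast
  refine Finset.sum_congr ?_ fun _ _ => rfl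
  ext E
  rw [Finset.mem_filter, Finset.mem_powersetCard, Finset.mem_powersetCard]
  constructor
  · rintro ⟨⟨h3, h4⟩, h5⟩
    refine ⟨fun a ha => ?_, h4⟩
    rw [hJ, Finset.mem_filter]
    exact ⟨h3 ha, h5 a ha⟩
  · rintro ⟨h3, h4⟩
    refine ⟨⟨fun a ha => ?_, h4⟩, fun a ha => ?_⟩
    · have := h3 ha
      rw [hJ, Finset.mem_filter] at this
      exact this.1
    · have := h3 ha
      rw [hJ, Finset.mem_filter] at this
      exact this.2

/-- first moment -/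
lemma JENQ_first {x : ℝ} {Q : Finset ℕ} (hQ : ∀ p ∈ Q, p.Prime ∧ (p : ℝ) ≤ x) (H : ℕ) :
    (H : ℝ) * ((Q.card : ℝ) - H) ≤ ∑ n ∈ Finset.range (⌊x⌋₊ + 1), (winQ Q H (n : ℤ) : ℝ) := by
  classical
  have h1 : ∑ n ∈ Finset.range (⌊x⌋₊ + 1), (winQ Q H (n : ℤ) : ℝ) =
      ∑ b ∈ Finset.Ioc 0 (H : ℤ), (((Finset.range (⌊x⌋₊ + 1)).filter (fun n : ℕ => ((n : ℤ) - b).toNat ∈ Q)).card : ℝ) := by
    simp only [winQ, Finset.card_filter]
    push_cast
    rw [Finset.sum_comm]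
  rw [h1]
  have h2 : ∀ b ∈ Finset.Ioc 0 (H : ℤ), (Q.card : ℝ) - H ≤
      (((Finset.range (⌊x⌋₊ + 1)).filter (fun n : ℕ => ((n : ℤ) - b).toNat ∈ Q)).card : ℝ) := by
    intro b hb
    rw [Finset.mem_Ioc] at hb
    obtain ⟨c, rfl⟩ : ∃ c : ℕ, b = (c : ℤ) := ⟨b.toNat, by omega⟩
    have hcH : c ≤ H := by omega
    have h3 : Q.card ≤ ((Finset.range (⌊x⌋₊ + 1)).filter (fun n : ℕ => ((n : ℤ) - c).toNat ∈ Q)).card + c := by
      have h4 : Q ⊆ (((Finset.range (⌊x⌋₊ + 1)).filter (fun n : ℕ => ((n : ℤ) - c).toNat ∈ Q)).image (fun n => n - c)) ∪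
          Finset.Ioc (⌊x⌋₊ - c) ⌊x⌋₊ := by
        intro p hp
        have hpx : p ≤ ⌊x⌋₊ := Nat.le_floor (hQ p hp).2
        rw [Finset.mem_union, Finset.mem_image, Finset.mem_Ioc]
        by_cases h5 : p ≤ ⌊x⌋₊ - c
        · left
          have hp0 := (hQ p hp).1.pos
          refine ⟨p + c, ?_, by omega⟩
          rw [Finset.mem_filter, Finset.mem_range]
          refine ⟨by omega, ?_⟩
          have h6 : (((p + c : ℕ) : ℤ) - c).toNat = p := by omega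
          rw [h6]
          exact hp
        · right
          omega
      refine (Finset.card_le_card h4).trans ((Finset.card_union_le _ _).trans ?_)
      have h7 : (Finset.Ioc (⌊x⌋₊ - c) ⌊x⌋₊).card ≤ c := by
        rw [Nat.card_Ioc]
        omega
      exact add_le_add Finset.card_image_le h7
    have h8 : (Q.card : ℝ) ≤ (((Finset.range (⌊x⌋₊ + 1)).filter (fun n : ℕ => ((n : ℤ) - c).toNat ∈ Q)).card : ℝ) + c := by
      exact_mod_cast h3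
    have h9 : (c : ℝ) ≤ H := by exact_mod_cast hcH
    linarith
  refine le_trans (le_of_eq ?_) (Finset.sum_le_sum h2)
  rw [Finset.sum_const, Int.card_Ioc, nsmul_eq_mul]
  have h7 : (((H : ℤ) - 0).toNat : ℝ) = (H : ℝ) := by
    congr 1
  rw [h7]

lemma JENQ_pow (m : ℕ) {u b : ℝ} (hu : 0 ≤ u) (hb : 0 ≤ b) :
    (u + b) ^ (m + 1) ≤ u ^ (m + 1) + (m + 1) * b * (u + b) ^ m := by
  induction m with
  | zero => simp
  | succ m ih =>
    have h1 : 0 ≤ (u + b) ^ m := by positivity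
    have h2 : (u + b) ^ (m + 1 + 1) = u * (u + b) ^ (m + 1) + b * (u + b) ^ (m + 1) := by ring
    have h3 : u * (u + b) ^ (m + 1) ≤ u * (u ^ (m + 1) + (m + 1) * b * (u + b) ^ m) := mul_le_mul_of_nonneg_left ih hu
    have h4 : (m + 1) * b * (u * (u + b) ^ m) ≤ (m + 1) * b * ((u + b) * (u + b) ^ m) := by
      refine mul_le_mul_of_nonneg_left (mul_le_mul_of_nonneg_right (by linarith) h1) (by positivity)
    push_cast
    calc (u + b) ^ (m + 1 + 1) ≤ u * (u ^ (m + 1) + (m + 1) * b * (u + b) ^ m) + b * (u + b) ^ (m + 1) := by linarith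
      _ = u ^ (m + 1 + 1) + ((m + 1) * b * (u * (u + b) ^ m) + b * (u + b) ^ (m + 1)) := by ring
      _ ≤ u ^ (m + 1 + 1) + ((m + 1) * b * ((u + b) * (u + b) ^ m) + b * (u + b) ^ (m + 1)) := by linarith
      _ = _ := by ring

lemma JENQ_e (k : ℕ) (ε : ℝ) (hε : 0 < ε) : ∃ e : ℝ, 0 < e ∧ e ≤ 1 / 4 ∧ ∀ r : ℝ, 0 ≤ r → r ≤ 2 →
    (r ^ (k + 1) - ε) * (1 + e) ^ k ≤ (max 0 (r - 2 * e)) ^ (k + 1) := by
  obtain ⟨C, hC⟩ : ∃ C : ℝ, C = 2 * ((k : ℝ) + 1) * 4 ^ k + 2 ^ (k + 1) * ((k + 1) * 2 ^ k) := ⟨_, rfl⟩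
  have hC0 : 0 < C := by
    rw [hC]
    positivity
  obtain ⟨e, he⟩ : ∃ e : ℝ, e = min (1 / 4) (ε / C) := ⟨_, rfl⟩
  have he0 : 0 < e := by
    rw [he]
    exact lt_min (by norm_num) (by positivity)
  have he1 : e ≤ 1 / 4 := by
    rw [he]
    exact min_le_left _ _
  have heC : e * C ≤ ε := by
    have : e ≤ ε / C := by
      rw [he]
      exact min_le_right _ _
    exact (le_div_iff₀ hC0).1 this
  refine ⟨e, he0, he1, fun r hr0 hr2 => ?_⟩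
  obtain ⟨u, hu⟩ : ∃ u : ℝ, u = max 0 (r - 2 * e) := ⟨_, rfl⟩
  rw [← hu]
  have hu0 : 0 ≤ u := by
    rw [hu]
    exact le_max_left _ _
  have hru : r ≤ u + 2 * e := by
    have : r - 2 * e ≤ u := by
      rw [hu]
      exact le_max_right _ _
    linarith
  have hu2 : u ≤ 2 := by
    rw [hu]
    exact max_le (by norm_num) (by linarith)
  have h1 : r ^ (k + 1) ≤ u ^ (k + 1) + (k + 1) * (2 * e) * 4 ^ k := by
    have h2 := JENQ_pow k hu0 (show (0 : ℝ) ≤ 2 * e by linarith)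
    have h3 : (u + 2 * e) ^ k ≤ 4 ^ k := pow_le_pow_left₀ (by linarith) (by linarith) k
    have h4 : ((k : ℝ) + 1) * (2 * e) * (u + 2 * e) ^ k ≤ (k + 1) * (2 * e) * 4 ^ k :=
      mul_le_mul_of_nonneg_left h3 (by positivity)
    exact ((pow_le_pow_left₀ hr0 hru _).trans h2).trans (by linarith)
  have h5 : (1 + e) ^ k ≤ 1 + (k + 1) * e * 2 ^ k := by
    have h6 : (1 + e) ^ k ≤ (1 + e) ^ (k + 1) := by
      rw [pow_succ]
      exact le_mul_of_one_le_right (by positivity) (by linarith)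
    have h7 := JENQ_pow k (zero_le_one : (0 : ℝ) ≤ 1) he0.le
    have h8 : (1 + e) ^ k ≤ 2 ^ k := pow_le_pow_left₀ (by linarith) (by linarith) k
    have h9 : ((k : ℝ) + 1) * e * (1 + e) ^ k ≤ (k + 1) * e * 2 ^ k := mul_le_mul_of_nonneg_left h8 (by positivity)
    rw [one_pow] at h7
    linarith
  have h10 : r ^ (k + 1) ≤ 2 ^ (k + 1) := pow_le_pow_left₀ hr0 hr2 _
  have h11 : 1 ≤ (1 + e) ^ k := one_le_pow₀ (by linarith)
  have h12 : 0 ≤ r ^ (k + 1) := by positivity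
  have h13 : r ^ (k + 1) * (1 + e) ^ k ≤ r ^ (k + 1) + 2 ^ (k + 1) * ((k + 1) * e * 2 ^ k) := by
    have h14 : r ^ (k + 1) * (1 + e) ^ k ≤ r ^ (k + 1) * (1 + (k + 1) * e * 2 ^ k) := mul_le_mul_of_nonneg_left h5 h12
    have h15 : r ^ (k + 1) * ((k + 1) * e * 2 ^ k) ≤ 2 ^ (k + 1) * ((k + 1) * e * 2 ^ k) :=
      mul_le_mul_of_nonneg_right h10 (by positivity)
    linarith
  have h16 : ε ≤ ε * (1 + e) ^ k := le_mul_of_one_le_right hε.le h11
  have h17 : e * C = (k + 1) * (2 * e) * 4 ^ k + 2 ^ (k + 1) * ((k + 1) * e * 2 ^ k) := by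
    rw [hC]
    ring
  have h18 : (r ^ (k + 1) - ε) * (1 + e) ^ k = r ^ (k + 1) * (1 + e) ^ k - ε * (1 + e) ^ k := by ring
  rw [h18]
  linarith

/-- the size of `Q` -/
lemma JENQ_size : ∃ X : ℝ, ∀ x : ℝ, X ≤ x → ∀ Q : Finset ℕ, (∀ p ∈ Q, p.Prime ∧ (p : ℝ) ≤ x) →
    (Q.card : ℝ) * Real.log x / x ≤ 2 := by
  have e1 := (Metric.tendsto_nhds.mp Pool.Agent.H17.pi_tendsto) 1 one_pos
  obtain ⟨X, hX⟩ := Filter.eventually_atTop.mp e1
  refine ⟨max X (Real.exp 1), fun x hx Q hQ => ?_⟩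
  rw [max_le_iff] at hx
  have hx0 : 0 < x := (Real.exp_pos 1).trans_le hx.2
  have hL : 1 ≤ Real.log x := (Real.le_log_iff_exp_le hx0).2 hx.2
  have h1 := hX x hx.1
  rw [Real.dist_eq] at h1
  have h2 := (abs_lt.1 h1).2
  have h3 : Q.card ≤ Nat.primeCounting ⌊x⌋₊ := by
    rw [← Nat.primesLE_card_eq_primeCounting]
    refine Finset.card_le_card fun p hp => ?_
    rw [Nat.mem_primesLE]
    exact ⟨Nat.le_floor (hQ p hp).2, (hQ p hp).1⟩
  have h4 : (Q.card : ℝ) ≤ (Nat.primeCounting ⌊x⌋₊ : ℝ) := by exact_mod_cast h3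
  have h5 : (Q.card : ℝ) * Real.log x / x ≤ (Nat.primeCounting ⌊x⌋₊ : ℝ) * Real.log x / x :=
    div_le_div_of_nonneg_right (mul_le_mul_of_nonneg_right h4 (by linarith)) hx0.le
  linarith

theorem JENQ (k : ℕ) (ε : ℝ) (hε : 0 < ε) : ∃ K X : ℝ, 1 ≤ K ∧ ∀ x : ℝ, X ≤ x → ∀ Q : Finset ℕ,
    (∀ p ∈ Q, p.Prime ∧ (p : ℝ) ≤ x) → ∀ H : ℕ, K * Real.log x ≤ (H : ℝ) → (H : ℝ) ≤ (Real.log x) ^ 2 →
    (((Q.card : ℝ) * Real.log x / x) ^ (k + 1) - ε) * ((H : ℝ) ^ (k + 1) / ((k + 1).factorial : ℝ)) ≤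
      ∑ E ∈ Finset.powersetCard (k + 1) (Finset.Icc 1 (H : ℤ)), (Real.log x) ^ (k + 1) * (cntQ x Q E : ℝ) / x := by
  obtain ⟨e, he0, he1, he⟩ := JENQ_e k ε hε
  obtain ⟨X1, h1⟩ := JENQ_size
  have e2 := (Real.isLittleO_pow_log_id_atTop (n := 3)).def he0
  obtain ⟨X2, hX2⟩ := Filter.eventually_atTop.mp e2
  refine ⟨max 1 ((k : ℝ) * (1 + e) / e), max (max X1 X2) (max (Real.exp 1) (1 / e)), le_max_left _ _,
    fun x hx Q hQ H hH1 hH2 => ?_⟩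
  simp only [max_le_iff] at hx
  obtain ⟨⟨hx1, hx2⟩, hxe, hxe2⟩ := hx
  have hx0 : 0 < x := (Real.exp_pos 1).trans_le hxe
  have hL : 1 ≤ Real.log x := (Real.le_log_iff_exp_le hx0).2 hxe
  have hr2 := h1 x hx1 Q hQ
  have hL3 := hX2 x hx2
  have h2 := JENQ_first hQ H
  obtain ⟨L, hLd⟩ : ∃ L, L = Real.log x := ⟨_, rfl⟩
  rw [← hLd] at hL hH1 hH2 hr2 hL3 ⊢
  have hL0 : 0 < L := by linarith
  have hL3' : L ^ 2 ≤ e * (x / L) := by
    rw [id, Real.norm_of_nonneg hx0.le, Real.norm_of_nonneg (by positivity)] at hL3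
    rw [← mul_div_assoc, le_div_iff₀ hL0]
    linarith [show L ^ 2 * L = L ^ 3 by ring]
  have hf : (0 : ℝ) < ((k + 1).factorial : ℝ) := by exact_mod_cast Nat.factorial_pos _
  obtain ⟨r, hr⟩ : ∃ r : ℝ, r = (Q.card : ℝ) * L / x := ⟨_, rfl⟩
  rw [← hr] at hr2 ⊢
  have hr0 : 0 ≤ r := by
    rw [hr]
    positivity
  have hrQ : (Q.card : ℝ) = r * (x / L) := by
    rw [hr]
    field_simp
  obtain ⟨N, hN⟩ : ∃ N : ℕ, N = ⌊x⌋₊ + 1 := ⟨_, rfl⟩
  have hNx : (N : ℝ) ≤ (1 + e) * x := by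
    have h3 := Nat.floor_le hx0.le
    have h4 : 1 ≤ x * e := (div_le_iff₀ he0).1 hxe2
    rw [hN]
    push_cast
    linarith
  have hN0 : (0 : ℝ) < N := by
    rw [hN]
    push_cast
    positivity
  rw [← hN] at h2
  have hHL : 0 ≤ (H : ℝ) / L * x := by positivity
  -- the shifted counts
  obtain ⟨f, hfd⟩ : ∃ f : ℕ → ℝ, f = fun n : ℕ => ((winQ Q H (n : ℤ) - k : ℕ) : ℝ) := ⟨_, rfl⟩
  have hf0 : ∀ n ∈ Finset.range N, 0 ≤ f n := fun n _ => by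
    rw [hfd]
    exact Nat.cast_nonneg _
  have hfs : (r - 2 * e) * ((H : ℝ) / L * x) ≤ ∑ n ∈ Finset.range N, f n := by
    have h3 : ∑ n ∈ Finset.range N, ((winQ Q H (n : ℤ) : ℝ) - k) ≤ ∑ n ∈ Finset.range N, f n := by
      refine Finset.sum_le_sum fun n _ => ?_
      rw [hfd]
      show (winQ Q H (n : ℤ) : ℝ) - k ≤ ((winQ Q H (n : ℤ) - k : ℕ) : ℝ)
      have h4 : winQ Q H (n : ℤ) ≤ (winQ Q H (n : ℤ) - k) + k := by omega
      have h5 : (winQ Q H (n : ℤ) : ℝ) ≤ ((winQ Q H (n : ℤ) - k : ℕ) : ℝ) + k := by exact_mod_cast h4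
      linarith
    refine le_trans ?_ h3
    rw [Finset.sum_sub_distrib, Finset.sum_const, Finset.card_range, nsmul_eq_mul]
    have h5 : (N : ℝ) * k ≤ e * ((H : ℝ) / L * x) := by
      have h6 : (k : ℝ) * (1 + e) / e * L ≤ H := (mul_le_mul_of_nonneg_right (le_max_right _ _) hL0.le).trans hH1
      have h7 : (k : ℝ) * (1 + e) / e ≤ H / L := (le_div_iff₀ hL0).2 h6
      have h8 : (k : ℝ) * (1 + e) ≤ e * (H / L) := by
        rw [div_le_iff₀ he0] at h7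
        linarith
      calc (N : ℝ) * k ≤ (1 + e) * x * k := mul_le_mul_of_nonneg_right hNx (Nat.cast_nonneg k)
        _ = (k : ℝ) * (1 + e) * x := by ring
        _ ≤ e * (H / L) * x := mul_le_mul_of_nonneg_right h8 hx0.le
        _ = _ := by ring
    have h9 : (r - e) * ((H : ℝ) / L * x) ≤ (H : ℝ) * ((Q.card : ℝ) - H) := by
      rw [hrQ]
      have h10 : (H : ℝ) * (H : ℝ) ≤ (H : ℝ) * (e * (x / L)) :=
        mul_le_mul_of_nonneg_left (hH2.trans hL3') (Nat.cast_nonneg H)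
      have h11 : (r - e) * ((H : ℝ) / L * x) = (H : ℝ) * (r * (x / L)) - (H : ℝ) * (e * (x / L)) := by ring
      rw [h11]
      linarith
    linarith
  have hfs' : max 0 (r - 2 * e) * ((H : ℝ) / L * x) ≤ ∑ n ∈ Finset.range N, f n := by
    rcases le_total 0 (r - 2 * e) with h3 | h3
    · rw [max_eq_right h3]
      exact hfs
    · rw [max_eq_left h3, zero_mul]
      exact Finset.sum_nonneg hf0
  have hpow := pow_sum_div_card_le_sum_pow hf0 k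
  rw [Finset.card_range] at hpow
  have h10 : ∑ n ∈ Finset.range N, f n ^ (k + 1) / ((k + 1).factorial : ℝ) ≤
      ∑ E ∈ Finset.powersetCard (k + 1) (Finset.Icc 1 (H : ℤ)), (cntQ x Q E : ℝ) := by
    rw [JENQ_choose, ← hN]
    refine Finset.sum_le_sum fun n _ => ?_
    have h11 := Nat.pow_le_choose (α := ℝ) (k + 1) (winQ Q H (n : ℤ))
    rw [Nat.add_sub_add_right] at h11
    rw [hfd]
    exact h11
  rw [← Finset.sum_div] at h10
  have h12 : (r ^ (k + 1) - ε) * ((H : ℝ) / L) ^ (k + 1) * x ≤ ∑ n ∈ Finset.range N, f n ^ (k + 1) := by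
    refine le_trans ?_ hpow
    rw [le_div_iff₀ (pow_pos hN0 k)]
    have h13 : (max 0 (r - 2 * e) * ((H : ℝ) / L * x)) ^ (k + 1) ≤ (∑ n ∈ Finset.range N, f n) ^ (k + 1) :=
      pow_le_pow_left₀ (mul_nonneg (le_max_left _ _) hHL) hfs' _
    refine le_trans ?_ h13
    have her := he r hr0 hr2
    rcases le_or_gt (r ^ (k + 1) - ε) 0 with hneg | hpos
    · have h14 : (r ^ (k + 1) - ε) * ((H : ℝ) / L) ^ (k + 1) * x * (N : ℝ) ^ k ≤ 0 := by
        have : 0 ≤ ((H : ℝ) / L) ^ (k + 1) * x * (N : ℝ) ^ k := by positivity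
        have h15 : (r ^ (k + 1) - ε) * ((H : ℝ) / L) ^ (k + 1) * x * (N : ℝ) ^ k =
            (r ^ (k + 1) - ε) * (((H : ℝ) / L) ^ (k + 1) * x * (N : ℝ) ^ k) := by ring
        rw [h15]
        exact mul_nonpos_of_nonpos_of_nonneg hneg this
      exact h14.trans (pow_nonneg (mul_nonneg (le_max_left _ _) hHL) _)
    · have h14 : (N : ℝ) ^ k ≤ ((1 + e) * x) ^ k := pow_le_pow_left₀ hN0.le hNx k
      calc (r ^ (k + 1) - ε) * ((H : ℝ) / L) ^ (k + 1) * x * (N : ℝ) ^ k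
          ≤ (r ^ (k + 1) - ε) * ((H : ℝ) / L) ^ (k + 1) * x * ((1 + e) * x) ^ k :=
            mul_le_mul_of_nonneg_left h14 (by positivity)
        _ = (r ^ (k + 1) - ε) * (1 + e) ^ k * (((H : ℝ) / L) ^ (k + 1) * x ^ (k + 1)) := by
            rw [mul_pow, pow_succ x k]
            ring
        _ ≤ (max 0 (r - 2 * e)) ^ (k + 1) * (((H : ℝ) / L) ^ (k + 1) * x ^ (k + 1)) :=
            mul_le_mul_of_nonneg_right her (by positivity)
        _ = _ := by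
            rw [mul_pow, mul_pow]
  rw [← Finset.sum_div, ← Finset.mul_sum, le_div_iff₀ hx0]
  have h16 : (r ^ (k + 1) - ε) * ((H : ℝ) / L) ^ (k + 1) * x / ((k + 1).factorial : ℝ) ≤
      ∑ E ∈ Finset.powersetCard (k + 1) (Finset.Icc 1 (H : ℤ)), (cntQ x Q E : ℝ) :=
    (div_le_div_of_nonneg_right h12 hf.le).trans h10
  calc (r ^ (k + 1) - ε) * ((H : ℝ) ^ (k + 1) / ((k + 1).factorial : ℝ)) * x
      = L ^ (k + 1) * ((r ^ (k + 1) - ε) * ((H : ℝ) / L) ^ (k + 1) * x / ((k + 1).factorial : ℝ)) := by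
        rw [div_pow]
        field_simp
    _ ≤ _ := mul_le_mul_of_nonneg_left h16 (by positivity)

/-- the mass of the tuples with `R_Q ≥ (1 - h) r^k` -/
theorem T1cQ (j : ℕ) (ε : ℝ) (hε : 0 < ε) : ∃ K X : ℝ, 1 ≤ K ∧ ∀ x : ℝ, X ≤ x → ∀ Q : Finset ℕ,
    (∀ p ∈ Q, p.Prime ∧ (p : ℝ) ≤ x) → ∀ r : ℝ, r = (Q.card : ℝ) * Real.log x / x → ∀ H : ℕ, K * Real.log x ≤ (H : ℝ) →
    (H : ℝ) ≤ (Real.log x) ^ 2 → ∀ h : ℝ, 0 ≤ h → h ≤ 1 →
    (h * r ^ (j + 2) - ε) * ((H : ℝ) ^ (j + 2) / ((j + 2).factorial : ℝ)) ≤ (4 ^ (j + 1) - (1 - h) * r ^ (j + 2)) *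
      ∑ E ∈ (Finset.powersetCard (j + 2) (Finset.Icc 1 (H : ℤ))).filter (fun E =>
        (1 - h) * r ^ (j + 2) * (sing E * x / (Real.log x) ^ (j + 2)) ≤ (cntQ x Q E : ℝ)), sing E := by
  classical
  have hf : (0 : ℝ) < ((j + 2).factorial : ℝ) := by exact_mod_cast Nat.factorial_pos _
  obtain ⟨K1, X1, hK1, hX1⟩ := T1E j (ε / (4 * ((j + 2).factorial : ℝ))) (by positivity)
  obtain ⟨X2, hX2⟩ := GalE (j + 1) (ε / (4 * 2 ^ (j + 2))) (by positivity)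
  obtain ⟨K3, X3, hK3, hX3⟩ := JENQ (j + 1) (ε / 4) (by positivity)
  obtain ⟨X4, hX4⟩ := JENQ_size
  refine ⟨max K1 K3, max (max X1 X2) (max (max X3 X4) (Real.exp 1)), hK1.trans (le_max_left _ _),
    fun x hx Q hQ r hr H hH1 hH2 h hh0 hh1 => ?_⟩
  simp only [max_le_iff] at hx
  obtain ⟨⟨hx1, hx2⟩, ⟨hx3, hx4⟩, hxe⟩ := hx
  have hx0 : 0 < x := (Real.exp_pos 1).trans_le hxe
  have hL : 1 ≤ Real.log x := (Real.le_log_iff_exp_le hx0).2 hxe
  have hr2 := hX4 x hx4 Q hQ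
  have hr0 : 0 ≤ r := by
    rw [hr]
    exact div_nonneg (mul_nonneg (Nat.cast_nonneg _) (by linarith)) hx0.le
  rw [← hr] at hr2
  have hK1H : K1 * Real.log x ≤ H := (mul_le_mul_of_nonneg_right (le_max_left _ _) (by linarith)).trans hH1
  have hK3H : K3 * Real.log x ≤ H := (mul_le_mul_of_nonneg_right (le_max_right _ _) (by linarith)).trans hH1
  have hLH : Real.log x ≤ H := (le_mul_of_one_le_left (by linarith) hK1).trans hK1H
  have h1 := hX1 x hx1 H hK1H hH2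
  have h2 := hX2 x hx2 H hLH (by nlinarith [sq_nonneg (Real.log x)])
  have h3 := hX3 x hx3 Q hQ H hK3H hH2
  rw [← hr] at h3
  obtain ⟨P, hP⟩ : ∃ P, P = Finset.powersetCard (j + 2) (Finset.Icc 1 (H : ℤ)) := ⟨_, rfl⟩
  obtain ⟨U, hU⟩ : ∃ U : ℝ, U = (H : ℝ) ^ (j + 2) / ((j + 2).factorial : ℝ) := ⟨_, rfl⟩
  have e1 : j + 1 + 1 = j + 2 := rfl
  rw [e1, ← hP, ← hU] at h2 h3
  rw [← hP] at h1 ⊢
  rw [← hU]
  have hU0 : 0 ≤ U := by
    rw [hU]
    positivity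
  have h1' : ε / (4 * ((j + 2).factorial : ℝ)) * (H : ℝ) ^ (j + 2) = ε / 4 * U := by
    rw [hU]
    field_simp
  rw [h1'] at h1
  obtain ⟨ρ, hρ⟩ : ∃ ρ : ℝ, ρ = r ^ (j + 2) := ⟨_, rfl⟩
  have hρ0 : 0 ≤ ρ := by
    rw [hρ]
    positivity
  have hρ2 : ρ ≤ 2 ^ (j + 2) := by
    rw [hρ]
    exact pow_le_pow_left₀ hr0 hr2 _
  rw [← hρ] at h3 ⊢
  obtain ⟨s, hs⟩ : ∃ s : Finset ℤ → ℝ, s = fun E => (Real.log x) ^ (j + 2) * (cnt x E : ℝ) / x := ⟨_, rfl⟩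
  have hsE : ∀ E, (Real.log x) ^ (j + 2) * (cnt x E : ℝ) / x = s E := fun E => by rw [hs]
  simp only [hsE] at h1
  obtain ⟨t, ht⟩ : ∃ t : Finset ℤ → ℝ, t = fun E => (Real.log x) ^ (j + 2) * (cntQ x Q E : ℝ) / x := ⟨_, rfl⟩
  have htE : ∀ E, (Real.log x) ^ (j + 2) * (cntQ x Q E : ℝ) / x = t E := fun E => by rw [ht]
  simp only [htE] at h3
  have hts : ∀ E, t E ≤ s E := by
    intro E
    rw [ht, hs]
    refine div_le_div_of_nonneg_right (mul_le_mul_of_nonneg_left ?_ (by positivity)) hx0.le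
    exact_mod_cast cntQ_le x (fun p hp => (hQ p hp).1) E
  obtain ⟨p, hp⟩ : ∃ p : Finset ℤ → Prop, p = fun E => (1 - h) * ρ * (sing E * x / (Real.log x) ^ (j + 2)) ≤ (cntQ x Q E : ℝ) :=
    ⟨_, rfl⟩
  have hpp : ∑ E ∈ P.filter (fun E => (1 - h) * ρ * (sing E * x / (Real.log x) ^ (j + 2)) ≤ (cntQ x Q E : ℝ)), sing E =
      ∑ E ∈ P.filter p, sing E := by
    rw [hp]
  rw [hpp]
  have hsplit_s := Finset.sum_filter_add_sum_filter_not P p sing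
  have hsplit_t := Finset.sum_filter_add_sum_filter_not P p t
  obtain ⟨q, hq⟩ : ∃ q : ℝ, q = 4 ^ (j + 1) := ⟨_, rfl⟩
  rw [← hq] at h1 ⊢
  have hLp : 0 < (Real.log x) ^ (j + 2) := by positivity
  -- the good tuples
  have hA : ∑ E ∈ P.filter p, t E ≤ q * ∑ E ∈ P.filter p, sing E + ε / 4 * U := by
    have h4 : ∑ E ∈ P.filter p, (t E - q * sing E) ≤ ε / 4 * U := by
      refine le_trans ?_ h1
      refine le_trans (Finset.sum_le_sum fun E _ => (sub_le_sub_right (hts E) _).trans (le_max_right 0 (s E - q * sing E))) ?_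
      exact Finset.sum_le_sum_of_subset_of_nonneg (Finset.filter_subset _ _) fun E _ _ => le_max_left _ _
    rw [Finset.sum_sub_distrib, ← Finset.mul_sum] at h4
    linarith
  -- the bad tuples
  have hB : ∑ E ∈ P.filter (fun E => ¬ p E), t E ≤ (1 - h) * ρ * ∑ E ∈ P.filter (fun E => ¬ p E), sing E := by
    rw [Finset.mul_sum]
    refine Finset.sum_le_sum fun E hE => ?_
    rw [Finset.mem_filter] at hE
    have h5 : (cntQ x Q E : ℝ) < (1 - h) * ρ * (sing E * x / (Real.log x) ^ (j + 2)) := by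
      have := hE.2
      rw [hp] at this
      exact not_le.1 this
    rw [ht]
    show (Real.log x) ^ (j + 2) * (cntQ x Q E : ℝ) / x ≤ (1 - h) * ρ * sing E
    rw [div_le_iff₀ hx0]
    calc (Real.log x) ^ (j + 2) * (cntQ x Q E : ℝ) ≤
        (Real.log x) ^ (j + 2) * ((1 - h) * ρ * (sing E * x / (Real.log x) ^ (j + 2))) :=
          mul_le_mul_of_nonneg_left h5.le hLp.le
      _ = (1 - h) * ρ * sing E * x := by
          field_simp
  obtain ⟨M, hM⟩ : ∃ M, M = ∑ E ∈ P.filter p, sing E := ⟨_, rfl⟩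
  obtain ⟨M', hM'⟩ : ∃ M', M' = ∑ E ∈ P.filter (fun E => ¬ p E), sing E := ⟨_, rfl⟩
  rw [← hM] at hA hsplit_s ⊢
  rw [← hM'] at hB hsplit_s
  have hc0 : 0 ≤ (1 - h) * ρ := mul_nonneg (by linarith) hρ0
  have h6 : (1 - h) * ρ * M' ≤ (1 - h) * ρ * ((1 + ε / (4 * 2 ^ (j + 2))) * U - M) :=
    mul_le_mul_of_nonneg_left (by linarith) hc0
  have h7 : (ρ - ε / 4) * U ≤ q * M + ε / 4 * U + (1 - h) * ρ * ((1 + ε / (4 * 2 ^ (j + 2))) * U - M) := by linarith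
  have h8 : (1 - h) * ρ * (ε / (4 * 2 ^ (j + 2)) * U) ≤ ε / 4 * U := by
    have h9 : (1 - h) * ρ ≤ 2 ^ (j + 2) := by nlinarith
    calc (1 - h) * ρ * (ε / (4 * 2 ^ (j + 2)) * U) ≤ 2 ^ (j + 2) * (ε / (4 * 2 ^ (j + 2)) * U) :=
          mul_le_mul_of_nonneg_right h9 (by positivity)
      _ = ε / 4 * U := by
          field_simp
  have h10 : 0 ≤ ε / 4 * U := by positivity
  have h11 : (q - (1 - h) * ρ) * M = q * M - (1 - h) * ρ * M := by ring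
  have h12 : (h * ρ - ε) * U = (ρ - ε / 4) * U - (1 - h) * ρ * U - 3 * (ε / 4 * U) := by ring
  rw [h11, h12]
  have h13 : (1 - h) * ρ * ((1 + ε / (4 * 2 ^ (j + 2))) * U - M) =
      (1 - h) * ρ * U + (1 - h) * ρ * (ε / (4 * 2 ^ (j + 2)) * U) - (1 - h) * ρ * M := by ring
  rw [h13] at h7
  linarith

end Pool.Agent.H6.AE
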